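import Pool.Agent.Run7.k800.Mean
import Pool.Agent.Run7.k800.Shape
import Pool.Agent.Helper627.PM

set_option autoImplicit false
set_option linter.unusedSectionVars false

/-!
# Base file Sel
-/

namespace Run7.k800

section psel


open Filter Topology MeasureTheory Metric Set

/-- the parameters -/
noncomputable def mkp (x y : ℝ) : RR :=
  (projIcc 1 2 (by norm_num) x, projIcc 0 1 (by norm_num) y)

lemma mkp_cont : Continuous (fun z : ℝ × ℝ => mkp z.1 z.2) := by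
  unfold mkp
  exact (continuous_projIcc.comp continuous_fst).prodMk (continuous_projIcc.comp continuous_snd)

lemma mkp_S {x y : ℝ} (hy : y ∈ Icc (0 : ℝ) 1) : qS (mkp x y) = y := by
  change ((projIcc 0 1 (by norm_num) y : Icc (0 : ℝ) 1) : ℝ) = y
  rw [projIcc_of_mem _ hy]

lemma mkp_I {x y : ℝ} (hx : x ∈ Icc (1 : ℝ) 2) : qI (mkp x y) = x := by
  change ((projIcc 1 2 (by norm_num) x : Icc (1 : ℝ) 2) : ℝ) = x
  rw [projIcc_of_mem _ hx]


end psel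

section pfin


open Filter Topology MeasureTheory Set

/-- the vector of a configuration in terms of the two Jacobi vectors -/
noncomputable def hv (z1 z2 : ℂ) : E3 :=
  !₂[(‖z1‖ ^ 2 - ‖z2‖ ^ 2) / 2, (z1 * (starRingEnd ℂ) z2).re, (z1 * (starRingEnd ℂ) z2).im]

lemma hv_eq {a1 a2 : ℝ} (h1 : 0 < a1) (h2 : 0 < a2) {X w : ℂ} (hX : X ≠ 0) :
    (2 * ‖hv (a1 * X) (a2 * (X * w))‖)⁻¹ • hv (a1 * X) (a2 * (X * w)) = Sph (a2 / a1) w.re w.im := by
  obtain ⟨c, hc⟩ : ∃ c, c = a2 / a1 := ⟨_, rfl⟩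
  have hc' : a2 = c * a1 := by rw [hc]; field_simp
  obtain ⟨v, hv0⟩ : ∃ v : E3, v = !₂[(1 - c ^ 2 * (w.re ^ 2 + w.im ^ 2)) / 2, c * w.re, -(c * w.im)] := ⟨_, rfl⟩
  have hD : 0 < 1 + c ^ 2 * (w.re ^ 2 + w.im ^ 2) := by positivity
  have hS : Sph c w.re w.im = (1 + c ^ 2 * (w.re ^ 2 + w.im ^ 2))⁻¹ • v := by rw [hv0]; rfl
  have hnv : ‖v‖ = (1 + c ^ 2 * (w.re ^ 2 + w.im ^ 2)) / 2 := by
    have h3 := Sph_norm c w.re w.im
    rw [hS, norm_smul, norm_inv, Real.norm_eq_abs, abs_of_pos hD] at h3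
    field_simp at h3
    linarith
  have hn1 : ‖(a1 : ℂ) * X‖ ^ 2 = a1 ^ 2 * ‖X‖ ^ 2 := by
    rw [norm_mul, Complex.norm_real, Real.norm_eq_abs, mul_pow, sq_abs]
  have hn2 : ‖(a2 : ℂ) * (X * w)‖ ^ 2 = a1 ^ 2 * ‖X‖ ^ 2 * (c ^ 2 * (w.re ^ 2 + w.im ^ 2)) := by
    rw [norm_mul, norm_mul, Complex.norm_real, Real.norm_eq_abs, mul_pow, mul_pow, sq_abs,
      ← Complex.normSq_eq_norm_sq w, Complex.normSq_apply, hc']
    ring
  have hm : (a1 : ℂ) * X * (starRingEnd ℂ) ((a2 : ℂ) * (X * w))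
      = ((a1 ^ 2 * ‖X‖ ^ 2 * c : ℝ) : ℂ) * (starRingEnd ℂ) w := by
    have hXX : X * (starRingEnd ℂ) X = ((‖X‖ ^ 2 : ℝ) : ℂ) := by
      rw [Complex.mul_conj, Complex.normSq_eq_norm_sq]
    rw [map_mul, map_mul, Complex.conj_ofReal, hc']
    push_cast
    push_cast at hXX
    linear_combination ((a1 : ℂ) * (c * a1) * (starRingEnd ℂ) w) * hXX
  have hh : hv (a1 * X) (a2 * (X * w)) = (a1 ^ 2 * ‖X‖ ^ 2) • v := by
    unfold hv
    rw [hn1, hn2, hm, hv0, Complex.re_ofReal_mul, Complex.im_ofReal_mul, Complex.conj_re, Complex.conj_im]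
    ext i
    fin_cases i
    · simp; ring
    · simp; ring
    · simp; ring
  have hX' : 0 < ‖X‖ := norm_pos_iff.mpr hX
  have hA : 0 < a1 ^ 2 * ‖X‖ ^ 2 := by positivity
  rw [← hc, hh, norm_smul, Real.norm_eq_abs, abs_of_pos hA, hnv, hS, smul_smul]
  congr 1
  field_simp


end pfin

end Run7.k800
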