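import Pool.Agent.Run7.k800.Tame

set_option autoImplicit false
set_option linter.unusedSectionVars false

/-!
# Base file Rec
-/

namespace Run7.k800

section prec


open Filter Topology MeasureTheory Set

/-- change of time -/
lemma time_change {h : ℝ → ℝ} (hh : Continuous h) {c : ℝ} (hc : 0 < c) (hch : ∀ s, c ≤ h s) :
    ∃ τ : ℝ → ℝ, Function.Surjective τ ∧ ∀ t, HasDerivAt τ (h (τ t))⁻¹ t := by
  obtain ⟨T, hT⟩ : ∃ T : ℝ → ℝ, T = fun s => ∫ x in (0 : ℝ)..s, h x := ⟨_, rfl⟩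
  have hd : ∀ s, HasDerivAt T (h s) s := by
    intro s
    rw [hT]
    exact intervalIntegral.integral_hasDerivAt_right (hh.intervalIntegrable _ _)
      (hh.stronglyMeasurableAtFilter _ _) hh.continuousAt
  have hTc : Continuous T := continuous_iff_continuousAt.mpr (fun s => (hd s).continuousAt)
  have hmono : StrictMono T := strictMono_of_deriv_pos (fun s => by
    rw [(hd s).deriv]; linarith [hch s])
  have hT0 : T 0 = 0 := by rw [hT]; simp
  have hlow : ∀ s, 0 ≤ s → c * s ≤ T s := by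
    intro s hs
    rw [hT]
    have h1 : ∫ x in (0 : ℝ)..s, c ≤ ∫ x in (0 : ℝ)..s, h x :=
      intervalIntegral.integral_mono_on hs (by simp) (hh.intervalIntegrable _ _) (fun x _ => hch x)
    simp at h1
    linarith
  have hup : ∀ s, s ≤ 0 → T s ≤ c * s := by
    intro s hs
    have h1 : ∫ x in s..(0 : ℝ), c ≤ ∫ x in s..(0 : ℝ), h x :=
      intervalIntegral.integral_mono_on hs (by simp) (hh.intervalIntegrable _ _) (fun x _ => hch x)
    have h2 : T s = -∫ x in s..(0 : ℝ), h x := by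
      rw [hT]; exact intervalIntegral.integral_symm _ _
    rw [h2]
    simp at h1
    linarith
  have hsurj : Function.Surjective T := by
    intro y
    have h1 : T (-(|y| / c)) ≤ y := by
      have h3 : 0 ≤ |y| / c := by positivity
      have h2 := hup (-(|y| / c)) (by linarith)
      have h4 : c * -(|y| / c) = -|y| := by field_simp
      rw [h4] at h2
      linarith [neg_abs_le y]
    have h2 : y ≤ T (|y| / c) := by
      have h2 := hlow (|y| / c) (by positivity)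
      have h4 : c * (|y| / c) = |y| := by field_simp
      rw [h4] at h2
      linarith [le_abs_self y]
    have h5 : -(|y| / c) ≤ |y| / c := by
      have h3 : 0 ≤ |y| / c := by positivity
      linarith
    obtain ⟨s, -, hs⟩ := intermediate_value_Icc h5 hTc.continuousOn ⟨h1, h2⟩
    exact ⟨s, hs⟩
  obtain ⟨e, he⟩ : ∃ e : ℝ ≃o ℝ, ∀ x, e x = T x := ⟨hmono.orderIsoOfSurjective T hsurj, fun x => rfl⟩
  refine ⟨e.symm, e.symm.surjective, fun t => ?_⟩
  refine HasDerivAt.of_local_left_inverse (f := T) e.symm.continuous.continuousAt (hd _) ?_ ?_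
  · linarith [hch (e.symm t)]
  · refine Eventually.of_forall (fun y => ?_)
    rw [← he]
    exact e.apply_symm_apply y

/-- The reduced equations. -/
structure Red (mu : ℝ) (ψ χ L : ℝ → ℝ) (w φ F G : ℝ → ℂ) : Prop where
  mu_pos : 0 < mu
  ψ_pos : ∀ s, 0 < ψ s
  L_pos : ∀ s, 0 < L s
  hψ : ∀ s, HasDerivAt ψ (mu * (-2 * (F s).im - χ s)) s
  hχ : ∀ s, HasDerivAt χ (mu * (ψ s - (F s).re - (F s).im * χ s / ψ s)) s
  hL : ∀ s, HasDerivAt L (-(mu * (F s).im * L s / ψ s)) s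
  hw : ∀ s, HasDerivAt w (mu * φ s) s
  hφ : ∀ s, HasDerivAt φ (mu * ((F s * w s - G s) / ψ s - 2 * Complex.I * φ s
    + φ s * (F s).im / ψ s)) s

variable {mu : ℝ} {ψ χ L : ℝ → ℝ} {w φ F G : ℝ → ℂ}

/-- the rotating exponential -/
noncomputable def ex (mu : ℝ) (s : ℝ) : ℂ := Complex.exp (((mu * s : ℝ) : ℂ) * Complex.I)

lemma norm_ex (mu s : ℝ) : ‖ex mu s‖ = 1 := Complex.norm_exp_ofReal_mul_I _

lemma ex_deriv (mu s : ℝ) : HasDerivAt (ex mu) (mu * Complex.I * ex mu s) s := by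
  unfold ex
  have h1 : HasDerivAt (fun s : ℝ => ((mu * s : ℝ) : ℂ)) ((mu * 1 : ℝ) : ℂ) s :=
    ((hasDerivAt_id s).const_mul mu).ofReal_comp
  have h2 := (h1.mul_const Complex.I).cexp
  refine h2.congr_deriv ?_
  push_cast
  ring

lemma Red.x_deriv (h : Red mu ψ χ L w φ F G) (s : ℝ) :
    HasDerivAt (fun s => ((L s ^ 2 / ψ s : ℝ) : ℂ) * ex mu s)
      ((mu * L s ^ 2 / ψ s ^ 2 : ℝ) * (χ s + Complex.I * ψ s) * ex mu s) s := by
  have hψ := (h.ψ_pos s).ne'
  have h1 : HasDerivAt (fun s => L s ^ 2 / ψ s) (mu * L s ^ 2 * χ s / ψ s ^ 2) s := by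
    have := ((h.hL s).pow 2).div (h.hψ s) hψ
    refine this.congr_deriv ?_
    simp only [Pi.pow_apply]
    field_simp
    ring
  have h2 := h1.ofReal_comp.mul (ex_deriv mu s)
  refine h2.congr_deriv ?_
  push_cast
  have hψ' : (ψ s : ℂ) ≠ 0 := by exact_mod_cast hψ
  field_simp

lemma Red.v_deriv (h : Red mu ψ χ L w φ F G) (s : ℝ) :
    HasDerivAt (fun s => (((χ s / L s : ℝ) : ℂ) + Complex.I * ((ψ s / L s : ℝ) : ℂ)) * ex mu s)
      (-((mu / L s : ℝ) : ℂ) * F s * ex mu s) s := by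
  have hψ := (h.ψ_pos s).ne'
  have hL := (h.L_pos s).ne'
  have h1 : HasDerivAt (fun s => χ s / L s) (mu / L s * (ψ s - (F s).re)) s := by
    have := (h.hχ s).div (h.hL s) hL
    refine this.congr_deriv ?_
    field_simp
    ring
  have h2 : HasDerivAt (fun s => ψ s / L s) (mu / L s * (-(F s).im - χ s)) s := by
    have := (h.hψ s).div (h.hL s) hL
    refine this.congr_deriv ?_
    field_simp
    ring
  have h3 := (h1.ofReal_comp.add (h2.ofReal_comp.const_mul Complex.I)).mul (ex_deriv mu s)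
  refine h3.congr_deriv ?_
  have hF : F s = (F s).re + (F s).im * Complex.I := (Complex.re_add_im _).symm
  have hL' : (L s : ℂ) ≠ 0 := by exact_mod_cast hL
  have hI := Complex.I_sq
  simp only [Pi.add_apply]
  conv_rhs => rw [hF]
  push_cast
  field_simp
  linear_combination (ex mu s * (mu : ℂ) * (ψ s : ℂ)) * hI

lemma Red.y_deriv (h : Red mu ψ χ L w φ F G) (s : ℝ) :
    HasDerivAt (fun s => (((χ s / L s : ℝ) : ℂ) + Complex.I * ((ψ s / L s : ℝ) : ℂ)) * ex mu s * w s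
        + ((ψ s / L s : ℝ) : ℂ) * φ s * ex mu s)
      (-((mu / L s : ℝ) : ℂ) * G s * ex mu s) s := by
  have hψ := (h.ψ_pos s).ne'
  have hL := (h.L_pos s).ne'
  have h2 : HasDerivAt (fun s => ψ s / L s) (mu / L s * (-(F s).im - χ s)) s := by
    have := (h.hψ s).div (h.hL s) hL
    refine this.congr_deriv ?_
    field_simp
    ring
  have h3 := ((h.v_deriv s).mul (h.hw s)).add ((h2.ofReal_comp.mul (h.hφ s)).mul (ex_deriv mu s))
  refine h3.congr_deriv ?_
  have hL' : (L s : ℂ) ≠ 0 := by exact_mod_cast hL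
  have hψ' : (ψ s : ℂ) ≠ 0 := by exact_mod_cast hψ
  simp only [Pi.mul_apply]
  push_cast
  field_simp
  ring

/-- reconstruction -/
theorem Red.sol (h : Red mu ψ χ L w φ F G) {c : ℝ} (hc : 0 < c)
    (hcL : ∀ s, c ≤ mu * L s ^ 3 / ψ s ^ 2) :
    ∃ (τ : ℝ → ℝ) (X V W : ℝ → ℂ), Function.Surjective τ ∧ (∀ t, X t ≠ 0) ∧
      (∀ t, HasDerivAt X (V t) t) ∧
      (∀ t, HasDerivAt V (-(X t / (‖X t‖ ^ 3 : ℝ)) * F (τ t)) t) ∧
      (∀ t, HasDerivAt (fun t => X t * w (τ t)) (W t) t) ∧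
      (∀ t, HasDerivAt W (-(X t / (‖X t‖ ^ 3 : ℝ)) * G (τ t)) t) := by
  have hcont : Continuous (fun s => mu * L s ^ 3 / ψ s ^ 2) := by
    have h1 : Continuous L := continuous_iff_continuousAt.mpr (fun s => (h.hL s).continuousAt)
    have h2 : Continuous ψ := continuous_iff_continuousAt.mpr (fun s => (h.hψ s).continuousAt)
    exact (continuous_const.mul (h1.pow 3)).div (h2.pow 2) (fun s => by
      have := h.ψ_pos s; positivity)
  obtain ⟨τ, hsurj, hτ⟩ := time_change hcont hc hcL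
  have hmu := h.mu_pos
  have hmu' : (mu : ℂ) ≠ 0 := by exact_mod_cast hmu.ne'
  have hX : ∀ s, ‖((L s ^ 2 / ψ s : ℝ) : ℂ) * ex mu s‖ = L s ^ 2 / ψ s := by
    intro s
    have h1 := h.ψ_pos s
    have h2 := h.L_pos s
    rw [norm_mul, norm_ex, mul_one, Complex.norm_real, Real.norm_eq_abs, abs_of_pos (by positivity)]
  refine ⟨τ, fun t => ((L (τ t) ^ 2 / ψ (τ t) : ℝ) : ℂ) * ex mu (τ t),
    fun t => (((χ (τ t) / L (τ t) : ℝ) : ℂ) + Complex.I * ((ψ (τ t) / L (τ t) : ℝ) : ℂ)) * ex mu (τ t),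
    fun t => (((χ (τ t) / L (τ t) : ℝ) : ℂ) + Complex.I * ((ψ (τ t) / L (τ t) : ℝ) : ℂ)) * ex mu (τ t)
        * w (τ t) + ((ψ (τ t) / L (τ t) : ℝ) : ℂ) * φ (τ t) * ex mu (τ t),
    hsurj, fun t => ?_, fun t => ?_, fun t => ?_, fun t => ?_, fun t => ?_⟩
  · rw [← norm_ne_zero_iff, hX]
    have h1 := h.ψ_pos (τ t)
    have h2 := h.L_pos (τ t)
    positivity
  · have h1 := (h.x_deriv (τ t)).scomp t (hτ t)
    refine h1.congr_deriv ?_
    have hψ' : (ψ (τ t) : ℂ) ≠ 0 := by exact_mod_cast (h.ψ_pos (τ t)).ne'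
    have hL' : (L (τ t) : ℂ) ≠ 0 := by exact_mod_cast (h.L_pos (τ t)).ne'
    rw [Complex.real_smul]
    push_cast
    field_simp
  · have h1 := (h.v_deriv (τ t)).scomp t (hτ t)
    refine h1.congr_deriv ?_
    have hψ' : (ψ (τ t) : ℂ) ≠ 0 := by exact_mod_cast (h.ψ_pos (τ t)).ne'
    have hL' : (L (τ t) : ℂ) ≠ 0 := by exact_mod_cast (h.L_pos (τ t)).ne'
    rw [Complex.real_smul, hX]
    push_cast
    field_simp
  · have h1 := ((h.x_deriv (τ t)).mul (h.hw (τ t))).scomp t (hτ t)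
    refine h1.congr_deriv ?_
    have hψ' : (ψ (τ t) : ℂ) ≠ 0 := by exact_mod_cast (h.ψ_pos (τ t)).ne'
    have hL' : (L (τ t) : ℂ) ≠ 0 := by exact_mod_cast (h.L_pos (τ t)).ne'
    rw [Complex.real_smul]
    push_cast
    field_simp
    try ring
  · have h1 := (h.y_deriv (τ t)).scomp t (hτ t)
    refine h1.congr_deriv ?_
    have hψ' : (ψ (τ t) : ℂ) ≠ 0 := by exact_mod_cast (h.ψ_pos (τ t)).ne'
    have hL' : (L (τ t) : ℂ) ≠ 0 := by exact_mod_cast (h.L_pos (τ t)).ne'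
    rw [Complex.real_smul, hX]
    push_cast
    field_simp


end prec

section prec2


open Filter Topology MeasureTheory Set

/-- the attraction -/
noncomputable def att (z : ℂ) : ℂ := z / ((‖z‖ ^ 3 : ℝ) : ℂ)

lemma att_mul (x z : ℂ) : att (x * z) = att x * att z := by
  unfold att
  rw [norm_mul, mul_pow]
  push_cast
  rw [mul_div_mul_comm]

lemma att_neg (z : ℂ) : att (-z) = -att z := by
  unfold att
  rw [norm_neg, neg_div]

/-- Newton's equations -/
def Newton (m : Fin 3 → ℝ) (q : Fin 3 → ℝ → ℂ) : Prop :=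
  ∀ i, ∃ v a : ℝ → ℂ, (∀ t, HasDerivAt (q i) (v t) t) ∧ (∀ t, HasDerivAt v (a t) t) ∧
    ∀ t, (m i : ℂ) * a t = ∑ j ∈ Finset.univ.erase i,
      (m i * m j : ℂ) * (q j t - q i t) / ((‖q j t - q i t‖ ^ 3 : ℝ) : ℂ)


end prec2

section pser


open Filter Topology MeasureTheory Set

/-- the inverse cube -/
noncomputable def ic (t : ℝ) : ℝ := 1 - 3 / 2 * t + t ^ 2 * PS aT t


end pser

end Run7.k800
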