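import Pool.Agent.Run7.k800.Slv

set_option autoImplicit false
set_option linter.unusedSectionVars false

/-!
# Base file Step
-/

namespace Run7.k800

section pstep


open Filter Topology

variable {P : Type*} [TopologicalSpace P] [CompactSpace P]

/-- a family of vector fields with its derivatives -/
structure Fld (P : Type*) where
  Y : P → (Fin 6 ⊕ Fin 2 → ℝ) → Matrix (Fin 6) Unit ℝ
  A : P → (Fin 6 ⊕ Fin 2 → ℝ) → Matrix (Fin 6) (Fin 6) ℝ
  Bq : P → (Fin 6 ⊕ Fin 2 → ℝ) → Matrix (Fin 6) (Fin 2) ℝ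

/-- joint phase and parameter variable -/
def zz (U : P → ℝ × ℝ → Matrix (Fin 6) Unit ℝ) (q : Fin 2 → C(P, ℝ)) (p : P) (x : ℝ × ℝ) :
    Fin 6 ⊕ Fin 2 → ℝ := Sum.elim (fun i => U p x i ()) (fun k => q k p)

/-- reversal of the joint variable -/
def rz (z : Fin 6 ⊕ Fin 2 → ℝ) : Fin 6 ⊕ Fin 2 → ℝ :=
  Sum.elim (fun i => (![1, -1, 1, -1, -1, 1] : Fin 6 → ℝ) i * z (Sum.inl i)) (fun k => z (Sum.inr k))

lemma zz_refl {U : P → ℝ × ℝ → Matrix (Fin 6) Unit ℝ} (q : Fin 2 → C(P, ℝ))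
    (hU : ∀ p x, U p (-x) = Sg * U p x) (p : P) (x : ℝ × ℝ) :
    zz U q p (-x) = rz (zz U q p x) := by
  funext i
  rcases i with i | k
  · simp only [zz, rz, Sum.elim_inl, hU]
    unfold Sg
    rw [Matrix.diagonal_mul]
  · rfl

/-- closeness to the base torus -/
def near (r ρ : ℝ) (U0 : P → ℝ × ℝ → Matrix (Fin 6) Unit ℝ) (q0 : Fin 2 → C(P, ℝ))
    (U : P → ℝ × ℝ → Matrix (Fin 6) Unit ℝ) (q : Fin 2 → C(P, ℝ)) : Prop :=
  MB r ρ (fun p x => U p x - U0 p x) ∧ ∀ k, ‖q k - q0 k‖ ≤ ρ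

lemma near.mono {r r' ρ ρ' : ℝ} {U0 : P → ℝ × ℝ → Matrix (Fin 6) Unit ℝ} {q0 : Fin 2 → C(P, ℝ)}
    {U : P → ℝ × ℝ → Matrix (Fin 6) Unit ℝ} {q : Fin 2 → C(P, ℝ)} (h : near r ρ U0 q0 U q)
    (hr' : 0 ≤ r') (hr : r' ≤ r) (hρ : ρ ≤ ρ') : near r' ρ' U0 q0 U q :=
  ⟨h.1.mono hr' hr hρ, fun k => (h.2 k).trans hρ⟩

/-- tame family of vector fields near a torus -/
structure Fld.Tame (V : Fld P) (R ρ K : ℝ) (U0 : P → ℝ × ℝ → Matrix (Fin 6) Unit ℝ)
    (q0 : Fin 2 → C(P, ℝ)) : Prop where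
  K0 : 0 ≤ K
  bA : ∀ r U q, 1 ≤ r → r ≤ R → near r ρ U0 q0 U q → MB r K (fun p x => V.A p (zz U q p x))
  bB : ∀ r U q, 1 ≤ r → r ≤ R → near r ρ U0 q0 U q → MB r K (fun p x => V.Bq p (zz U q p x))
  lA : ∀ r U q d dq δ, 1 ≤ r → r ≤ R → near r ρ U0 q0 U q →
    near r ρ U0 q0 (fun p x => U p x + d p x) (q + dq) → MB r δ d → (∀ k, ‖dq k‖ ≤ δ) → δ ≤ 1 →
    MB r (K * δ) (fun p x => V.A p (zz (fun p x => U p x + d p x) (q + dq) p x)
      - V.A p (zz U q p x))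
  lB : ∀ r U q d dq δ, 1 ≤ r → r ≤ R → near r ρ U0 q0 U q →
    near r ρ U0 q0 (fun p x => U p x + d p x) (q + dq) → MB r δ d → (∀ k, ‖dq k‖ ≤ δ) → δ ≤ 1 →
    MB r (K * δ) (fun p x => V.Bq p (zz (fun p x => U p x + d p x) (q + dq) p x)
      - V.Bq p (zz U q p x))
  l2 : ∀ r U q d dq δ, 1 ≤ r → r ≤ R → near r ρ U0 q0 U q →
    near r ρ U0 q0 (fun p x => U p x + d p x) (q + dq) → MB r δ d → (∀ k, ‖dq k‖ ≤ δ) → δ ≤ 1 →
    MB r (K * δ ^ 2) (fun p x => V.Y p (zz (fun p x => U p x + d p x) (q + dq) p x)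
      - V.Y p (zz U q p x) - V.A p (zz U q p x) * d p x - V.Bq p (zz U q p x) * cq dq p)
  chain : ∀ r U q v, 1 < r → r ≤ R → near r ρ U0 q0 U q → Df U →
    Df (fun p x => V.Y p (zz U q p x)) ∧
    ∀ p x, dM v (fun p x => V.Y p (zz U q p x)) p x = V.A p (zz U q p x) * dM v U p x
  revY : ∀ p z, V.Y p (rz z) = -(Sg * V.Y p z)
  revA : ∀ p z, V.A p (rz z) = -(Sg * V.A p z * Sg)
  revB : ∀ p z, V.Bq p (rz z) = -(Sg * V.Bq p z)

/-- the two coordinate directions -/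
def ev : Fin 2 → ℝ × ℝ := ![(1, 0), (0, 1)]

lemma norm_ev (k : Fin 2) : ‖ev k‖ = 1 := by
  fin_cases k <;> simp [ev, Prod.norm_def]

/-- gradient of a vector function -/
noncomputable def gd (U : P → ℝ × ℝ → Matrix (Fin 6) Unit ℝ) :
    P → ℝ × ℝ → Matrix (Fin 6) (Fin 2) ℝ :=
  fun p x => Matrix.of fun i k => pd (ev k) (fun p x => U p x i ()) p x

lemma gd_apply (U : P → ℝ × ℝ → Matrix (Fin 6) Unit ℝ) (p : P) (x : ℝ × ℝ) (i : Fin 6)
    (k : Fin 2) : gd U p x i k = dM (ev k) U p x i () := rfl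

lemma gd_add {U W : P → ℝ × ℝ → Matrix (Fin 6) Unit ℝ} (hU : Df U) (hW : Df W) (p : P)
    (x : ℝ × ℝ) : gd (fun p x => U p x + W p x) p x = gd U p x + gd W p x := by
  ext i k
  rw [gd_apply, dM_add hU hW]; rfl

lemma gd_sub {U W : P → ℝ × ℝ → Matrix (Fin 6) Unit ℝ} (hU : Df U) (hW : Df W) (p : P)
    (x : ℝ × ℝ) : gd (fun p x => U p x - W p x) p x = gd U p x - gd W p x := by
  ext i k
  rw [gd_apply, dM_sub hU hW]; rfl

lemma gd_refl {U : P → ℝ × ℝ → Matrix (Fin 6) Unit ℝ} (hU : Df U)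
    (hs : ∀ p x, U p (-x) = Sg * U p x) (p : P) (x : ℝ × ℝ) :
    gd U p (-x) = -(Sg * gd U p x) := by
  have h1 : ∀ v, dM v U p (-x) = -(Sg * dM v U p x) := by
    intro v
    have e1 := dM_refl hU v p x
    have e2 : (fun p x => U p (-x)) = fun p x => Sg * U p x := by funext p x; exact hs p x
    rw [e2] at e1
    have e3 := dM_mul (P := P) (Df.const (fun _ => Sg)) hU v p x
    rw [dM_const, Matrix.zero_mul, zero_add] at e3
    have e4 := e1.symm.trans e3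
    rw [← e4, neg_neg]
  ext i k
  have h2 := congrFun (congrFun (h1 (ev k)) i) ()
  rw [gd_apply, h2, Matrix.neg_apply, Matrix.neg_apply, Matrix.mul_apply, Matrix.mul_apply]
  rfl

lemma T.gd {r Λ e s : ℝ} {a : ℕ} {U : P → ℝ × ℝ → Matrix (Fin 6) Unit ℝ}
    (hU : T r Λ a e U) (hs0 : 0 < s) (hs1 : s < 1) (hrs : 1 ≤ r * s)
    (hv : 1 / (1 - s) ≤ Λ) (hΛ : 6 ≤ Λ) (he : 0 ≤ e) : T (r * s) Λ (a + 1) e (gd U) := by
  intro i k
  exact (hU.dM hs0 hs1 hrs (ev k) (by rw [norm_ev]; exact hv) hΛ he) i ()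

lemma dM_gd {r M : ℝ} {U : P → ℝ × ℝ → Matrix (Fin 6) Unit ℝ} (hU : MB r M U) (hr : 1 < r)
    (v : ℝ × ℝ) (p : P) (x : ℝ × ℝ) : dM v (gd U) p x = gd (dM v U) p x := by
  ext i k
  exact pd_comm (hU i ()) hr v (ev k) p x

/-- A state of the iteration. -/
structure St (P : Type*) [TopologicalSpace P] where
  U : P → ℝ × ℝ → Matrix (Fin 6) Unit ℝ
  Pb : P → ℝ × ℝ → Matrix (Fin 6) (Fin 4) ℝ
  Psa : P → ℝ × ℝ → Matrix (Fin 2) (Fin 6) ℝ
  Psb : P → ℝ × ℝ → Matrix (Fin 4) (Fin 6) ℝ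
  S : P → ℝ × ℝ → Matrix (Fin 2) (Fin 4) ℝ
  q : Fin 2 → C(P, ℝ)
  lam : C(P, ℝ)

/-- symmetric states -/
structure St.Sym (t : St P) : Prop where
  U : ∀ p x, t.U p (-x) = Sg * t.U p x
  Pb : ∀ p x, t.Pb p (-x) = Sg * t.Pb p x * Pi4
  Psa : ∀ p x, t.Psa p (-x) = -(t.Psa p x * Sg)
  Psb : ∀ p x, t.Psb p (-x) = Pi4 * t.Psb p x * Sg
  S : ∀ p x, t.S p (-x) = t.S p x * Pi4

/-- bounded states -/
structure St.Bd (r k : ℝ) (t : St P) : Prop where
  U : MB r k t.U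
  Pb : MB r k t.Pb
  Psa : MB r k t.Psa
  Psb : MB r k t.Psb
  S : MB r k t.S

/-- close states -/
structure St.Cl (r κ : ℝ) (t t' : St P) : Prop where
  U : MB r κ (fun p x => t'.U p x - t.U p x)
  Pb : MB r κ (fun p x => t'.Pb p x - t.Pb p x)
  Psa : MB r κ (fun p x => t'.Psa p x - t.Psa p x)
  Psb : MB r κ (fun p x => t'.Psb p x - t.Psb p x)
  S : MB r κ (fun p x => t'.S p x - t.S p x)
  q : ∀ i, ‖t'.q i - t.q i‖ ≤ κ
  lam : ‖t'.lam - t.lam‖ ≤ κ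

/-- the error of the invariance equation -/
noncomputable def St.E (V : Fld P) (ω : ℝ × ℝ) (t : St P) (p : P) (x : ℝ × ℝ) :
    Matrix (Fin 6) Unit ℝ := dM ω t.U p x - V.Y p (zz t.U t.q p x)

/-- the error of the reducibility equation -/
noncomputable def St.R (V : Fld P) (ω : ℝ × ℝ) (t : St P) (p : P) (x : ℝ × ℝ) :
    Matrix (Fin 6) (Fin 4) ℝ := dM ω t.Pb p x - V.A p (zz t.U t.q p x) * t.Pb p x
      - gd t.U p x * t.S p x - t.Pb p x * dgm (dd t.lam) p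

/-- the error of the inverse -/
noncomputable def St.F (t : St P) (p : P) (x : ℝ × ℝ) :
    Matrix (Fin 6) (Fin 6) ℝ := gd t.U p x * t.Psa p x + t.Pb p x * t.Psb p x - 1

/-- bound of the errors -/
structure St.Er (V : Fld P) (ω : ℝ × ℝ) (r η : ℝ) (t : St P) : Prop where
  E : MB r η (t.E V ω)
  R : MB r η (t.R V ω)
  F : MB r η t.F

lemma alg_delta {A : Matrix (Fin 6) (Fin 6) ℝ} {Pa gE dPa : Matrix (Fin 6) (Fin 2) ℝ}
    {Pb R dPb : Matrix (Fin 6) (Fin 4) ℝ} {S : Matrix (Fin 2) (Fin 4) ℝ}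
    {D : Matrix (Fin 4) (Fin 4) ℝ} {Psa : Matrix (Fin 2) (Fin 6) ℝ}
    {Psb : Matrix (Fin 4) (Fin 6) ℝ} {xa dxa : Matrix (Fin 2) Unit ℝ}
    {xb dxb : Matrix (Fin 4) Unit ℝ} {rho : Matrix (Fin 6) Unit ℝ}
    (h1 : dPa = A * Pa + gE) (h2 : dPb = A * Pb + Pa * S + Pb * D + R)
    (h3 : dxa = Psa * rho - S * xb) (h4 : dxb = Psb * rho - D * xb) :
    dPa * xa + Pa * dxa + (dPb * xb + Pb * dxb)
      = A * (Pa * xa + Pb * xb) + gE * xa + R * xb + (Pa * Psa + Pb * Psb) * rho := by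
  subst h1 h2 h3 h4
  simp only [Matrix.mul_add, Matrix.add_mul, Matrix.mul_sub, Matrix.mul_assoc]
  abel

lemma alg_R {A A' : Matrix (Fin 6) (Fin 6) ℝ} {Pa K : Matrix (Fin 6) (Fin 2) ℝ}
    {Pb R dPb Z : Matrix (Fin 6) (Fin 4) ℝ} {S : Matrix (Fin 2) (Fin 4) ℝ}
    {D Dd Q dQ : Matrix (Fin 4) (Fin 4) ℝ} {Psa : Matrix (Fin 2) (Fin 6) ℝ}
    {Psb : Matrix (Fin 4) (Fin 6) ℝ}
    (h2 : dPb = A * Pb + Pa * S + Pb * D + R)
    (hZ : Z = R - (A' - A) * Pb - K * S)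
    (hQ : dQ = -(Psb * Z) + Dd - D * Q + Q * D) :
    (dPb + (dPb * Q + Pb * dQ)) - A' * (Pb + Pb * Q) - (Pa + K) * (S + (S * Q + Psa * Z))
        - (Pb + Pb * Q) * (D + Dd)
      = Z * Q - (Pa * Psa + Pb * Psb - 1) * Z - K * (Psa * Z) - Pb * Q * Dd := by
  have hR : R = Z + (A' - A) * Pb + K * S := by rw [hZ]; abel
  rw [h2, hQ, hR]
  simp only [Matrix.mul_add, Matrix.add_mul, Matrix.mul_sub, Matrix.sub_mul, Matrix.mul_assoc,
    Matrix.mul_neg, Matrix.one_mul]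
  abel

lemma alg_F {Pa K : Matrix (Fin 6) (Fin 2) ℝ} {Pb : Matrix (Fin 6) (Fin 4) ℝ}
    {Q : Matrix (Fin 4) (Fin 4) ℝ} {Psa : Matrix (Fin 2) (Fin 6) ℝ}
    {Psb : Matrix (Fin 4) (Fin 6) ℝ} {F F1 : Matrix (Fin 6) (Fin 6) ℝ}
    (hF : F = Pa * Psa + Pb * Psb - 1) (hF1 : F1 = F + (K * Psa + Pb * Q * Psb)) :
    (Pa + K) * (Psa - Psa * F1) + (Pb + Pb * Q) * (Psb - Psb * F1) - 1 = -(F1 * F1) := by
  have h1 : (Pa + K) * Psa + (Pb + Pb * Q) * Psb = 1 + F1 := by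
    rw [hF1, hF]
    simp only [Matrix.add_mul]
    abel
  have h2 : (Pa + K) * (Psa - Psa * F1) + (Pb + Pb * Q) * (Psb - Psb * F1)
      = ((Pa + K) * Psa + (Pb + Pb * Q) * Psb) * (1 - F1) := by
    simp only [Matrix.mul_sub, Matrix.add_mul, Matrix.mul_one, Matrix.mul_assoc]
    abel
  rw [h2, h1]
  noncomm_ring


end pstep

section pstep2


open Filter Topology

variable {P : Type*} [TopologicalSpace P] [CompactSpace P]

/-- exchange of the tangential system: the derivative of the gradient -/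
lemma dPa_eq {R ρ K r k : ℝ} {ω : ℝ × ℝ} {U0 : P → ℝ × ℝ → Matrix (Fin 6) Unit ℝ}
    {q0 : Fin 2 → C(P, ℝ)} {V : Fld P} (hV : V.Tame R ρ K U0 q0) {t : St P} (hr : 1 < r)
    (hrR : r ≤ R) (hn : near r ρ U0 q0 t.U t.q) (hU : MB r k t.U) (p : P) (x : ℝ × ℝ) :
    dM ω (gd t.U) p x = V.A p (zz t.U t.q p x) * gd t.U p x + gd (t.E V ω) p x := by
  have hr0 : 0 < r := by linarith
  have hDU := hU.df hr
  obtain ⟨c1, c2⟩ := hV.chain r t.U t.q ω hr hrR hn hDU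
  -- differentiability of dM ω U
  obtain ⟨s, hs⟩ : ∃ s : ℝ, s = (1 + 1 / r) / 2 := ⟨_, rfl⟩
  have hx1 : 1 / r < 1 := by rw [div_lt_one hr0]; exact hr
  have hx0 : 0 < 1 / r := by positivity
  have hs0 : 0 < s := by rw [hs]; linarith
  have hs1 : s < 1 := by rw [hs]; linarith
  have hrs : 1 < r * s := by
    have : r * s = (r + 1) / 2 := by rw [hs]; field_simp
    rw [this]; linarith
  have hDd : Df (dM ω t.U) := fun i j p => ((hU i j).pd hs0 hs1 hrs.le ω).diff hrs p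
  have e1 : gd (t.E V ω) p x = gd (dM ω t.U) p x - gd (fun p x => V.Y p (zz t.U t.q p x)) p x :=
    gd_sub hDd c1 p x
  have e2 : gd (fun p x => V.Y p (zz t.U t.q p x)) p x = V.A p (zz t.U t.q p x) * gd t.U p x := by
    ext i k
    obtain ⟨c3, c4⟩ := hV.chain r t.U t.q (ev k) hr hrR hn hDU
    rw [gd_apply, c4, Matrix.mul_apply, Matrix.mul_apply]
    rfl
  rw [e1, e2, dM_gd hU hr]
  abel

lemma MB.toT {m n : Type*} {r Λ k : ℝ} {A : P → ℝ × ℝ → Matrix m n ℝ} (h : MB r k A)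
    (hk : k ≤ Λ) (hr : 0 ≤ r) : T r Λ 1 1 A := h.mono hr le_rfl (by simpa using hk)

lemma dgm_sub_eq (a b : C(P, ℝ)) (p : P) :
    dgm (dd (a + b)) p = dgm (dd a) p + dgm (dd b) p := by
  unfold dgm dd
  ext i j
  by_cases h : i = j
  · subst h
    simp [Matrix.diagonal_apply, mul_add]
  · simp [Matrix.diagonal_apply, h]

lemma hd2 {lam : C(P, ℝ)} {δ : ℝ} (hlam : ∀ p, δ ≤ lam p) (hδ : 0 < δ) :
    ∀ (i j : Fin 4), dd lam i - dd lam j = 0 ∨ ∀ p, δ ≤ |(dd lam i - dd lam j) p| := by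
  intro i j
  have h1 : ∀ p, δ ≤ |lam p| := fun p => (hlam p).trans (le_abs_self _)
  have h2 : ∀ p, δ ≤ |-lam p| := fun p => by rw [abs_neg]; exact h1 p
  have h3 : ∀ p, δ ≤ |-lam p - lam p| := fun p => by
    have := hlam p
    rw [abs_of_neg (by linarith)]; linarith
  have h4 : ∀ p, δ ≤ |lam p + lam p| := fun p => by
    have := hlam p
    rw [abs_of_pos (by linarith)]; linarith
  fin_cases i <;> fin_cases j <;> simp [dd, sg, h1, h3, h4]

/-- the constant matrix is diagonal -/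
lemma cconst {lam : C(P, ℝ)} {δ : ℝ} (hlam : ∀ p, δ ≤ lam p) (hδ : 0 < δ)
    {c : Fin 4 → Fin 4 → C(P, ℝ)} (hc : ∀ i j, dd lam i - dd lam j ≠ 0 → c i j = 0) (p : P) :
    (1 / 2 : ℝ) • (cm c p - Pi4 * cm c p * Pi4)
      = dgm (dd ((1 / 2 : ℝ) • (c 3 3 - c 2 2))) p := by
  have hne : ∀ i j, dd lam i p - dd lam j p ≠ 0 → c i j = 0 := by
    intro i j h
    apply hc
    intro h'
    apply h
    have := congrArg (fun f : C(P, ℝ) => f p) h'
    simpa using this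
  have hl := hlam p
  have h02 : c 0 2 = 0 := hne _ _ (by simp [dd, sg]; linarith)
  have h03 : c 0 3 = 0 := hne _ _ (by simp [dd, sg]; linarith)
  have h12 : c 1 2 = 0 := hne _ _ (by simp [dd, sg]; linarith)
  have h13 : c 1 3 = 0 := hne _ _ (by simp [dd, sg]; linarith)
  have h20 : c 2 0 = 0 := hne _ _ (by simp [dd, sg]; linarith)
  have h21 : c 2 1 = 0 := hne _ _ (by simp [dd, sg]; linarith)
  have h30 : c 3 0 = 0 := hne _ _ (by simp [dd, sg]; linarith)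
  have h31 : c 3 1 = 0 := hne _ _ (by simp [dd, sg]; linarith)
  have h23 : c 2 3 = 0 := hne _ _ (by simp [dd, sg]; linarith)
  have h32 : c 3 2 = 0 := hne _ _ (by simp [dd, sg]; linarith)
  ext i j
  simp only [Matrix.smul_apply, Matrix.sub_apply, Matrix.mul_apply, Fin.sum_univ_four, cm,
    Matrix.of_apply, dgm, Matrix.diagonal_apply, dd, smul_eq_mul, ContinuousMap.smul_apply,
    ContinuousMap.sub_apply]
  fin_cases i <;> fin_cases j <;>
    simp [Pi4, sg, h02, h03, h12, h13, h20, h21, h30, h31, h23, h32] <;>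
    ring


end pstep2

section pstep3


open Filter Topology

variable {P : Type*} [TopologicalSpace P] [CompactSpace P]

lemma SS {n : Type*} (X : Matrix (Fin 6) n ℝ) : Sg * (Sg * X) = X := by
  rw [← Matrix.mul_assoc, Sg_sq, Matrix.one_mul]

lemma PP {n : Type*} (X : Matrix (Fin 4) n ℝ) : Pi4 * (Pi4 * X) = X := by
  rw [← Matrix.mul_assoc, Pi4_sq, Matrix.one_mul]

lemma dM_symm {m n : Type*} [Fintype m] [Fintype n] {X : P → ℝ × ℝ → Matrix m n ℝ} (hX : Df X)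
    (L : Matrix m m ℝ) (R : Matrix n n ℝ)
    (hs : ∀ p x, X p (-x) = L * X p x * R) (v : ℝ × ℝ) (p : P) (x : ℝ × ℝ) :
    dM v X p (-x) = -(L * dM v X p x * R) := by
  have e1 := dM_refl hX v p x
  have e2 : (fun p x => X p (-x)) = fun p x => L * X p x * R := by funext p x; exact hs p x
  rw [e2] at e1
  have hL : Df (P := P) (fun _ _ => L) := Df.const (fun _ => L)
  have hR : Df (P := P) (fun _ _ => R) := Df.const (fun _ => R)
  have e3 := dM_mul (hL.mul hX) hR v p x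
  have e4 := dM_mul hL hX v p x
  have c1 := dM_const (P := P) (fun _ => L) v p x
  have c2 := dM_const (P := P) (fun _ => R) v p x
  rw [c1, Matrix.zero_mul, zero_add] at e4
  rw [c2, Matrix.mul_zero, add_zero, e4] at e3
  rw [← e3, e1, neg_neg]

lemma E_symm {V : Fld P} {ω : ℝ × ℝ} {t : St P} (hrev : ∀ p z, V.Y p (rz z) = -(Sg * V.Y p z))
    (sy : t.Sym) (hD : Df t.U) (p : P) (x : ℝ × ℝ) : t.E V ω p (-x) = -(Sg * t.E V ω p x) := by
  have h1 := dM_symm hD Sg 1 (fun p x => by rw [Matrix.mul_one]; exact sy.U p x) ω p x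
  rw [Matrix.mul_one] at h1
  unfold St.E
  rw [h1, zz_refl t.q sy.U, hrev, Matrix.mul_sub]
  abel

lemma R_symm {V : Fld P} {ω : ℝ × ℝ} {t : St P} (hrev : ∀ p z, V.A p (rz z) = -(Sg * V.A p z * Sg))
    (sy : t.Sym) (hU : Df t.U) (hD : Df t.Pb) (p : P) (x : ℝ × ℝ) :
    t.R V ω p (-x) = -(Sg * t.R V ω p x * Pi4) := by
  have h1 := dM_symm hD Sg Pi4 sy.Pb ω p x
  have h2 := gd_refl hU sy.U p x
  have h3 : Pi4 * dgm (dd t.lam) p = -(dgm (dd t.lam) p * Pi4) := Pi4_dd t.lam p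
  unfold St.R
  rw [h1, zz_refl t.q sy.U, hrev, h2, sy.Pb, sy.S]
  simp only [Matrix.mul_assoc, Matrix.neg_mul, Matrix.mul_neg, SS, h3, Matrix.mul_sub,
    Matrix.sub_mul]
  abel

lemma F_symm {t : St P} (sy : t.Sym) (hU : Df t.U) (p : P) (x : ℝ × ℝ) :
    t.F p (-x) = Sg * t.F p x * Sg := by
  have h2 := gd_refl hU sy.U p x
  unfold St.F
  rw [h2, sy.Psa, sy.Psb, sy.Pb]
  simp only [Matrix.mul_assoc, Matrix.neg_mul, Matrix.mul_neg, PP, Matrix.mul_sub,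
    Matrix.sub_mul, Matrix.mul_add, Matrix.add_mul, Matrix.one_mul, Sg_sq, neg_neg]


end pstep3

section piter


open Filter Topology

variable {P : Type*} [TopologicalSpace P] [CompactSpace P]

lemma dep_seq {α : Type*} {Inv : ℕ → α → Prop} {Rel : ℕ → α → α → Prop} {t0 : α} (h0 : Inv 0 t0)
    (hs : ∀ n t, Inv n t → ∃ t', Inv (n + 1) t' ∧ Rel n t t') :
    ∃ f : ℕ → α, f 0 = t0 ∧ ∀ n, Inv n (f n) ∧ Rel n (f n) (f (n + 1)) := by
  classical
  let F : (n : ℕ) → {t : α // Inv n t} := fun n => Nat.rec ⟨t0, h0⟩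
    (fun n t => ⟨(hs n t.1 t.2).choose, (hs n t.1 t.2).choose_spec.1⟩) n
  refine ⟨fun n => (F n).1, rfl, fun n => ⟨(F n).2, ?_⟩⟩
  exact (hs n (F n).1 (F n).2).choose_spec.2

lemma St.Cl.trans {r a b : ℝ} {t t' t'' : St P} (h : t.Cl r a t') (h' : t'.Cl r b t'')
    (hr : 0 ≤ r) : t.Cl r (a + b) t'' := by
  have aux : ∀ {m n : Type} {X Y Z : P → ℝ × ℝ → Matrix m n ℝ},
      MB r a (fun p x => Y p x - X p x) → MB r b (fun p x => Z p x - Y p x) →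
      MB r (a + b) (fun p x => Z p x - X p x) := by
    intro m n X Y Z h1 h2 i j
    refine ((h1 i j).add (h2 i j) hr).congr (fun p x => ?_)
    simp only [Matrix.sub_apply]; ring
  refine ⟨aux h.U h'.U, aux h.Pb h'.Pb, aux h.Psa h'.Psa, aux h.Psb h'.Psb, aux h.S h'.S, ?_, ?_⟩
  · intro i
    have : t''.q i - t.q i = (t'.q i - t.q i) + (t''.q i - t'.q i) := by ring
    rw [this]
    exact (norm_add_le _ _).trans (add_le_add (h.q i) (h'.q i))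
  · have : t''.lam - t.lam = (t'.lam - t.lam) + (t''.lam - t'.lam) := by ring
    rw [this]
    exact (norm_add_le _ _).trans (add_le_add h.lam h'.lam)

lemma St.Cl.mono {r r' a b : ℝ} {t t' : St P} (h : t.Cl r a t') (hr' : 0 ≤ r') (hr : r' ≤ r)
    (hab : a ≤ b) : t.Cl r' b t' :=
  ⟨h.U.mono hr' hr hab, h.Pb.mono hr' hr hab, h.Psa.mono hr' hr hab, h.Psb.mono hr' hr hab,
    h.S.mono hr' hr hab, fun i => (h.q i).trans hab, h.lam.trans hab⟩

lemma St.Cl.refl {r : ℝ} (hr : 0 ≤ r) (t : St P) : t.Cl r 0 t := by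
  have aux : ∀ {m n : Type} {X : P → ℝ × ℝ → Matrix m n ℝ},
      MB r 0 (fun p x => X p x - X p x) := by
    intro m n X i j
    refine B.zero.congr (fun p x => ?_)
    simp
  exact ⟨aux, aux, aux, aux, aux, fun i => by simp, by simp⟩

lemma St.Er.mono {V : Fld P} {ω : ℝ × ℝ} {r r' a b : ℝ} {t : St P} (h : t.Er V ω r a)
    (hr' : 0 ≤ r') (hr : r' ≤ r) (hab : a ≤ b) : t.Er V ω r' b :=
  ⟨h.E.mono hr' hr hab, h.R.mono hr' hr hab, h.F.mono hr' hr hab⟩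

lemma St.Cl.bd {r R k a : ℝ} {t t' : St P} (h : t.Cl r a t') (hb : t.Bd R k) (hr : 0 ≤ r)
    (hR : r ≤ R) : t'.Bd r (k + a) := by
  have aux : ∀ {m n : Type} {X Y : P → ℝ × ℝ → Matrix m n ℝ},
      MB R k X → MB r a (fun p x => Y p x - X p x) → MB r (k + a) Y := by
    intro m n X Y h1 h2 i j
    refine (((h1 i j).mono hr hR le_rfl).add (h2 i j) hr).congr (fun p x => ?_)
    simp only [Matrix.sub_apply]; ring
  exact ⟨aux hb.U h.U, aux hb.Pb h.Pb, aux hb.Psa h.Psa, aux hb.Psb h.Psb, aux hb.S h.S⟩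

lemma MB.abs_le {m n : Type*} {r M : ℝ} {A : P → ℝ × ℝ → Matrix m n ℝ} (h : MB r M A) (hr : 1 ≤ r)
    (p : P) (x : ℝ × ℝ) (i : m) (j : n) : |A p x i j| ≤ M := (h i j).norm_le hr p x

/-- closeness of the determinant of the mean matrix -/
lemma det_close {ω : ℝ × ℝ} {a K k X c δ : ℝ} (ha : 0 ≤ a) (hK : 0 ≤ K) (hk : 0 ≤ k)
    (hc : 0 ≤ c)
    {P1 P2 : P → ℝ × ℝ → Matrix (Fin 2) (Fin 6) ℝ} {B1 B2 : P → ℝ × ℝ → Matrix (Fin 6) (Fin 2) ℝ}
    {S : P → ℝ × ℝ → Matrix (Fin 2) (Fin 4) ℝ} {xb : P → ℝ × ℝ → Matrix (Fin 4) (Fin 2) ℝ}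
    (h1 : MB 1 k P1) (h2 : MB 1 a (fun p x => P2 p x - P1 p x)) (h3 : MB 1 K B2)
    (h4 : MB 1 (K * a) (fun p x => B2 p x - B1 p x)) (h5 : MB 1 a S) (h6 : MB 1 X xb)
    {c0 Cm : P → Matrix (Fin 2) (Fin 2) ℝ}
    (hc0 : ∀ i j, Mn ω (fun p x => (P1 p x * B1 p x) i j) (fun p => c0 p i j))
    (hc0b : ∀ p i j, |c0 p i j| ≤ c)
    (hCm : ∀ i j, Mn ω (fun p x => (P2 p x * B2 p x - S p x * xb p x) i j) (fun p => Cm p i j))
    (hd : ∀ p, 2 * δ ≤ |c0 p 0 0 * c0 p 1 1 - c0 p 0 1 * c0 p 1 0|)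
    (hsm : 4 * (c + 1) * ((6 * K + 6 * k * K + 4 * X) * a) ≤ δ)
    (hsm1 : (6 * K + 6 * k * K + 4 * X) * a ≤ 1) (p : P) :
    δ ≤ |Cm p 0 0 * Cm p 1 1 - Cm p 0 1 * Cm p 1 0| := by
  set b := (6 * K + 6 * k * K + 4 * X) * a with hb
  have hdiff : ∀ i j, |Cm p i j - c0 p i j| ≤ b := by
    intro i j
    have h7 := ((hCm i j).sub (hc0 i j))
    refine Mn.abs_le h7 p (fun x => ?_)
    have e : (P2 p x * B2 p x - S p x * xb p x) i j - (P1 p x * B1 p x) i j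
        = (∑ l, ((P2 p x i l - P1 p x i l) * B2 p x l j + P1 p x i l * (B2 p x l j - B1 p x l j)))
          - ∑ l, S p x i l * xb p x l j := by
      rw [Matrix.sub_apply, Matrix.mul_apply, Matrix.mul_apply, Matrix.mul_apply]
      have : ∀ l, (P2 p x i l - P1 p x i l) * B2 p x l j + P1 p x i l * (B2 p x l j - B1 p x l j)
          = P2 p x i l * B2 p x l j - P1 p x i l * B1 p x l j := fun l => by ring
      simp only [this, Finset.sum_sub_distrib]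
      ring
    rw [e]
    have t1 : |∑ l, ((P2 p x i l - P1 p x i l) * B2 p x l j
        + P1 p x i l * (B2 p x l j - B1 p x l j))| ≤ 6 * (a * K + k * (K * a)) := by
      refine (Finset.abs_sum_le_sum_abs _ _).trans ?_
      have : ∀ l ∈ Finset.univ, |(P2 p x i l - P1 p x i l) * B2 p x l j
          + P1 p x i l * (B2 p x l j - B1 p x l j)| ≤ a * K + k * (K * a) := by
        intro l _
        have e2 : |P2 p x i l - P1 p x i l| ≤ a := h2.abs_le le_rfl p x i l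
        have e3 : |B2 p x l j| ≤ K := h3.abs_le le_rfl p x l j
        have e4 : |P1 p x i l| ≤ k := h1.abs_le le_rfl p x i l
        have e5 : |B2 p x l j - B1 p x l j| ≤ K * a := h4.abs_le le_rfl p x l j
        refine (abs_add_le _ _).trans ?_
        rw [abs_mul, abs_mul]
        gcongr
      refine (Finset.sum_le_sum this).trans ?_
      simp
      linarith
    have t2 : |∑ l, S p x i l * xb p x l j| ≤ 4 * (a * X) := by
      refine (Finset.abs_sum_le_sum_abs _ _).trans ?_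
      have : ∀ l ∈ Finset.univ, |S p x i l * xb p x l j| ≤ a * X := by
        intro l _
        have e2 : |S p x i l| ≤ a := h5.abs_le le_rfl p x i l
        have e3 : |xb p x l j| ≤ X := h6.abs_le le_rfl p x l j
        rw [abs_mul]
        gcongr
      refine (Finset.sum_le_sum this).trans ?_
      simp
    have t3 := abs_sub (∑ l, ((P2 p x i l - P1 p x i l) * B2 p x l j
        + P1 p x i l * (B2 p x l j - B1 p x l j))) (∑ l, S p x i l * xb p x l j)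
    rw [hb]
    nlinarith
  have hb0 : 0 ≤ b := (abs_nonneg _).trans (hdiff 0 0)
  have key : ∀ i j i' j', |Cm p i j * Cm p i' j' - c0 p i j * c0 p i' j'| ≤ (2 * c + 1) * b := by
    intro i j i' j'
    have e : Cm p i j * Cm p i' j' - c0 p i j * c0 p i' j'
        = (Cm p i j - c0 p i j) * (Cm p i' j' - c0 p i' j') + (Cm p i j - c0 p i j) * c0 p i' j'
          + c0 p i j * (Cm p i' j' - c0 p i' j') := by ring
    have a1 := hdiff i j
    have a2 := hdiff i' j'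
    have a3 := hc0b p i j
    have a4 := hc0b p i' j'
    rw [e]
    calc _ ≤ |(Cm p i j - c0 p i j) * (Cm p i' j' - c0 p i' j')| + |(Cm p i j - c0 p i j) * c0 p i' j'|
          + |c0 p i j * (Cm p i' j' - c0 p i' j')| := abs_add_three _ _ _
      _ ≤ b * b + b * c + c * b := by
          rw [abs_mul, abs_mul, abs_mul]
          gcongr
      _ ≤ _ := by nlinarith
  have k1 := key 0 0 1 1
  have k2 := key 0 1 1 0
  have k3 : |(Cm p 0 0 * Cm p 1 1 - Cm p 0 1 * Cm p 1 0)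
      - (c0 p 0 0 * c0 p 1 1 - c0 p 0 1 * c0 p 1 0)| ≤ 2 * ((2 * c + 1) * b) := by
    have e : (Cm p 0 0 * Cm p 1 1 - Cm p 0 1 * Cm p 1 0)
      - (c0 p 0 0 * c0 p 1 1 - c0 p 0 1 * c0 p 1 0) = (Cm p 0 0 * Cm p 1 1 - c0 p 0 0 * c0 p 1 1)
      - (Cm p 0 1 * Cm p 1 0 - c0 p 0 1 * c0 p 1 0) := by ring
    rw [e]
    have := abs_sub (Cm p 0 0 * Cm p 1 1 - c0 p 0 0 * c0 p 1 1)
      (Cm p 0 1 * Cm p 1 0 - c0 p 0 1 * c0 p 1 0)
    linarith
  have k4 := hd p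
  have k5 := abs_sub_abs_le_abs_sub (c0 p 0 0 * c0 p 1 1 - c0 p 0 1 * c0 p 1 0)
    (Cm p 0 0 * Cm p 1 1 - Cm p 0 1 * Cm p 1 0)
  rw [abs_sub_comm (c0 p 0 0 * c0 p 1 1 - c0 p 0 1 * c0 p 1 0)
    (Cm p 0 0 * Cm p 1 1 - Cm p 0 1 * Cm p 1 0)] at k5
  have k6 : 2 * ((2 * c + 1) * b) ≤ 4 * (c + 1) * b := by nlinarith
  linarith


end piter

section pkam2


open Filter Topology

variable {P : Type*} [TopologicalSpace P] [CompactSpace P]

lemma geo_tail (a : ℝ) (N : ℕ) :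
    HasSum (fun n : ℕ => a * (1 / 2 : ℝ) ^ (n + N)) (2 * a * (1 / 2) ^ N) := by
  have h := hasSum_geometric_two.mul_left (a * (1 / 2 : ℝ) ^ N)
  have e : (fun n : ℕ => a * (1 / 2 : ℝ) ^ (n + N))
      = fun n : ℕ => a * (1 / 2 : ℝ) ^ N * (1 / 2 : ℝ) ^ n := by
    funext n; rw [pow_add]; ring
  have e2 : 2 * a * (1 / 2 : ℝ) ^ N = a * (1 / 2 : ℝ) ^ N * 2 := by ring
  rw [e, e2]
  exact h


end pkam2

end Run7.k800
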