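import Pool.Agent.Run7.k800.Tame
import Pool.Agent.Run7.k800.Step

set_option autoImplicit false
set_option linter.unusedSectionVars false

/-!
# Base file Ini
-/

namespace Run7.k800

section ptamev


open Filter Topology

variable {P : Type*} [TopologicalSpace P] [CompactSpace P]

/-- joint index type -/
abbrev JJ := Fin 6 ⊕ Fin 2

/-- signs of the reversor on the joint variable -/
def sgJ : JJ → ℝ := Sum.elim ![1, -1, 1, -1, -1, 1] (fun _ => 1)

lemma sgJ_sq (j : JJ) : sgJ j * sgJ j = 1 := by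
  rcases j with i | k
  · fin_cases i <;> simp [sgJ]
  · simp [sgJ]

lemma rz_eq (z : JJ → ℝ) : rz z = fun j => sgJ j * z j := by
  funext j
  rcases j with i | k
  · rfl
  · simp [rz, sgJ]

/-- the reversor as a linear equivalence -/
noncomputable def rzL : (JJ → ℝ) ≃L[ℝ] (JJ → ℝ) :=
  LinearEquiv.toContinuousLinearEquiv (LinearEquiv.ofInvolutive
    { toFun := fun z j => sgJ j * z j
      map_add' := fun x y => by funext j; simp [mul_add]
      map_smul' := fun c x => by funext j; simp; ring }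
    (fun z => by funext j; simp only [LinearMap.coe_mk, AddHom.coe_mk]; rw [← mul_assoc, sgJ_sq, one_mul]))

lemma rzL_apply (z : JJ → ℝ) : rzL z = fun j => sgJ j * z j := rfl

/-- the family of vector fields given by its components -/
noncomputable def mkF (Yf : Fin 6 → P → (JJ → ℝ) → ℝ) : Fld P where
  Y := fun p z => Matrix.of fun i _ => Yf i p z
  A := fun p z => Matrix.of fun i j => Dj (Yf i) (Sum.inl j) p z
  Bq := fun p z => Matrix.of fun i k => Dj (Yf i) (Sum.inr k) p z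

lemma near.nrz {r ρ : ℝ} {U0 : P → ℝ × ℝ → Matrix (Fin 6) Unit ℝ} {q0 : Fin 2 → C(P, ℝ)}
    {U : P → ℝ × ℝ → Matrix (Fin 6) Unit ℝ} {q : Fin 2 → C(P, ℝ)} (h : near r ρ U0 q0 U q)
    (hr : 0 ≤ r) : nrz r ρ (fun j p x => zz U0 q0 p x j) (fun j p x => zz U q p x j) := by
  intro j
  rcases j with i | k
  · exact h.1 i ()
  · have := (B.const (r := r) (q k - q0 k)).mono (M' := ρ) hr le_rfl (h.2 k)
    exact this

lemma zz_add (U d : P → ℝ × ℝ → Matrix (Fin 6) Unit ℝ) (q dq : Fin 2 → C(P, ℝ)) (p : P)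
    (x : ℝ × ℝ) : zz (fun p x => U p x + d p x) (q + dq) p x
      = fun j => zz U q p x j + zz d dq p x j := by
  funext j
  rcases j with i | k
  · rfl
  · rfl

lemma rev_D {φ : P → (JJ → ℝ) → ℝ} {c : ℝ} (h : ∀ p z, φ p (rz z) = c * φ p z) (p : P)
    (z : JJ → ℝ) (j : JJ) : Dj φ j p (rz z) = c * sgJ j * Dj φ j p z := by
  have h1 := rzL.comp_right_fderiv (f := φ p) (x := z)
  have e : (φ p ∘ rzL) = fun z => c * φ p z := by
    funext y
    simp only [Function.comp, rzL_apply, ← rz_eq]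
    exact h p y
  rw [e] at h1
  have h2 : fderiv ℝ (fun z => c * φ p z) z = c • fderiv ℝ (φ p) z := by
    by_cases hd : DifferentiableAt ℝ (φ p) z
    · exact (hd.hasFDerivAt.const_mul c).fderiv
    · by_cases hc : c = 0
      · subst hc; simp
      · have hd2 : ¬ DifferentiableAt ℝ (fun z => c * φ p z) z := by
          intro h3
          apply hd
          have h4 := h3.const_mul c⁻¹
          refine h4.congr_of_eventuallyEq (Eventually.of_forall fun y => ?_)
          simp only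
          rw [← mul_assoc, inv_mul_cancel₀ hc, one_mul]
        rw [fderiv_zero_of_not_differentiableAt hd2, fderiv_zero_of_not_differentiableAt hd, smul_zero]
  rw [h2] at h1
  have h3 := congrArg (fun L : (JJ → ℝ) →L[ℝ] ℝ => L (Pi.single j 1)) h1
  simp only [_root_.smul_apply, smul_eq_mul, ContinuousLinearMap.comp_apply] at h3
  have h4 : (rzL : (JJ → ℝ) →L[ℝ] (JJ → ℝ)) (Pi.single j 1) = sgJ j • Pi.single j 1 := by
    change rzL (Pi.single j 1) = _
    rw [rzL_apply]
    funext i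
    by_cases hij : i = j
    · subst hij; simp
    · simp [hij]
  rw [h4, map_smul, smul_eq_mul] at h3
  unfold Dj
  have h5 : rz z = rzL z := by rw [rz_eq, rzL_apply]
  rw [h5]
  have h6 := sgJ_sq j
  calc (fderiv ℝ (φ p) (rzL z)) (Pi.single j 1)
      = (sgJ j * sgJ j) * (fderiv ℝ (φ p) (rzL z)) (Pi.single j 1) := by rw [h6, one_mul]
    _ = sgJ j * (sgJ j * (fderiv ℝ (φ p) (rzL z)) (Pi.single j 1)) := by ring
    _ = sgJ j * (c * (fderiv ℝ (φ p) z) (Pi.single j 1)) := by rw [← h3]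
    _ = _ := by ring

lemma fderiv_expand {φ : (JJ → ℝ) → ℝ} {z : JJ → ℝ} (w : JJ → ℝ) :
    fderiv ℝ φ z w = ∑ j, fderiv ℝ φ z (Pi.single j 1) * w j := by
  have : w = ∑ j, w j • (Pi.single j 1 : JJ → ℝ) := by
    funext i
    simp [Finset.sum_apply, Pi.single_apply]
  conv_lhs => rw [this]
  rw [map_sum]
  refine Finset.sum_congr rfl (fun j _ => ?_)
  rw [map_smul, smul_eq_mul, mul_comm]

theorem tame_mk [Nonempty P] {ρ K : ℝ} {U0 : P → ℝ × ℝ → Matrix (Fin 6) Unit ℝ}
    {q0 : Fin 2 → C(P, ℝ)} {Yf : Fin 6 → P → (JJ → ℝ) → ℝ} (hK : 0 ≤ K)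
    (h : ∀ i, Tm ρ K (fun j p x => zz U0 q0 p x j) (Yf i))
    (hrev : ∀ i p z, Yf i p (rz z) = -sgJ (Sum.inl i) * Yf i p z) :
    (mkF Yf).Tame 4 ρ K U0 q0 where
  K0 := hK
  bA := fun r U q h1 h2 h3 i j => (h i).b1 r _ h1 h2 (h3.nrz (by linarith)) (Sum.inl j)
  bB := fun r U q h1 h2 h3 i j => (h i).b1 r _ h1 h2 (h3.nrz (by linarith)) (Sum.inr j)
  lA := by
    intro r U q d dq δ h1 h2 h3 h4 h5 h6 h7 i j
    have h4' := h4.nrz (by linarith)
    simp only [zz_add] at h4'
    have := (h i).l1 r (fun j p x => zz U q p x j) (fun j p x => zz d dq p x j) δ h1 h2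
      (h3.nrz (by linarith)) h4' (by
        intro j
        rcases j with i | k
        · exact h5 i ()
        · exact (B.const (dq k)).mono (by linarith) le_rfl (h6 k)) h7 (Sum.inl j)
    refine this.congr (fun p x => ?_)
    simp only [zz_add, mkF, Matrix.sub_apply, Matrix.of_apply]
  lB := by
    intro r U q d dq δ h1 h2 h3 h4 h5 h6 h7 i j
    have h4' := h4.nrz (by linarith)
    simp only [zz_add] at h4'
    have := (h i).l1 r (fun j p x => zz U q p x j) (fun j p x => zz d dq p x j) δ h1 h2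
      (h3.nrz (by linarith)) h4' (by
        intro j
        rcases j with i | k
        · exact h5 i ()
        · exact (B.const (dq k)).mono (by linarith) le_rfl (h6 k)) h7 (Sum.inr j)
    refine this.congr (fun p x => ?_)
    simp only [zz_add, mkF, Matrix.sub_apply, Matrix.of_apply]
  l2 := by
    intro r U q d dq δ h1 h2 h3 h4 h5 h6 h7 i j
    have h4' := h4.nrz (by linarith)
    simp only [zz_add] at h4'
    have := (h i).l2 r (fun j p x => zz U q p x j) (fun j p x => zz d dq p x j) δ h1 h2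
      (h3.nrz (by linarith)) h4' (by
        intro j
        rcases j with i | k
        · exact h5 i ()
        · exact (B.const (dq k)).mono (by linarith) le_rfl (h6 k)) h7
    refine this.congr (fun p x => ?_)
    simp only [zz_add, mkF, Matrix.sub_apply, Matrix.of_apply, Matrix.mul_apply,
      Fintype.sum_sum_type, cq]
    have e1 : ∀ l, zz d dq p x (Sum.inl l) = d p x l () := fun l => rfl
    have e2 : ∀ l, zz d dq p x (Sum.inr l) = dq l p := fun l => rfl
    have e3 : ∀ l, d p x l j = d p x l () := fun l => rfl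
    simp only [e1, e2, e3]
    ring
  chain := by
    intro r U q v h1 h2 h3 hU
    have hz : ∀ p x, HasFDerivAt (zz U q p) (ContinuousLinearMap.pi (fun j => Sum.elim
        (fun i => fderiv ℝ (fun x => U p x i ()) x) (fun _ => 0) j)) x := by
      intro p x
      rw [hasFDerivAt_pi]
      intro j
      rcases j with i | k
      · exact (hU i () p x).hasFDerivAt
      · exact hasFDerivAt_const _ _
    have hd : ∀ i p x, HasFDerivAt (fun x => Yf i p (zz U q p x))
        ((fderiv ℝ (Yf i p) (zz U q p x)).comp (ContinuousLinearMap.pi (fun j => Sum.elim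
        (fun i => fderiv ℝ (fun x => U p x i ()) x) (fun _ => 0) j))) x := by
      intro i p x
      have h5 := (h i).hd p x (zz U q p x) ((h3.nrz (by linarith)).pt h1.le p x)
      exact h5.hasFDerivAt.comp x (hz p x)
    refine ⟨fun i j p x => (hd i p x).differentiableAt, fun p x => ?_⟩
    ext i j
    rw [dM_apply, Matrix.mul_apply]
    unfold pd
    have h6 : fderiv ℝ (fun x => (mkF Yf).Y p (zz U q p x) i j) x = _ := (hd i p x).fderiv
    have h7 : fderiv ℝ ((fun p x => (mkF Yf).Y p (zz U q p x) i j) p) x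
        = fderiv ℝ (fun x => (mkF Yf).Y p (zz U q p x) i j) x := rfl
    rw [h7, h6, ContinuousLinearMap.comp_apply, fderiv_expand, Fintype.sum_sum_type]
    simp only [ContinuousLinearMap.coe_pi', Sum.elim_inl, Sum.elim_inr,
      _root_.zero_apply, mul_zero, Finset.sum_const_zero, add_zero]
    rfl
  revY := by
    intro p z
    ext i j
    simp only [mkF, Matrix.of_apply, Matrix.neg_apply]
    unfold Sg
    rw [Matrix.diagonal_mul, Matrix.of_apply, hrev]
    simp [sgJ]
  revA := by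
    intro p z
    ext i j
    simp only [mkF, Matrix.of_apply, Matrix.neg_apply]
    rw [rev_D (hrev i)]
    unfold Sg
    rw [Matrix.mul_diagonal, Matrix.diagonal_mul, Matrix.of_apply]
    simp only [sgJ, Sum.elim_inl]
    ring
  revB := by
    intro p z
    ext i j
    simp only [mkF, Matrix.of_apply, Matrix.neg_apply]
    rw [rev_D (hrev i)]
    unfold Sg
    rw [Matrix.diagonal_mul, Matrix.of_apply]
    simp only [sgJ, Sum.elim_inl, Sum.elim_inr]
    ring


end ptamev

section pvf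


open Filter Topology

variable {P : Type*} [TopologicalSpace P] [CompactSpace P]

variable {z0 : JJ → P → ℝ × ℝ → ℝ}

lemma norm_const_le (c : ℝ) : ‖ContinuousMap.const P c‖ ≤ |c| := by
  rw [ContinuousMap.norm_le _ (abs_nonneg _)]
  intro p; simp

/-- inverse of the first phase variable -/
noncomputable def fI (ε si u : ℝ) : ℝ := PS aI (ε * (si * u))

/-- linear part -/
def lin (z : JJ → ℝ) : Fin 6 → ℝ :=
  ![-z (Sum.inl 1), z (Sum.inl 0), z (Sum.inl 4), z (Sum.inl 5),
    2 * z (Sum.inl 5) + (2 * z (Sum.inr 1) + 1) * z (Sum.inl 2),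
    -2 * z (Sum.inl 4) - (z (Sum.inr 1) - 1) * z (Sum.inl 3)]

section tame

variable (ss si ti : C(P, ℝ))

end tame


end pvf

section pinit


open Filter Topology

variable {P : Type*} [TopologicalSpace P] [CompactSpace P]

/-- the frequency ratio -/
noncomputable def al : ℝ := Real.sqrt (5 / 2)

lemma al_sq : al ^ 2 = 5 / 2 := Real.sq_sqrt (by norm_num)

lemma al_pos : 0 < al := Real.sqrt_pos.mpr (by norm_num)

lemma al_hi : al < 8 / 5 := by
  have h1 := al_sq
  have h2 := al_pos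
  nlinarith

/-- the frequency vector -/
noncomputable def om : ℝ × ℝ := (1, al)

lemma int_ne {a b : ℤ} (h : 2 * a ^ 2 = 5 * b ^ 2) : a = 0 ∧ b = 0 := by
  have hb : b = 0 := by
    by_contra hb
    have h10 : Irrational (Real.sqrt ((10 : ℕ) : ℝ)) := by
      rw [irrational_sqrt_natCast_iff]
      rintro ⟨n, hn⟩
      have h1 : n ≤ 3 := by nlinarith
      interval_cases n <;> omega
    apply h10
    refine ⟨|2 * (a : ℚ) / b|, ?_⟩
    have hb' : (b : ℝ) ≠ 0 := by exact_mod_cast hb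
    have h3 : ((10 : ℕ) : ℝ) = (2 * (a : ℝ) / b) ^ 2 := by
      have h4 : (2 : ℝ) * a ^ 2 = 5 * b ^ 2 := by exact_mod_cast h
      field_simp
      push_cast
      nlinarith
    rw [h3, Real.sqrt_sq_eq_abs]
    push_cast
    rfl
  subst hb
  constructor
  · nlinarith
  · rfl

lemma om_dio : Dio 4 om := by
  refine ⟨by norm_num, ?_⟩
  intro k hk
  unfold dot om
  have h1 : (1 : ℝ) / 2 ≤ |((k.1 : ℝ) + al * k.2) * ((k.1 : ℝ) - al * k.2)| := by
    have e : ((k.1 : ℝ) + al * k.2) * ((k.1 : ℝ) - al * k.2)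
        = (2 * (k.1 : ℝ) ^ 2 - 5 * (k.2 : ℝ) ^ 2) / 2 := by
      have := al_sq
      linear_combination (-(k.2 : ℝ) ^ 2) * this
    rw [e, abs_div, abs_of_pos (by norm_num : (0 : ℝ) < 2)]
    have h2 : (2 * k.1 ^ 2 - 5 * k.2 ^ 2 : ℤ) ≠ 0 := by
      intro h
      have := int_ne (a := k.1) (b := k.2) (by linarith)
      exact hk (Prod.ext this.1 this.2)
    have h3 : (1 : ℤ) ≤ |2 * k.1 ^ 2 - 5 * k.2 ^ 2| := Int.one_le_abs h2
    have h4 : (1 : ℝ) ≤ |2 * (k.1 : ℝ) ^ 2 - 5 * (k.2 : ℝ) ^ 2| := by exact_mod_cast h3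
    linarith
  have h5 : |(k.1 : ℝ) - al * k.2| ≤ 2 * dg k := by
    have e1 : |(k.1 : ℝ)| = (k.1.natAbs : ℝ) := by rw [Nat.cast_natAbs, Int.cast_abs]
    have e2 : |(k.2 : ℝ)| = (k.2.natAbs : ℝ) := by rw [Nat.cast_natAbs, Int.cast_abs]
    have h6 := abs_sub (k.1 : ℝ) (al * k.2)
    rw [abs_mul, abs_of_pos al_pos, e1, e2] at h6
    have h7 := al_hi
    unfold dg
    push_cast
    have h8 : (0 : ℝ) ≤ (k.1.natAbs : ℝ) := by positivity
    have h9 : (0 : ℝ) ≤ (k.2.natAbs : ℝ) := by positivity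
    nlinarith
  rw [abs_mul] at h1
  have e3 : (k.1 : ℝ) * 1 + k.2 * al = (k.1 : ℝ) + al * k.2 := by ring
  rw [e3]
  have h10 := abs_nonneg ((k.1 : ℝ) + al * k.2)
  nlinarith

lemma ch_re (k : ℤ × ℤ) (x : ℝ × ℝ) : (ch k x).re = Real.cos (dot k x) := by
  unfold ch dot
  exact Complex.exp_ofReal_mul_I_re _

lemma ch_im (k : ℤ × ℤ) (x : ℝ × ℝ) : (ch k x).im = Real.sin (dot k x) := by
  unfold ch dot
  exact Complex.exp_ofReal_mul_I_im _

lemma B_cos {r : ℝ} (hr : 0 ≤ r) (k : ℤ × ℤ) :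
    B (P := P) r (r ^ dg k) (fun _ x => Real.cos (dot k x)) := by
  have h1 := re_part (BC.char (P := P) (r := r) (ContinuousMap.const P 1) k) hr
  have hn : ‖ContinuousMap.const P (1 : ℂ)‖ ≤ 1 := by
    rw [ContinuousMap.norm_le _ (by norm_num)]
    intro p; simp
  refine (h1.congr (fun p x => ?_)).mono hr le_rfl ?_
  · rw [ContinuousMap.const_apply, one_mul, ch_re]
  · have : 0 ≤ r ^ dg k := by positivity
    nlinarith

lemma B_sin {r : ℝ} (hr : 0 ≤ r) (k : ℤ × ℤ) :
    B (P := P) r (r ^ dg k) (fun _ x => Real.sin (dot k x)) := by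
  have h1 := re_part (BC.char (P := P) (r := r) (ContinuousMap.const P (-Complex.I)) k) hr
  have hn : ‖ContinuousMap.const P (-Complex.I)‖ ≤ 1 := by
    rw [ContinuousMap.norm_le _ (by norm_num)]
    intro p; simp
  refine (h1.congr (fun p x => ?_)).mono hr le_rfl ?_
  · rw [ContinuousMap.const_apply]
    simp [ch_im]
  · have : 0 ≤ r ^ dg k := by positivity
    nlinarith

lemma pd_cos (k : ℤ × ℤ) (v : ℝ × ℝ) (p : P) (x : ℝ × ℝ) :
    pd (P := P) v (fun _ x => Real.cos (dot k x)) p x = -(dot k v) * Real.sin (dot k x) := by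
  unfold pd
  have h1 : HasFDerivAt (fun x : ℝ × ℝ => dot k x) (lk k) x := by
    have : (fun x : ℝ × ℝ => dot k x) = lk k := by funext y; rw [lk_apply]
    rw [this]; exact (lk k).hasFDerivAt
  rw [h1.cos.fderiv]
  simp [lk_apply]
  ring

lemma pd_sin (k : ℤ × ℤ) (v : ℝ × ℝ) (p : P) (x : ℝ × ℝ) :
    pd (P := P) v (fun _ x => Real.sin (dot k x)) p x = (dot k v) * Real.cos (dot k x) := by
  unfold pd
  have h1 : HasFDerivAt (fun x : ℝ × ℝ => dot k x) (lk k) x := by
    have : (fun x : ℝ × ℝ => dot k x) = lk k := by funext y; rw [lk_apply]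
    rw [this]; exact (lk k).hasFDerivAt
  rw [h1.sin.fderiv]
  simp [lk_apply]
  ring

/-- first cosine -/
noncomputable def c1 (x : ℝ × ℝ) : ℝ := Real.cos (dot (1, 0) x)
/-- first sine -/
noncomputable def s1 (x : ℝ × ℝ) : ℝ := Real.sin (dot (1, 0) x)
/-- second cosine -/
noncomputable def c2 (x : ℝ × ℝ) : ℝ := Real.cos (dot (0, 1) x)
/-- second sine -/
noncomputable def s2 (x : ℝ × ℝ) : ℝ := Real.sin (dot (0, 1) x)

lemma c1_B : B (P := P) 4 4 (fun _ x => c1 x) := by
  have := B_cos (P := P) (r := 4) (by norm_num) (1, 0)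
  simp [dg] at this
  exact this

lemma s1_B : B (P := P) 4 4 (fun _ x => s1 x) := by
  have := B_sin (P := P) (r := 4) (by norm_num) (1, 0)
  simp [dg] at this
  exact this

lemma c2_B : B (P := P) 4 4 (fun _ x => c2 x) := by
  have := B_cos (P := P) (r := 4) (by norm_num) (0, 1)
  simp [dg] at this
  exact this

lemma s2_B : B (P := P) 4 4 (fun _ x => s2 x) := by
  have := B_sin (P := P) (r := 4) (by norm_num) (0, 1)
  simp [dg] at this
  exact this

lemma cs1 (x : ℝ × ℝ) : s1 x ^ 2 + c1 x ^ 2 = 1 := Real.sin_sq_add_cos_sq _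

lemma cs2 (x : ℝ × ℝ) : s2 x ^ 2 + c2 x ^ 2 = 1 := Real.sin_sq_add_cos_sq _

lemma c1_neg (x : ℝ × ℝ) : c1 (-x) = c1 x := by
  unfold c1 dot; simp

lemma s1_neg (x : ℝ × ℝ) : s1 (-x) = -s1 x := by
  unfold s1 dot; simp

lemma c2_neg (x : ℝ × ℝ) : c2 (-x) = c2 x := by
  unfold c2 dot; simp

lemma s2_neg (x : ℝ × ℝ) : s2 (-x) = -s2 x := by
  unfold s2 dot; simp

lemma pd_c1 (v : ℝ × ℝ) (p : P) (x : ℝ × ℝ) : pd (P := P) v (fun _ x => c1 x) p x = -v.1 * s1 x := by
  have := pd_cos (P := P) (1, 0) v p x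
  unfold c1 s1
  rw [this]
  congr 2
  simp [dot]

lemma pd_s1 (v : ℝ × ℝ) (p : P) (x : ℝ × ℝ) : pd (P := P) v (fun _ x => s1 x) p x = v.1 * c1 x := by
  have := pd_sin (P := P) (1, 0) v p x
  unfold c1 s1
  rw [this]
  congr 1
  simp [dot]

lemma pd_c2 (v : ℝ × ℝ) (p : P) (x : ℝ × ℝ) : pd (P := P) v (fun _ x => c2 x) p x = -v.2 * s2 x := by
  have := pd_cos (P := P) (0, 1) v p x
  unfold c2 s2
  rw [this]
  congr 2
  simp [dot]

lemma pd_s2 (v : ℝ × ℝ) (p : P) (x : ℝ × ℝ) : pd (P := P) v (fun _ x => s2 x) p x = v.2 * c2 x := by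
  have := pd_sin (P := P) (0, 1) v p x
  unfold c2 s2
  rw [this]
  congr 1
  simp [dot]


end pinit

section pinit2


open Filter Topology

variable {P : Type*} [TopologicalSpace P] [CompactSpace P]

/-- bounded at radius four, by some constant -/
def TB (f : P → ℝ × ℝ → ℝ) : Prop := ∃ M : ℝ, 0 ≤ M ∧ B 4 M f

lemma TB.c1 : TB (P := P) (fun _ x => c1 x) := ⟨4, by norm_num, c1_B⟩
lemma TB.s1 : TB (P := P) (fun _ x => s1 x) := ⟨4, by norm_num, s1_B⟩
lemma TB.c2 : TB (P := P) (fun _ x => c2 x) := ⟨4, by norm_num, c2_B⟩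
lemma TB.s2 : TB (P := P) (fun _ x => s2 x) := ⟨4, by norm_num, s2_B⟩


end pinit2

section pinit3


open Filter Topology

variable {P : Type*} [TopologicalSpace P] [CompactSpace P]

lemma Dj_coord (i j : JJ) (p : P) (z : JJ → ℝ) :
    Dj (P := P) (fun _ (z : JJ → ℝ) => z i) j p z = (if i = j then 1 else 0 : ℝ) := by
  unfold Dj
  have h1 : HasFDerivAt (fun z : JJ → ℝ => z i) (ContinuousLinearMap.proj (R := ℝ) i) z :=
    (ContinuousLinearMap.proj (R := ℝ) (φ := fun _ : JJ => ℝ) i).hasFDerivAt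
  rw [h1.fderiv]
  simp only [ContinuousLinearMap.proj_apply, Pi.single_apply]

lemma Dj_const (c : P → ℝ) (j : JJ) (p : P) (z : JJ → ℝ) :
    Dj (P := P) (fun p (_ : JJ → ℝ) => c p) j p z = 0 := by
  unfold Dj; simp

/-- derivative of the linear part -/
def DL (ka : ℝ) : Matrix (Fin 6) (Fin 6) ℝ :=
  !![0, -1, 0, 0, 0, 0; 1, 0, 0, 0, 0, 0; 0, 0, 0, 0, 1, 0; 0, 0, 0, 0, 0, 1;
    0, 0, 2 * ka + 1, 0, 0, 2; 0, 0, 0, -(ka - 1), -2, 0]

lemma lin_fderiv (i : Fin 6) (z : JJ → ℝ) :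
    HasFDerivAt (fun z => lin z i) (∑ j : Fin 6, DL (z (Sum.inr 1)) i j •
      ContinuousLinearMap.proj (R := ℝ) (φ := fun _ : JJ => ℝ) (Sum.inl j)
      + (![0, 0, 0, 0, 2 * z (Sum.inl 2), -z (Sum.inl 3)] : Fin 6 → ℝ) i •
        ContinuousLinearMap.proj (R := ℝ) (φ := fun _ : JJ => ℝ) (Sum.inr 1)) z := by
  have hp : ∀ j : JJ, HasFDerivAt (fun z : JJ → ℝ => z j)
      (ContinuousLinearMap.proj (R := ℝ) (φ := fun _ : JJ => ℝ) j) z := fun j =>
    (ContinuousLinearMap.proj (R := ℝ) (φ := fun _ : JJ => ℝ) j).hasFDerivAt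
  fin_cases i
  · refine ((hp (Sum.inl 1)).neg).congr_fderiv ?_
    ext v
    simp [Fin.sum_univ_six, DL]
  · refine (hp (Sum.inl 0)).congr_fderiv ?_
    ext v
    simp [Fin.sum_univ_six, DL]
  · refine (hp (Sum.inl 4)).congr_fderiv ?_
    ext v
    simp [Fin.sum_univ_six, DL]
  · refine (hp (Sum.inl 5)).congr_fderiv ?_
    ext v
    simp [Fin.sum_univ_six, DL]
  · refine (((hp (Sum.inl 5)).const_mul 2).add ((((hp (Sum.inr 1)).const_mul 2).add_const 1).mul
      (hp (Sum.inl 2)))).congr_fderiv ?_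
    ext v
    simp [Fin.sum_univ_six, DL]
    ring
  · refine (((hp (Sum.inl 4)).const_mul (-2)).sub (((hp (Sum.inr 1)).sub_const 1).mul
      (hp (Sum.inl 3)))).congr_fderiv ?_
    ext v
    simp [Fin.sum_univ_six, DL]
    ring

lemma Dj_lin (i j : Fin 6) (p : P) (z : JJ → ℝ) :
    Dj (P := P) (fun _ z => lin z i) (Sum.inl j) p z = DL (z (Sum.inr 1)) i j := by
  unfold Dj
  rw [(lin_fderiv i z).fderiv]
  simp [Pi.single_apply]

lemma Dj_lin0 (i : Fin 6) (p : P) (z : JJ → ℝ) :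
    Dj (P := P) (fun _ z => lin z i) (Sum.inr 0) p z = 0 := by
  unfold Dj
  rw [(lin_fderiv i z).fderiv]
  simp [Pi.single_apply]

lemma Dj_lin1 (i : Fin 6) (p : P) (z : JJ → ℝ) :
    Dj (P := P) (fun _ z => lin z i) (Sum.inr 1) p z
      = (![0, 0, 0, 0, 2 * z (Sum.inl 2), -z (Sum.inl 3)] : Fin 6 → ℝ) i := by
  unfold Dj
  rw [(lin_fderiv i z).fderiv]
  simp [Pi.single_apply]

variable (ss si ti : C(P, ℝ))


end pinit3

section ptorus


open Filter Topology

variable {P : Type*} [TopologicalSpace P] [CompactSpace P]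

lemma exists_mean {r M : ℝ} {f : P → ℝ × ℝ → ℝ} (hf : B r M f) (hr : 1 < r) :
    ∃ c : C(P, ℝ), ‖c‖ ≤ M ∧ Mn om f (fun p => c p) := by
  obtain ⟨c, g, h1, h2, h3, h4⟩ := solve (δ := 1) (H := 4) om_dio hr hf 0 one_pos (Or.inl rfl)
    le_rfl (by norm_num)
  have hr0 : 0 < r := by linarith
  obtain ⟨s, hs⟩ : ∃ s : ℝ, s = (1 + 1 / r) / 2 := ⟨_, rfl⟩
  have hx1 : 1 / r < 1 := by rw [div_lt_one hr0]; exact hr
  have hx0 : 0 < 1 / r := by positivity
  have hs0 : 0 < s := by rw [hs]; linarith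
  have hs1 : s < 1 := by rw [hs]; linarith
  have hrs : 1 < r * s := by
    have : r * s = (r + 1) / 2 := by rw [hs]; field_simp
    rw [this]; linarith
  refine ⟨-c, by rw [norm_neg]; exact h1, ?_⟩
  have h5 := Mn.of_solve (ω := om) (f := f) (c := c) hrs (h4 s hs0 hs1 hrs.le) (fun p x => by
    have := h3 p x
    simpa using this)
  exact h5

lemma Mn.const (ω : ℝ × ℝ) (c : P → ℝ) : Mn (P := P) ω (fun p _ => c p) c :=
  ⟨fun _ _ => 0, fun p => differentiable_const _, ⟨0, fun p x => by simp⟩, fun p x => by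
    have := pd_const (P := P) (fun _ => 0) ω p x
    rw [this, add_zero]⟩

lemma Mn.smul {ω : ℝ × ℝ} {f : P → ℝ × ℝ → ℝ} {c : P → ℝ} (h : Mn ω f c) (a : ℝ) :
    Mn ω (fun p x => a * f p x) (fun p => a * c p) := by
  obtain ⟨g, g1, ⟨C, g2⟩, g3⟩ := h
  refine ⟨fun p x => a * g p x, fun p => (g1 p).const_mul a, ⟨|a| * C, fun p x => ?_⟩, ?_⟩
  · rw [abs_mul]
    have := g2 p x
    gcongr
  · intro p x
    have e := pd_cmul (f := g) ((g1 p) x) (fun _ => a) ω
    change a * f p x = a * c p + pd ω (fun p x => a * g p x) p x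
    rw [e, g3]; ring


end ptorus

end Run7.k800
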