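import Pool.Agent.Run7.k800.Ini

set_option autoImplicit false
set_option linter.unusedSectionVars false

/-!
# Base file Oe
-/

namespace Run7.k800

section poe


open Filter Topology

section oe

variable {ι : Type*} {D : Set ι}

/-- uniformly bounded for small values of the parameter -/
def Bo (D : Set ι) (φ : ℝ → ι → ℝ) : Prop :=
  ∃ e K : ℝ, 0 < e ∧ e ≤ 1 ∧ 0 ≤ K ∧ ∀ ε, 0 ≤ ε → ε ≤ e → ∀ i ∈ D, |φ ε i| ≤ K

/-- uniformly of first order in the parameter -/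
def Oe (D : Set ι) (φ : ℝ → ι → ℝ) : Prop :=
  ∃ e K : ℝ, 0 < e ∧ e ≤ 1 ∧ 0 ≤ K ∧ ∀ ε, 0 ≤ ε → ε ≤ e → ∀ i ∈ D, |φ ε i| ≤ K * ε

lemma Bo.congr {φ ψ : ℝ → ι → ℝ} (h : Bo D φ) (e : ∀ ε i, φ ε i = ψ ε i) : Bo D ψ := by
  have : φ = ψ := by funext ε i; exact e ε i
  rwa [this] at h

lemma Oe.congr {φ ψ : ℝ → ι → ℝ} (h : Oe D φ) (e : ∀ ε i, φ ε i = ψ ε i) : Oe D ψ := by
  have : φ = ψ := by funext ε i; exact e ε i
  rwa [this] at h

lemma Bo.cst (c : ℝ) : Bo D (fun _ _ => c) :=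
  ⟨1, |c|, one_pos, le_rfl, abs_nonneg _, fun _ _ _ _ _ => le_rfl⟩

lemma Bo.fn {f : ι → ℝ} {K : ℝ} (hK : 0 ≤ K) (h : ∀ i ∈ D, |f i| ≤ K) : Bo D (fun _ i => f i) :=
  ⟨1, K, one_pos, le_rfl, hK, fun _ _ _ i hi => h i hi⟩

lemma Oe.eps : Oe D (fun ε _ => ε) :=
  ⟨1, 1, one_pos, le_rfl, zero_le_one, fun ε h _ _ _ => by rw [abs_of_nonneg h, one_mul]⟩

lemma Bo.add {φ ψ : ℝ → ι → ℝ} (h : Bo D φ) (g : Bo D ψ) : Bo D (fun ε i => φ ε i + ψ ε i) := by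
  obtain ⟨e1, K1, h1, h1', hK1, h2⟩ := h
  obtain ⟨e2, K2, g1, g1', hK2, g2⟩ := g
  refine ⟨min e1 e2, K1 + K2, lt_min h1 g1, (min_le_left _ _).trans h1', by positivity,
    fun ε h0 he i hi => ?_⟩
  exact (abs_add_le _ _).trans (add_le_add (h2 ε h0 (he.trans (min_le_left _ _)) i hi)
    (g2 ε h0 (he.trans (min_le_right _ _)) i hi))

lemma Bo.mul {φ ψ : ℝ → ι → ℝ} (h : Bo D φ) (g : Bo D ψ) : Bo D (fun ε i => φ ε i * ψ ε i) := by
  obtain ⟨e1, K1, h1, h1', hK1, h2⟩ := h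
  obtain ⟨e2, K2, g1, g1', hK2, g2⟩ := g
  refine ⟨min e1 e2, K1 * K2, lt_min h1 g1, (min_le_left _ _).trans h1', by positivity,
    fun ε h0 he i hi => ?_⟩
  rw [abs_mul]
  exact mul_le_mul (h2 ε h0 (he.trans (min_le_left _ _)) i hi)
    (g2 ε h0 (he.trans (min_le_right _ _)) i hi) (abs_nonneg _) hK1

lemma Oe.add {φ ψ : ℝ → ι → ℝ} (h : Oe D φ) (g : Oe D ψ) : Oe D (fun ε i => φ ε i + ψ ε i) := by
  obtain ⟨e1, K1, h1, h1', hK1, h2⟩ := h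
  obtain ⟨e2, K2, g1, g1', hK2, g2⟩ := g
  refine ⟨min e1 e2, K1 + K2, lt_min h1 g1, (min_le_left _ _).trans h1', by positivity,
    fun ε h0 he i hi => ?_⟩
  have a1 := h2 ε h0 (he.trans (min_le_left _ _)) i hi
  have a2 := g2 ε h0 (he.trans (min_le_right _ _)) i hi
  have := abs_add_le (φ ε i) (ψ ε i)
  linarith

lemma Oe.mul {φ ψ : ℝ → ι → ℝ} (h : Oe D φ) (g : Bo D ψ) : Oe D (fun ε i => φ ε i * ψ ε i) := by
  obtain ⟨e1, K1, h1, h1', hK1, h2⟩ := h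
  obtain ⟨e2, K2, g1, g1', hK2, g2⟩ := g
  refine ⟨min e1 e2, K1 * K2, lt_min h1 g1, (min_le_left _ _).trans h1', by positivity,
    fun ε h0 he i hi => ?_⟩
  have a1 := h2 ε h0 (he.trans (min_le_left _ _)) i hi
  have a2 := g2 ε h0 (he.trans (min_le_right _ _)) i hi
  rw [abs_mul]
  calc |φ ε i| * |ψ ε i| ≤ (K1 * ε) * K2 := mul_le_mul a1 a2 (abs_nonneg _) (by positivity)
    _ = _ := by ring

lemma Oe.mul' {φ ψ : ℝ → ι → ℝ} (h : Bo D φ) (g : Oe D ψ) : Oe D (fun ε i => φ ε i * ψ ε i) :=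
  (g.mul h).congr (fun ε i => mul_comm _ _)

lemma Oe.bo {φ : ℝ → ι → ℝ} (h : Oe D φ) : Bo D φ := by
  obtain ⟨e1, K1, h1, h1', hK1, h2⟩ := h
  refine ⟨e1, K1, h1, h1', hK1, fun ε h0 he i hi => (h2 ε h0 he i hi).trans ?_⟩
  nlinarith

lemma Bo.neg {φ : ℝ → ι → ℝ} (h : Bo D φ) : Bo D (fun ε i => -φ ε i) :=
  ((Bo.cst (-1)).mul h).congr (fun ε i => by ring)

lemma Oe.neg {φ : ℝ → ι → ℝ} (h : Oe D φ) : Oe D (fun ε i => -φ ε i) :=
  (Oe.mul' (Bo.cst (-1)) h).congr (fun ε i => by ring)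

lemma Bo.sub {φ ψ : ℝ → ι → ℝ} (h : Bo D φ) (g : Bo D ψ) : Bo D (fun ε i => φ ε i - ψ ε i) :=
  (h.add g.neg).congr (fun ε i => by ring)

lemma Oe.sub {φ ψ : ℝ → ι → ℝ} (h : Oe D φ) (g : Oe D ψ) : Oe D (fun ε i => φ ε i - ψ ε i) :=
  (h.add g.neg).congr (fun ε i => by ring)

lemma PS_abs {a : ℕ → ℝ} (ha : Adm a) {t : ℝ} (ht : |t| ≤ 1 / 4) : |PS a t| ≤ GG :=
  (PS_bound (P := Unit) (r := 1) le_rfl ha (f := fun _ _ => t)
    ((B.rconst t).mono zero_le_one le_rfl ht)).norm_le le_rfl () 0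

lemma PSd_abs {a : ℕ → ℝ} (ha : Adm a) {t : ℝ} (ht : |t| ≤ 1 / 4) : |PSd a t| ≤ GG :=
  (PSd_bound (P := Unit) (r := 1) le_rfl ha (f := fun _ _ => t)
    ((B.rconst t).mono zero_le_one le_rfl ht)).norm_le le_rfl () 0

lemma PS_lip0 {a : ℕ → ℝ} (ha : Adm a) {t : ℝ} (ht : |t| ≤ 1 / 4) :
    |PS a t - PS a 0| ≤ 2 * GG * |t| := by
  have h0 : |(0 : ℝ)| ≤ 1 / 4 := by norm_num
  have h1 := PS_rem (P := Unit) (r := 1) (δ := |t|) le_rfl ha (f := fun _ _ => 0)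
    (h := fun _ _ => t) ((B.rconst 0).mono zero_le_one le_rfl h0)
    ((B.rconst (0 + t)).mono zero_le_one le_rfl (by rw [zero_add]; exact ht)) (B.rconst t)
  have h2 := h1.norm_le le_rfl () 0
  simp only [zero_add] at h2
  have h3 := PSd_abs ha h0
  have hG := GG_nonneg
  have h4 : |PSd a 0 * t| ≤ GG * |t| := by
    rw [abs_mul]
    have := abs_nonneg t
    gcongr
  have h5 : |t| ^ 2 ≤ |t| := by
    have := abs_nonneg t
    nlinarith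
  have h6 : GG * |t| ^ 2 ≤ GG * |t| := by gcongr
  have h7 : PS a t - PS a 0 = (PS a t - PS a 0 - PSd a 0 * t) + PSd a 0 * t := by ring
  rw [h7]
  refine (abs_add_le _ _).trans ?_
  linarith

lemma Bo.ps {φ : ℝ → ι → ℝ} (h : Bo D φ) {a : ℕ → ℝ} (ha : Adm a) :
    Bo D (fun ε i => PS a (ε * φ ε i)) := by
  obtain ⟨e1, K1, h1, h1', hK1, h2⟩ := h
  refine ⟨min e1 (1 / (4 * (K1 + 1))), GG, by positivity, (min_le_left _ _).trans h1', GG_nonneg,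
    fun ε h0 he i hi => ?_⟩
  apply PS_abs ha
  rw [abs_mul, abs_of_nonneg h0]
  have a1 := h2 ε h0 (he.trans (min_le_left _ _)) i hi
  calc ε * |φ ε i| ≤ 1 / (4 * (K1 + 1)) * (K1 + 1) := by
        apply mul_le_mul (he.trans (min_le_right _ _)) (by linarith) (abs_nonneg _) (by positivity)
    _ = 1 / 4 := by field_simp

lemma Oe.ps {φ : ℝ → ι → ℝ} (h : Bo D φ) {a : ℕ → ℝ} (ha : Adm a) :
    Oe D (fun ε i => PS a (ε * φ ε i) - PS a 0) := by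
  obtain ⟨e1, K1, h1, h1', hK1, h2⟩ := h
  have hG := GG_nonneg
  refine ⟨min e1 (1 / (4 * (K1 + 1))), 2 * GG * K1, by positivity, (min_le_left _ _).trans h1',
    by positivity, fun ε h0 he i hi => ?_⟩
  have a1 := h2 ε h0 (he.trans (min_le_left _ _)) i hi
  have a2 : |ε * φ ε i| ≤ 1 / 4 := by
    rw [abs_mul, abs_of_nonneg h0]
    calc ε * |φ ε i| ≤ 1 / (4 * (K1 + 1)) * (K1 + 1) := by
          apply mul_le_mul (he.trans (min_le_right _ _)) (by linarith) (abs_nonneg _) (by positivity)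
      _ = 1 / 4 := by field_simp
  refine (PS_lip0 ha a2).trans ?_
  rw [abs_mul, abs_of_nonneg h0]
  calc 2 * GG * (ε * |φ ε i|) ≤ 2 * GG * (ε * K1) := by gcongr
    _ = _ := by ring

end oe

/-- the range of the variables -/
structure Vr where
  s : ℝ
  si : ℝ
  ti : ℝ
  z : JJ → ℝ

lemma PS_aI_zero : PS aI 0 = 1 := by
  have := PS_aI (t := 0) (by norm_num)
  simpa using this


end poe

end Run7.k800
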