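import Pool.Agent.Run7.k800.Wie

set_option autoImplicit false
set_option linter.unusedSectionVars false

/-!
# Base file Slv
-/

namespace Run7.k800

section pmat


open Filter Topology

variable {P : Type*} [TopologicalSpace P] [CompactSpace P]
variable {m n l : Type*}

/-- all entries are bounded in the Wiener norm -/
def MB (r M : ℝ) (A : P → ℝ × ℝ → Matrix m n ℝ) : Prop := ∀ i j, B r M (fun p x => A p x i j)

/-- entrywise differentiable -/
def Df (A : P → ℝ × ℝ → Matrix m n ℝ) : Prop := ∀ i j p, Differentiable ℝ (fun x => A p x i j)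

/-- entrywise directional derivative -/
noncomputable def dM (v : ℝ × ℝ) (A : P → ℝ × ℝ → Matrix m n ℝ) : P → ℝ × ℝ → Matrix m n ℝ :=
  fun p x => Matrix.of fun i j => pd v (fun p x => A p x i j) p x

lemma dM_apply (v : ℝ × ℝ) (A : P → ℝ × ℝ → Matrix m n ℝ) (p : P) (x : ℝ × ℝ) (i : m) (j : n) :
    dM v A p x i j = pd v (fun p x => A p x i j) p x := rfl

/-- scaled bound -/
def T (r Λ : ℝ) (a : ℕ) (e : ℝ) (A : P → ℝ × ℝ → Matrix m n ℝ) : Prop := MB r (Λ ^ a * e) A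

lemma T.df {r Λ e : ℝ} {a : ℕ} {A : P → ℝ × ℝ → Matrix m n ℝ} (h : T r Λ a e A) (hr : 1 < r) :
    Df A := fun i j p => (h i j).diff hr p

lemma T.congr {r Λ e : ℝ} {a : ℕ} {A A' : P → ℝ × ℝ → Matrix m n ℝ} (h : T r Λ a e A)
    (e' : ∀ p x, A p x = A' p x) : T r Λ a e A' := by
  have : A = A' := by funext p x; exact e' p x
  rwa [this] at h

lemma T.up {r r' Λ e e' : ℝ} {a a' : ℕ} {A : P → ℝ × ℝ → Matrix m n ℝ} (h : T r Λ a e A)
    (hΛ : 6 ≤ Λ) (hr' : 1 ≤ r') (hr : r' ≤ r) (he0 : 0 ≤ e) (ha : a ≤ a') (he : e ≤ e') :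
    T r' Λ a' e' A := by
  intro i j
  refine (h i j).mono (by linarith) hr ?_
  have h1 : Λ ^ a ≤ Λ ^ a' := pow_le_pow_right₀ (by linarith) ha
  have h2 : 0 ≤ Λ ^ a := by positivity
  gcongr

lemma T.mul [Fintype n] {r Λ e f : ℝ} {a b : ℕ} {A : P → ℝ × ℝ → Matrix m n ℝ}
    {C : P → ℝ × ℝ → Matrix n l ℝ}
    (hA : T r Λ a e A) (hC : T r Λ b f C) (hr : 1 ≤ r) (hn : (Fintype.card n : ℝ) ≤ Λ)
    (he : 0 ≤ e) (hf : 0 ≤ f) :
    T r Λ (a + b + 1) (e * f) (fun p x => A p x * C p x) := by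
  intro i j
  have h1 := B.sum (P := P) Finset.univ (fun k _ => (hA i k).mul (hC k j) hr) (by linarith)
  have h0 : (0 : ℝ) ≤ Fintype.card n := by positivity
  have hΛ : 0 ≤ Λ := h0.trans hn
  refine (h1.congr (fun p x => ?_)).mono (by linarith) le_rfl ?_
  · exact (Matrix.mul_apply).symm
  · rw [Finset.sum_const, Finset.card_univ, nsmul_eq_mul]
    calc (Fintype.card n : ℝ) * (Λ ^ a * e * (Λ ^ b * f)) ≤ Λ * (Λ ^ a * e * (Λ ^ b * f)) := by
          gcongr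
      _ = _ := by ring

lemma T.add {r Λ e : ℝ} {a b : ℕ} {A C : P → ℝ × ℝ → Matrix m n ℝ}
    (hA : T r Λ a e A) (hC : T r Λ b e C) (hr : 0 ≤ r) (hΛ : 6 ≤ Λ) (he : 0 ≤ e) :
    T r Λ (max a b + 1) e (fun p x => A p x + C p x) := by
  intro i j
  refine ((hA i j).add (hC i j) hr).mono hr le_rfl ?_
  have h1 : Λ ^ a ≤ Λ ^ (max a b) := pow_le_pow_right₀ (by linarith) (le_max_left _ _)
  have h2 : Λ ^ b ≤ Λ ^ (max a b) := pow_le_pow_right₀ (by linarith) (le_max_right _ _)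
  have h3 : 0 ≤ Λ ^ (max a b) := by positivity
  calc Λ ^ a * e + Λ ^ b * e ≤ Λ ^ (max a b) * e + Λ ^ (max a b) * e := by gcongr
    _ = 2 * (Λ ^ (max a b) * e) := by ring
    _ ≤ Λ * (Λ ^ (max a b) * e) := by gcongr; linarith
    _ = _ := by ring

lemma T.neg {r Λ e : ℝ} {a : ℕ} {A : P → ℝ × ℝ → Matrix m n ℝ}
    (hA : T r Λ a e A) (hr : 0 ≤ r) :
    T r Λ a e (fun p x => -A p x) := fun i j => (hA i j).neg hr

lemma T.sub {r Λ e : ℝ} {a b : ℕ} {A C : P → ℝ × ℝ → Matrix m n ℝ}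
    (hA : T r Λ a e A) (hC : T r Λ b e C) (hr : 0 ≤ r) (hΛ : 6 ≤ Λ) (he : 0 ≤ e) :
    T r Λ (max a b + 1) e (fun p x => A p x - C p x) :=
  (hA.add (hC.neg hr) hr hΛ he).congr (fun p x => (sub_eq_add_neg _ _).symm)

lemma T.dM {r Λ e s : ℝ} {a : ℕ} {A : P → ℝ × ℝ → Matrix m n ℝ}
    (hA : T r Λ a e A) (hs0 : 0 < s) (hs1 : s < 1) (hrs : 1 ≤ r * s) (v : ℝ × ℝ)
    (hv : ‖v‖ / (1 - s) ≤ Λ) (hΛ : 6 ≤ Λ) (he : 0 ≤ e) :
    T (r * s) Λ (a + 1) e (dM v A) := by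
  intro i j
  refine ((hA i j).pd hs0 hs1 hrs v).mono (by linarith) le_rfl ?_
  calc ‖v‖ / (1 - s) * (Λ ^ a * e) ≤ Λ * (Λ ^ a * e) := by gcongr
    _ = _ := by ring

lemma dM_add {A C : P → ℝ × ℝ → Matrix m n ℝ} (hA : Df A) (hC : Df C) (v : ℝ × ℝ) (p : P)
    (x : ℝ × ℝ) : dM v (fun p x => A p x + C p x) p x = dM v A p x + dM v C p x := by
  ext i j
  rw [dM_apply, Matrix.add_apply, dM_apply, dM_apply]
  exact pd_add (hA i j p x) (hC i j p x) v

lemma dM_sub {A C : P → ℝ × ℝ → Matrix m n ℝ} (hA : Df A) (hC : Df C) (v : ℝ × ℝ) (p : P)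
    (x : ℝ × ℝ) : dM v (fun p x => A p x - C p x) p x = dM v A p x - dM v C p x := by
  ext i j
  rw [dM_apply, Matrix.sub_apply, dM_apply, dM_apply]
  exact pd_sub (hA i j p x) (hC i j p x) v

lemma dM_mul [Fintype n] {A : P → ℝ × ℝ → Matrix m n ℝ} {C : P → ℝ × ℝ → Matrix n l ℝ}
    (hA : Df A) (hC : Df C) (v : ℝ × ℝ) (p : P) (x : ℝ × ℝ) :
    dM v (fun p x => A p x * C p x) p x = dM v A p x * C p x + A p x * dM v C p x := by
  ext i j
  rw [dM_apply, Matrix.add_apply, Matrix.mul_apply, Matrix.mul_apply, ← Finset.sum_add_distrib]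
  have e : (fun p x => (A p x * C p x) i j) = fun p x => ∑ k ∈ Finset.univ, A p x i k * C p x k j := by
    funext p x; exact Matrix.mul_apply
  rw [e, pd_sum (f := fun k p x => A p x i k * C p x k j) Finset.univ
    (fun k _ => (hA i k p x).mul (hC k j p x))]
  refine Finset.sum_congr rfl (fun k _ => ?_)
  exact pd_mul (f := fun p x => A p x i k) (g := fun p x => C p x k j) (hA i k p x) (hC k j p x) v

lemma dM_refl {A : P → ℝ × ℝ → Matrix m n ℝ} (hA : Df A) (v : ℝ × ℝ) (p : P) (x : ℝ × ℝ) :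
    dM v (fun p x => A p (-x)) p x = -dM v A p (-x) := by
  ext i j
  rw [Matrix.neg_apply, dM_apply, dM_apply]
  exact pd_refl (f := fun p x => A p x i j) (hA i j p (-x)) v

lemma Df.add {A C : P → ℝ × ℝ → Matrix m n ℝ} (hA : Df A) (hC : Df C) :
    Df (fun p x => A p x + C p x) := fun i j p => (hA i j p).add (hC i j p)

lemma Df.mul [Fintype n] {A : P → ℝ × ℝ → Matrix m n ℝ} {C : P → ℝ × ℝ → Matrix n l ℝ}
    (hA : Df A) (hC : Df C) : Df (fun p x => A p x * C p x) := by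
  intro i j p
  have e : (fun x => (A p x * C p x) i j) = fun x => ∑ k, A p x i k * C p x k j := by
    funext x; exact Matrix.mul_apply
  rw [e]
  exact Differentiable.fun_sum (fun k _ => (hA i k p).mul (hC k j p))

lemma dM_const (A : P → Matrix m n ℝ) (v : ℝ × ℝ) (p : P) (x : ℝ × ℝ) :
    dM v (fun p _ => A p) p x = 0 := by
  ext i j
  exact pd_const (fun p => A p i j) v p x

lemma Df.const (A : P → Matrix m n ℝ) : Df (fun p _ => A p) := fun _ _ _ =>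
  differentiable_const _

lemma T.const {r Λ : ℝ} (c : m → n → C(P, ℝ)) {a : ℕ} {e : ℝ}
    (h : ∀ i j, ‖c i j‖ ≤ Λ ^ a * e) (hr : 0 ≤ r) :
    T r Λ a e (fun p _ => Matrix.of fun i j => c i j p) := by
  intro i j
  exact (B.const (c i j)).mono hr le_rfl (h i j)


end pmat

section pslv


open Filter Topology

variable {P : Type*} [TopologicalSpace P] [CompactSpace P]
variable {m n l : Type*}

/-- index types with at most six elements -/
class Sm (n : Type*) [Fintype n] : Prop where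
  le : Fintype.card n ≤ 6

instance : Sm (Fin 2) := ⟨by simp⟩
instance : Sm (Fin 4) := ⟨by simp⟩
instance : Sm (Fin 6) := ⟨by simp⟩
instance : Sm Unit := ⟨by simp⟩

lemma Sm.le' (n : Type*) [Fintype n] [Sm n] {Λ : ℝ} (hΛ : 6 ≤ Λ) : (Fintype.card n : ℝ) ≤ Λ := by
  have := Sm.le (n := n)
  have h2 : (Fintype.card n : ℝ) ≤ 6 := by exact_mod_cast this
  linarith

lemma T.mulL [Fintype n] [Sm n] {r Λ e : ℝ} {a b c : ℕ} {A : P → ℝ × ℝ → Matrix m n ℝ}
    {C : P → ℝ × ℝ → Matrix n l ℝ} (hA : T r Λ a 1 A) (hC : T r Λ b e C) (hr : 1 ≤ r)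
    (hΛ : 6 ≤ Λ) (he : 0 ≤ e) (hc : a + b + 1 ≤ c) : T r Λ c e (fun p x => A p x * C p x) :=
  (hA.mul hC hr (Sm.le' n hΛ) zero_le_one he).up hΛ hr le_rfl (by simpa using he) hc
    (one_mul e).le

lemma T.mulR [Fintype n] [Sm n] {r Λ e : ℝ} {a b c : ℕ} {A : P → ℝ × ℝ → Matrix m n ℝ}
    {C : P → ℝ × ℝ → Matrix n l ℝ} (hA : T r Λ a e A) (hC : T r Λ b 1 C) (hr : 1 ≤ r)
    (hΛ : 6 ≤ Λ) (he : 0 ≤ e) (hc : a + b + 1 ≤ c) : T r Λ c e (fun p x => A p x * C p x) :=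
  (hA.mul hC hr (Sm.le' n hΛ) he zero_le_one).up hΛ hr le_rfl (by simpa using he) hc
    (mul_one e).le

lemma T.mulE [Fintype n] [Sm n] {r Λ e : ℝ} {a b c : ℕ} {A : P → ℝ × ℝ → Matrix m n ℝ}
    {C : P → ℝ × ℝ → Matrix n l ℝ} (hA : T r Λ a e A) (hC : T r Λ b e C) (hr : 1 ≤ r)
    (hΛ : 6 ≤ Λ) (he : 0 ≤ e) (hc : a + b + 1 ≤ c) : T r Λ c (e ^ 2) (fun p x => A p x * C p x) :=
  (hA.mul hC hr (Sm.le' n hΛ) he he).up hΛ hr le_rfl (by positivity) hc
    (by rw [sq])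

lemma T.add' {r Λ e : ℝ} {a b c : ℕ} {A C : P → ℝ × ℝ → Matrix m n ℝ}
    (hA : T r Λ a e A) (hC : T r Λ b e C) (hr : 1 ≤ r) (hΛ : 6 ≤ Λ) (he : 0 ≤ e)
    (hc : max a b + 1 ≤ c) : T r Λ c e (fun p x => A p x + C p x) :=
  (hA.add hC (by linarith) hΛ he).up hΛ hr le_rfl he hc le_rfl

lemma T.sub' {r Λ e : ℝ} {a b c : ℕ} {A C : P → ℝ × ℝ → Matrix m n ℝ}
    (hA : T r Λ a e A) (hC : T r Λ b e C) (hr : 1 ≤ r) (hΛ : 6 ≤ Λ) (he : 0 ≤ e)
    (hc : max a b + 1 ≤ c) : T r Λ c e (fun p x => A p x - C p x) :=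
  (hA.sub hC (by linarith) hΛ he).up hΛ hr le_rfl he hc le_rfl

lemma MB.mono {r r' M M' : ℝ} {A : P → ℝ × ℝ → Matrix m n ℝ} (h : MB r M A) (hr' : 0 ≤ r')
    (hr : r' ≤ r) (hM : M ≤ M') : MB r' M' A := fun i j => (h i j).mono hr' hr hM

lemma MB.congr {r M : ℝ} {A A' : P → ℝ × ℝ → Matrix m n ℝ} (h : MB r M A)
    (e' : ∀ p x, A p x = A' p x) : MB r M A' := by
  have : A = A' := by funext p x; exact e' p x
  rwa [this] at h

lemma MB.df {r M : ℝ} {A : P → ℝ × ℝ → Matrix m n ℝ} (h : MB r M A) (hr : 1 < r) :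
    Df A := fun i j p => (h i j).diff hr p

/-- the constant matrix function of a matrix of parameter functions -/
def cm (c : m → n → C(P, ℝ)) (p : P) : Matrix m n ℝ := Matrix.of fun i j => c i j p

/-- diagonal matrix of parameter functions -/
def dgm [DecidableEq m] (d : m → C(P, ℝ)) (p : P) : Matrix m m ℝ :=
  Matrix.diagonal fun i => d i p

lemma MB.mul [Fintype n] {r M N : ℝ} {A : P → ℝ × ℝ → Matrix m n ℝ}
    {C : P → ℝ × ℝ → Matrix n l ℝ} (hA : MB r M A) (hC : MB r N C) (hr : 1 ≤ r) :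
    MB r (Fintype.card n * (M * N)) (fun p x => A p x * C p x) := by
  intro i j
  have h1 := B.sum (P := P) Finset.univ (fun k _ => (hA i k).mul (hC k j) hr) (by linarith)
  refine (h1.congr (fun p x => ?_)).mono (by linarith) le_rfl ?_
  · exact (Matrix.mul_apply).symm
  · rw [Finset.sum_const, Finset.card_univ, nsmul_eq_mul]

lemma MB.refl {r M : ℝ} {A : P → ℝ × ℝ → Matrix m n ℝ} (hA : MB r M A) :
    MB r M (fun p x => A p (-x)) := fun i j => (hA i j).refl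

/-- constant real matrix with entries at most one -/
lemma MB.rconst {r : ℝ} (L : Matrix m n ℝ) (hL : ∀ i j, |L i j| ≤ 1) (hr : 0 ≤ r) :
    MB (P := P) r 1 (fun _ _ => L) := fun i j => (B.rconst (L i j)).mono hr le_rfl (hL i j)


end pslv

section plin


open Filter Topology

variable {P : Type*} [TopologicalSpace P] [CompactSpace P]

lemma Mn.le {ω : ℝ × ℝ} {f : P → ℝ × ℝ → ℝ} {c : P → ℝ} (h : Mn ω f c) {b : ℝ} (p : P)
    (hb : ∀ x, f p x ≤ b) : c p ≤ b := by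
  obtain ⟨g, g1, ⟨C, g2⟩, g3⟩ := h
  by_contra hne
  push Not at hne
  have hline : ∀ t : ℝ, HasDerivAt (fun t : ℝ => t • ω) ω t := fun t => by
    simpa using (hasDerivAt_id t).smul_const ω
  have hder : ∀ t : ℝ, HasDerivAt (fun t => g p (t • ω) + (c p - b) * t)
      (pd ω g p (t • ω) + (c p - b)) t := by
    intro t
    have a2 := ((g1 p) (t • ω)).hasFDerivAt.comp_hasDerivAt t (hline t)
    have a3 := a2.add ((hasDerivAt_id t).const_mul (c p - b))
    refine a3.congr_deriv ?_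
    unfold pd
    simp
  have hanti : Antitone (fun t => g p (t • ω) + (c p - b) * t) := by
    apply antitone_of_deriv_nonpos (fun t => (hder t).differentiableAt)
    intro t
    rw [(hder t).deriv]
    have e := g3 p (t • ω)
    have := hb (t • ω)
    linarith
  have hC : 0 ≤ C := (abs_nonneg _).trans (g2 p 0)
  have hpos : 0 < c p - b := by linarith
  have h5 := hanti (show (0 : ℝ) ≤ (2 * C + 1) / (c p - b) by positivity)
  simp only at h5
  have e : (c p - b) * ((2 * C + 1) / (c p - b)) = 2 * C + 1 := by field_simp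
  rw [e] at h5
  have b1 := abs_le.mp (g2 p (((2 * C + 1) / (c p - b)) • ω))
  have b3 := abs_le.mp (g2 p ((0:ℝ) • ω))
  linarith [b1.1, b3.2]

lemma Mn.neg {ω : ℝ × ℝ} {f : P → ℝ × ℝ → ℝ} {c : P → ℝ} (h : Mn ω f c) :
    Mn ω (fun p x => -f p x) (fun p => -c p) := by
  obtain ⟨g, g1, ⟨C, g2⟩, g3⟩ := h
  refine ⟨fun p x => -g p x, fun p => (g1 p).neg, ⟨C, fun p x => by rw [abs_neg]; exact g2 p x⟩, ?_⟩
  intro p x
  change -f p x = -c p + pd ω (fun p x => -g p x) p x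
  rw [pd_neg, g3]; ring

lemma Mn.abs_le {ω : ℝ × ℝ} {f : P → ℝ × ℝ → ℝ} {c : P → ℝ} (h : Mn ω f c) {b : ℝ} (p : P)
    (hb : ∀ x, |f p x| ≤ b) : |c p| ≤ b := by
  rw [_root_.abs_le]
  constructor
  · have := h.neg.le p (b := b) (fun x => by have := (_root_.abs_le.mp (hb x)).1; linarith)
    linarith
  · exact h.le p (fun x => (_root_.abs_le.mp (hb x)).2)

lemma Mn.congr {ω : ℝ × ℝ} {f f' : P → ℝ × ℝ → ℝ} {c c' : P → ℝ} (h : Mn ω f c)
    (e : ∀ p x, f p x = f' p x) (e' : ∀ p, c p = c' p) : Mn ω f' c' := by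
  have h1 : f = f' := by funext p x; exact e p x
  have h2 : c = c' := by funext p; exact e' p
  rwa [h1, h2] at h

lemma Mn.sub {ω : ℝ × ℝ} {f g : P → ℝ × ℝ → ℝ} {c d : P → ℝ} (hf : Mn ω f c) (hg : Mn ω g d) :
    Mn ω (fun p x => f p x - g p x) (fun p => c p - d p) :=
  (hf.add hg.neg).congr (fun p x => by ring) (fun p => by ring)

/-- the reversing symmetry in phase space -/
def Sg : Matrix (Fin 6) (Fin 6) ℝ := Matrix.diagonal ![1, -1, 1, -1, -1, 1]

/-- the exchange of the two hyperbolic directions -/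
def Pi4 : Matrix (Fin 4) (Fin 4) ℝ := !![1, 0, 0, 0; 0, 1, 0, 0; 0, 0, 0, 1; 0, 0, 1, 0]

/-- signs of the exponents -/
def sg : Fin 4 → ℝ := ![0, 0, -1, 1]

/-- the exponents -/
noncomputable def dd (lam : C(P, ℝ)) : Fin 4 → C(P, ℝ) := fun j => sg j • lam

lemma Sg_sq : Sg * Sg = 1 := by
  unfold Sg
  rw [Matrix.diagonal_mul_diagonal, ← Matrix.diagonal_one]
  congr 1
  funext i
  fin_cases i <;> simp

lemma Pi4_sq : Pi4 * Pi4 = 1 := by
  unfold Pi4
  ext i j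
  fin_cases i <;> fin_cases j <;> simp [Matrix.mul_apply, Fin.sum_univ_four]

lemma Pi4_le : ∀ i j, |Pi4 i j| ≤ 1 := by
  intro i j
  unfold Pi4
  fin_cases i <;> fin_cases j <;> simp

lemma one_le' {m : Type*} [DecidableEq m] : ∀ i j, |(1 : Matrix m m ℝ) i j| ≤ 1 := by
  intro i j
  rw [Matrix.one_apply]
  split_ifs <;> simp

lemma negone_le' {m : Type*} [DecidableEq m] : ∀ i j, |(-1 : Matrix m m ℝ) i j| ≤ 1 := by
  intro i j
  rw [Matrix.neg_apply, Matrix.one_apply]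
  split_ifs <;> simp

lemma Pi4_dd (lam : C(P, ℝ)) (p : P) : Pi4 * dgm (dd lam) p = -(dgm (dd lam) p * Pi4) := by
  unfold Pi4 dgm dd sg
  ext i j
  fin_cases i <;> fin_cases j <;> simp [Matrix.mul_apply, Fin.sum_univ_four]

lemma dd_Pi4 (lam : C(P, ℝ)) (p : P) : dgm (dd lam) p * Pi4 = -(Pi4 * dgm (dd lam) p) := by
  rw [Pi4_dd, neg_neg]

lemma dgm_zero {m : Type*} [DecidableEq m] (p : P) : dgm (fun _ : m => (0 : C(P, ℝ))) p = 0 := by
  unfold dgm
  ext i j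
  simp [Matrix.diagonal_apply]


end plin

section plin2


open Filter Topology

variable {P : Type*} [TopologicalSpace P] [CompactSpace P]

/-- column of parameter functions -/
def cq (q : Fin 2 → C(P, ℝ)) (p : P) : Matrix (Fin 2) Unit ℝ := Matrix.of fun k _ => q k p


end plin2

end Run7.k800
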