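import Pool.Agent.Run7.k800.Wie

set_option autoImplicit false
set_option linter.unusedSectionVars false

/-!
# Base file Tame
-/

namespace Run7.k800

section ppser


open Filter Topology

variable {P : Type*} [TopologicalSpace P] [CompactSpace P]

lemma B.pow {r q : ℝ} {f : P → ℝ × ℝ → ℝ} (hf : B r q f) (hr : 1 ≤ r) (n : ℕ) :
    B r (q ^ n) (fun p x => f p x ^ n) := by
  induction n with
  | zero => simpa using B.rconst (P := P) (r := r) 1
  | succ n ih =>
    rw [pow_succ]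
    exact (ih.mul hf hr).congr (fun p x => by rw [pow_succ])

lemma pow_diff {r δ : ℝ} {f h : P → ℝ × ℝ → ℝ} (hr : 1 ≤ r) (hf : B r (1 / 4) f)
    (hfh : B r (1 / 4) (fun p x => f p x + h p x)) (hh : B r δ h) (n : ℕ) :
    B r (4 * n * (1 / 4) ^ n * δ) (fun p x => (f p x + h p x) ^ n - f p x ^ n) := by
  have hδ := hh.nonneg (by linarith)
  induction n with
  | zero => simpa using B.zero (P := P) (r := r)
  | succ n ih =>
    have h1 := (hfh.mul ih hr).add (hh.mul (hf.pow hr n) hr) (by linarith)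
    refine (h1.congr (fun p x => ?_)).mono (by linarith) le_rfl ?_
    · ring
    · have h5 : (0 : ℝ) ≤ (1 / 4) ^ n * δ := by positivity
      push_cast
      have : 1 / 4 * (4 * (n : ℝ) * (1 / 4) ^ n * δ) + δ * (1 / 4) ^ n
          = 4 * (n + 1) * (1 / 4) ^ (n + 1) * δ := by rw [pow_succ]; ring
      rw [this]

lemma pow_rem {r δ : ℝ} {f h : P → ℝ × ℝ → ℝ} (hr : 1 ≤ r) (hf : B r (1 / 4) f)
    (hfh : B r (1 / 4) (fun p x => f p x + h p x)) (hh : B r δ h) (n : ℕ) :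
    B r (8 * n ^ 2 * (1 / 4) ^ n * δ ^ 2)
      (fun p x => (f p x + h p x) ^ n - f p x ^ n - n * f p x ^ (n - 1) * h p x) := by
  have hδ := hh.nonneg (by linarith)
  induction n with
  | zero => simpa using B.zero (P := P) (r := r)
  | succ n ih =>
    have h0 : B r (4 * n * (1 / 4) ^ n) (fun p x => (n : ℝ) * f p x ^ (n - 1)) := by
      rcases n with _ | n
      · simpa using B.zero (P := P) (r := r)
      · have := (hf.pow hr n).smul ((n + 1 : ℕ) : ℝ) (by linarith)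
        refine (this.congr (fun p x => by simp)).mono (by linarith) le_rfl ?_
        rw [abs_of_nonneg (by positivity), pow_succ]
        push_cast
        have h5 : (0 : ℝ) ≤ (1 / 4) ^ n := by positivity
        nlinarith
    have h1 := (hfh.mul ih hr).add ((h0.mul hh hr).mul hh hr) (by linarith)
    refine (h1.congr (fun p x => ?_)).mono (by linarith) le_rfl ?_
    · rcases n with _ | n
      · simp
      · simp only [Nat.add_sub_cancel]
        push_cast
        ring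
    · have h5 : (0 : ℝ) ≤ (1 / 4) ^ n * δ ^ 2 := by positivity
      push_cast
      have h6 : 1 / 4 * (8 * (n : ℝ) ^ 2 * (1 / 4) ^ n * δ ^ 2) + 4 * n * (1 / 4) ^ n * δ * δ
          = (2 * (n : ℝ) ^ 2 + 4 * n) * ((1 / 4) ^ n * δ ^ 2) := by ring
      have h7 : 8 * ((n : ℝ) + 1) ^ 2 * (1 / 4) ^ (n + 1) * δ ^ 2
          = (2 * ((n : ℝ) + 1) ^ 2) * ((1 / 4) ^ n * δ ^ 2) := by rw [pow_succ]; ring
      rw [h6, h7]
      gcongr
      nlinarith

/-- sum of a power series -/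
noncomputable def PS (a : ℕ → ℝ) (t : ℝ) : ℝ := ∑' n, a n * t ^ n

/-- sum of the derivative series -/
noncomputable def PSd (a : ℕ → ℝ) (t : ℝ) : ℝ := ∑' n, a n * (n * t ^ (n - 1))

/-- the common majorant -/
noncomputable def GG : ℝ := ∑' n : ℕ, 3 * ((n : ℝ) + 1) * (16 * ((n : ℝ) + 1) ^ 2 * (1 / 4) ^ n)

lemma GG_summable : Summable (fun n : ℕ => 3 * ((n : ℝ) + 1) * (16 * ((n : ℝ) + 1) ^ 2 * (1 / 4) ^ n)) := by
  have h1 : ∀ k : ℕ, Summable (fun n : ℕ => (n : ℝ) ^ k * (1 / 4 : ℝ) ^ n) := fun k =>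
    summable_pow_mul_geometric_of_norm_lt_one k (by norm_num)
  have h := (((h1 3).mul_left 48).add ((h1 2).mul_left 144)).add
    (((h1 1).mul_left 144).add ((h1 0).mul_left 48))
  refine h.congr (fun n => ?_)
  ring

lemma GG_nonneg : 0 ≤ GG := tsum_nonneg fun n => by positivity

/-- admissible coefficients -/
def Adm (a : ℕ → ℝ) : Prop := ∀ n, |a n| ≤ 3 * ((n : ℝ) + 1)

lemma Adm.summable_PS {a : ℕ → ℝ} (ha : Adm a) {t : ℝ} (ht : |t| ≤ 1 / 4) :
    Summable (fun n => a n * t ^ n) := by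
  refine Summable.of_norm_bounded GG_summable (fun n => ?_)
  rw [norm_mul, norm_pow, Real.norm_eq_abs, Real.norm_eq_abs]
  have h1 := ha n
  have h2 : |t| ^ n ≤ (1 / 4) ^ n := pow_le_pow_left₀ (abs_nonneg _) ht n
  have h3 : (0 : ℝ) ≤ (1 / 4) ^ n := by positivity
  have h4 : (1 / 4 : ℝ) ^ n ≤ 16 * ((n : ℝ) + 1) ^ 2 * (1 / 4) ^ n := by
    have : (1 : ℝ) ≤ 16 * ((n : ℝ) + 1) ^ 2 := by
      have : (0 : ℝ) ≤ n := by positivity
      nlinarith
    nlinarith
  calc |a n| * |t| ^ n ≤ 3 * ((n : ℝ) + 1) * (1 / 4) ^ n := by gcongr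
    _ ≤ _ := by gcongr

lemma pow_pred_le {t : ℝ} (ht : |t| ≤ 1 / 4) (n : ℕ) :
    |(n : ℝ) * t ^ (n - 1)| ≤ 4 * n * (1 / 4) ^ n := by
  rcases n with _ | n
  · simp
  · rw [abs_mul, abs_pow, abs_of_nonneg (by positivity : (0 : ℝ) ≤ ((n + 1 : ℕ) : ℝ))]
    have h2 : |t| ^ n ≤ (1 / 4) ^ n := pow_le_pow_left₀ (abs_nonneg _) ht n
    simp only [Nat.add_sub_cancel]
    calc ((n + 1 : ℕ) : ℝ) * |t| ^ n ≤ ((n + 1 : ℕ) : ℝ) * (1 / 4) ^ n := by gcongr
      _ = 4 * ((n + 1 : ℕ) : ℝ) * (1 / 4) ^ (n + 1) := by rw [pow_succ]; ring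

lemma Adm.summable_PSd {a : ℕ → ℝ} (ha : Adm a) {t : ℝ} (ht : |t| ≤ 1 / 4) :
    Summable (fun n => a n * (n * t ^ (n - 1))) := by
  refine Summable.of_norm_bounded GG_summable (fun n => ?_)
  rw [norm_mul, Real.norm_eq_abs, Real.norm_eq_abs]
  have h1 := ha n
  have h2 := pow_pred_le ht n
  have h3 : (0 : ℝ) ≤ (1 / 4) ^ n := by positivity
  have h4 : 4 * (n : ℝ) * (1 / 4 : ℝ) ^ n ≤ 16 * ((n : ℝ) + 1) ^ 2 * (1 / 4) ^ n := by
    have : 4 * (n : ℝ) ≤ 16 * ((n : ℝ) + 1) ^ 2 := by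
      have : (0 : ℝ) ≤ n := by positivity
      nlinarith
    nlinarith
  calc |a n| * |(n : ℝ) * t ^ (n - 1)| ≤ 3 * ((n : ℝ) + 1) * (4 * n * (1 / 4) ^ n) := by gcongr
    _ ≤ _ := by gcongr

lemma B_series {r C : ℝ} (hr : 1 ≤ r) (hC : 0 ≤ C) {a : ℕ → ℝ} (ha : Adm a)
    {g : ℕ → P → ℝ × ℝ → ℝ} (hg : ∀ n : ℕ, B r (16 * ((n : ℝ) + 1) ^ 2 * (1 / 4) ^ n * C) (g n)) :
    B r (GG * C) (fun p x => ∑' n, a n * g n p x) := by
  have h1 : ∀ n : ℕ, B r (3 * ((n : ℝ) + 1) * (16 * ((n : ℝ) + 1) ^ 2 * (1 / 4) ^ n) * C)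
      (fun p x => a n * g n p x) := by
    intro n
    refine ((hg n).smul (a n) (by linarith)).mono (by linarith) le_rfl ?_
    have h2 := ha n
    have h3 : 0 ≤ 16 * ((n : ℝ) + 1) ^ 2 * (1 / 4) ^ n * C := by positivity
    calc |a n| * (16 * ((n : ℝ) + 1) ^ 2 * (1 / 4) ^ n * C)
        ≤ 3 * ((n : ℝ) + 1) * (16 * ((n : ℝ) + 1) ^ 2 * (1 / 4) ^ n * C) := by gcongr
      _ = _ := by ring
  have h2 := B.tsum hr (GG_summable.mul_right C) h1
  rwa [tsum_mul_right] at h2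

lemma PS_bound {r : ℝ} (hr : 1 ≤ r) {a : ℕ → ℝ} (ha : Adm a) {f : P → ℝ × ℝ → ℝ}
    (hf : B r (1 / 4) f) : B r GG (fun p x => PS a (f p x)) := by
  have := B_series hr zero_le_one ha (g := fun n p x => f p x ^ n) (fun n => by
    refine (hf.pow hr n).mono (by linarith) le_rfl ?_
    have : (1 : ℝ) ≤ 16 * ((n : ℝ) + 1) ^ 2 := by
      have : (0 : ℝ) ≤ n := by positivity
      nlinarith
    have h3 : (0 : ℝ) ≤ (1 / 4) ^ n := by positivity
    nlinarith)
  rwa [mul_one] at this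

lemma dpow_B {r : ℝ} (hr : 1 ≤ r) {f : P → ℝ × ℝ → ℝ} (hf : B r (1 / 4) f) (n : ℕ) :
    B r (4 * n * (1 / 4) ^ n) (fun p x => (n : ℝ) * f p x ^ (n - 1)) := by
  rcases n with _ | n
  · simpa using B.zero (P := P) (r := r)
  · have := (hf.pow hr n).smul ((n + 1 : ℕ) : ℝ) (by linarith)
    refine (this.congr (fun p x => by simp)).mono (by linarith) le_rfl ?_
    rw [abs_of_nonneg (by positivity), pow_succ]
    push_cast
    have h5 : (0 : ℝ) ≤ (1 / 4) ^ n := by positivity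
    nlinarith

lemma PSd_bound {r : ℝ} (hr : 1 ≤ r) {a : ℕ → ℝ} (ha : Adm a) {f : P → ℝ × ℝ → ℝ}
    (hf : B r (1 / 4) f) : B r GG (fun p x => PSd a (f p x)) := by
  have := B_series hr zero_le_one ha (g := fun n p x => (n : ℝ) * f p x ^ (n - 1)) (fun n => by
    refine (dpow_B hr hf n).mono (by linarith) le_rfl ?_
    have : 4 * (n : ℝ) ≤ 16 * ((n : ℝ) + 1) ^ 2 := by
      have : (0 : ℝ) ≤ n := by positivity
      nlinarith
    have h3 : (0 : ℝ) ≤ (1 / 4) ^ n := by positivity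
    nlinarith)
  rwa [mul_one] at this

lemma PSd_diff {r δ : ℝ} (hr : 1 ≤ r) {a : ℕ → ℝ} (ha : Adm a) {f h : P → ℝ × ℝ → ℝ}
    (hf : B r (1 / 4) f) (hfh : B r (1 / 4) (fun p x => f p x + h p x)) (hh : B r δ h) :
    B r (GG * δ) (fun p x => PSd a (f p x + h p x) - PSd a (f p x)) := by
  have hδ := hh.nonneg (by linarith)
  have h1 := B_series hr hδ ha
    (g := fun n p x => (n : ℝ) * (f p x + h p x) ^ (n - 1) - (n : ℝ) * f p x ^ (n - 1)) (fun n => by
      rcases n with _ | n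
      · have := B.zero (P := P) (r := r)
        refine (this.congr (fun p x => by simp)).mono (by linarith) le_rfl (by positivity)
      · have := (pow_diff hr hf hfh hh n).smul ((n + 1 : ℕ) : ℝ) (by linarith)
        refine (this.congr (fun p x => by simp only [Nat.add_sub_cancel]; ring)).mono
          (by linarith) le_rfl ?_
        rw [abs_of_nonneg (by positivity)]
        push_cast
        have h5 : (0 : ℝ) ≤ (1 / 4) ^ n * δ := by positivity
        have h6 : (0 : ℝ) ≤ n := by positivity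
        have e1 : ((n : ℝ) + 1) * (4 * n * (1 / 4) ^ n * δ)
            = (4 * n * (n + 1)) * ((1 / 4) ^ n * δ) := by ring
        have e2 : 16 * ((n : ℝ) + 1 + 1) ^ 2 * (1 / 4) ^ (n + 1) * δ
            = (4 * (n + 2) ^ 2) * ((1 / 4) ^ n * δ) := by rw [pow_succ (1 / 4 : ℝ) n]; ring
        rw [e1, e2]
        exact mul_le_mul_of_nonneg_right (by nlinarith) h5)
  refine h1.congr (fun p x => ?_)
  have s1 := ha.summable_PSd (hfh.norm_le hr p x)
  have s2 := ha.summable_PSd (hf.norm_le hr p x)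
  unfold PSd
  rw [← s1.tsum_sub s2]
  congr 1
  funext n
  ring

lemma PS_rem {r δ : ℝ} (hr : 1 ≤ r) {a : ℕ → ℝ} (ha : Adm a) {f h : P → ℝ × ℝ → ℝ}
    (hf : B r (1 / 4) f) (hfh : B r (1 / 4) (fun p x => f p x + h p x)) (hh : B r δ h) :
    B r (GG * δ ^ 2) (fun p x => PS a (f p x + h p x) - PS a (f p x) - PSd a (f p x) * h p x) := by
  have hδ := hh.nonneg (by linarith)
  have h1 := B_series hr (sq_nonneg δ) ha
    (g := fun n p x => (f p x + h p x) ^ n - f p x ^ n - n * f p x ^ (n - 1) * h p x) (fun n => by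
      refine (pow_rem hr hf hfh hh n).mono (by linarith) le_rfl ?_
      have h5 : (0 : ℝ) ≤ (1 / 4) ^ n * δ ^ 2 := by positivity
      have h6 : (0 : ℝ) ≤ n := by positivity
      nlinarith [mul_nonneg h6 h5, mul_nonneg (mul_nonneg h6 h6) h5])
  refine h1.congr (fun p x => ?_)
  have s1 := ha.summable_PS (hfh.norm_le hr p x)
  have s2 := ha.summable_PS (hf.norm_le hr p x)
  have s3 := (ha.summable_PSd (hf.norm_le hr p x)).mul_right (h p x)
  unfold PS PSd
  rw [← s1.tsum_sub s2, ← tsum_mul_right, ← (s1.sub s2).tsum_sub s3]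
  congr 1
  funext n
  ring

/-- differentiability inside the disc -/
lemma PS_hasDerivAt {a : ℕ → ℝ} (ha : Adm a) {t : ℝ} (ht : |t| < 1 / 4) :
    HasDerivAt (PS a) (PSd a t) t := by
  rw [hasDerivAt_iff_isLittleO_nhds_zero]
  have key : ∀ h : ℝ, |t + h| ≤ 1 / 4 → |PS a (t + h) - PS a t - PSd a t * h| ≤ GG * h ^ 2 := by
    intro h hh
    have h1 := PS_rem (P := Unit) (r := 1) (δ := |h|) le_rfl ha (f := fun _ _ => t)
      (h := fun _ _ => h) ((B.rconst t).mono zero_le_one le_rfl ht.le)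
      ((B.rconst (t + h)).mono zero_le_one le_rfl hh) (B.rconst h)
    have := h1.norm_le le_rfl () 0
    rwa [sq_abs] at this
  have hev : ∀ᶠ h in 𝓝 (0 : ℝ), |t + h| ≤ 1 / 4 := by
    have hc : ContinuousAt (fun h : ℝ => |t + h|) 0 := by fun_prop
    have h2 : |t + 0| < 1 / 4 := by simpa using ht
    exact (hc.eventually_lt continuousAt_const h2).mono (fun h hh => hh.le)
  refine Asymptotics.IsBigO.trans_isLittleO (g := fun h : ℝ => h ^ 2) ?_ ?_
  · refine Asymptotics.IsBigO.of_bound GG ?_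
    filter_upwards [hev] with h hh
    have := key h hh
    simp only [Real.norm_eq_abs, smul_eq_mul, abs_pow, sq_abs]
    rw [mul_comm h]
    exact this
  · have := Asymptotics.isLittleO_pow_pow (𝕜 := ℝ) (m := 1) (n := 2) (by norm_num)
    simpa using this


end ppser

section pbin


open Filter Topology

/-- coefficients of the second remainder of `(1+t)^(-3/2)` -/
noncomputable def aT (n : ℕ) : ℝ := Ring.choose (-3 / 2 : ℝ) (n + 2)

/-- coefficients of `1/(1+t)` -/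
def aI (n : ℕ) : ℝ := (-1) ^ n

lemma choose_rec (r : ℝ) (n : ℕ) :
    ((n : ℝ) + 1) * Ring.choose r (n + 1) = Ring.choose r n * (r - n) := by
  have h1 := Ring.descPochhammer_eq_factorial_smul_choose r (n + 1)
  have h2 := Ring.descPochhammer_eq_factorial_smul_choose r n
  have h3 : (descPochhammer ℤ (n + 1)).smeval r = (descPochhammer ℤ n).smeval r * (r - n) := by
    simp [descPochhammer_succ_right, Polynomial.smeval_mul, Polynomial.smeval_natCast]
  rw [h3, h2, nsmul_eq_mul, nsmul_eq_mul, Nat.factorial_succ] at h1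
  push_cast at h1
  have hf : (n.factorial : ℝ) ≠ 0 := by positivity
  have h4 : (n.factorial : ℝ) * (Ring.choose r n * (r - n))
      = (n.factorial : ℝ) * (((n : ℝ) + 1) * Ring.choose r (n + 1)) := by linarith
  exact (mul_left_cancel₀ hf h4).symm

lemma choose_bound (n : ℕ) : |Ring.choose (-3 / 2 : ℝ) n| ≤ (n : ℝ) + 1 := by
  induction n with
  | zero => simp
  | succ n ih =>
    have h1 := choose_rec (-3 / 2) n
    have h2 : |((n : ℝ) + 1)| * |Ring.choose (-3 / 2 : ℝ) (n + 1)|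
        = |Ring.choose (-3 / 2 : ℝ) n| * |(-3 / 2 : ℝ) - n| := by
      rw [← abs_mul, ← abs_mul, h1]
    have hn : (0 : ℝ) ≤ n := by positivity
    rw [abs_of_nonneg (by positivity : (0 : ℝ) ≤ (n : ℝ) + 1), abs_of_nonpos (by linarith :
      (-3 / 2 : ℝ) - n ≤ 0)] at h2
    push_cast
    have h3 : ((n : ℝ) + 1) * |Ring.choose (-3 / 2 : ℝ) (n + 1)| ≤ ((n : ℝ) + 1) * ((n : ℝ) + 1 + 1) := by
      rw [h2]
      apply mul_le_mul ih (by linarith) (by linarith) (by linarith)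
    exact le_of_mul_le_mul_left h3 (by linarith)

lemma adm_aT : Adm aT := by
  intro n
  unfold aT
  refine (choose_bound (n + 2)).trans ?_
  push_cast
  have hn : (0 : ℝ) ≤ n := by positivity
  linarith

lemma adm_aI : Adm aI := by
  intro n
  unfold aI
  rw [abs_pow, abs_neg, abs_one, one_pow]
  have hn : (0 : ℝ) ≤ n := by positivity
  linarith

lemma PS_aT {t : ℝ} (ht : |t| ≤ 1 / 4) :
    (1 + t) ^ (-3 / 2 : ℝ) = 1 - 3 / 2 * t + t ^ 2 * PS aT t := by
  have h1 := Real.one_add_rpow_hasFPowerSeriesOnBall_zero (a := (-3 / 2 : ℝ))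
  have ht' : ‖t‖ < 1 := by rw [Real.norm_eq_abs]; linarith
  have h2 := h1.hasSum (y := t) (by
    rw [Metric.mem_eball, edist_zero_right]
    have : ‖t‖ₑ < ENNReal.ofReal 1 := by
      rw [← ofReal_norm_eq_enorm]
      exact (ENNReal.ofReal_lt_ofReal_iff one_pos).mpr ht'
    simpa using this)
  simp only [binomialSeries, FormalMultilinearSeries.ofScalars_apply_eq, zero_add, smul_eq_mul] at h2
  have h3 := h2.summable
  have h4 := h3.sum_add_tsum_nat_add 2
  rw [h2.tsum_eq] at h4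
  rw [← h4]
  have e0 : Ring.choose (-3 / 2 : ℝ) 1 = -3 / 2 := Ring.choose_one_right _
  have e1 : ∑ i ∈ Finset.range 2, Ring.choose (-3 / 2 : ℝ) i * t ^ i = 1 - 3 / 2 * t := by
    rw [Finset.sum_range_succ, Finset.sum_range_one, e0]
    simp
    ring
  have e2 : ∑' i : ℕ, Ring.choose (-3 / 2 : ℝ) (i + 2) * t ^ (i + 2) = t ^ 2 * PS aT t := by
    unfold PS aT
    rw [← tsum_mul_left]
    congr 1
    funext i
    ring
  rw [e1, e2]

lemma PS_aI {t : ℝ} (ht : |t| ≤ 1 / 4) : PS aI t * (1 + t) = 1 := by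
  unfold PS aI
  have h1 : ∑' n : ℕ, (-1 : ℝ) ^ n * t ^ n = ∑' n : ℕ, (-t) ^ n := by
    congr 1
    funext n
    rw [← mul_pow]; ring
  rw [h1, tsum_geometric_of_norm_lt_one (by rw [norm_neg, Real.norm_eq_abs]; linarith)]
  have h2 : 1 - -t ≠ 0 := by
    have := (abs_le.mp ht).1
    linarith
  have h3 : 1 - -t = 1 + t := by ring
  rw [h3] at h2 ⊢
  exact inv_mul_cancel₀ h2


end pbin

section ptame


open Filter Topology

variable {P : Type*} [TopologicalSpace P] [CompactSpace P]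
variable {J : Type*} [Fintype J] [DecidableEq J]

/-- coordinate functions near the base -/
def nrz (r ρ : ℝ) (z0 z : J → P → ℝ × ℝ → ℝ) : Prop :=
  ∀ j, B r ρ (fun p x => z j p x - z0 j p x)

/-- partial derivative in the phase variables -/
noncomputable def Dj (φ : P → (J → ℝ) → ℝ) (j : J) (p : P) (z : J → ℝ) : ℝ :=
  fderiv ℝ (φ p) z (Pi.single j 1)

/-- tame functions near the base -/
structure Tm (ρ K : ℝ) (z0 : J → P → ℝ × ℝ → ℝ) (φ : P → (J → ℝ) → ℝ) : Prop where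
  K0 : 0 ≤ K
  hd : ∀ p x (z : J → ℝ), (∀ j, |z j - z0 j p x| ≤ ρ) → DifferentiableAt ℝ (φ p) z
  b0 : ∀ r z, 1 ≤ r → r ≤ 4 → nrz r ρ z0 z → B r K (fun p x => φ p (fun j => z j p x))
  b1 : ∀ r z, 1 ≤ r → r ≤ 4 → nrz r ρ z0 z → ∀ j, B r K (fun p x => Dj φ j p (fun j => z j p x))
  l1 : ∀ (r : ℝ) (z m : J → P → ℝ × ℝ → ℝ) (δ : ℝ), 1 ≤ r → r ≤ 4 → nrz r ρ z0 z → nrz r ρ z0 (fun j p x => z j p x + m j p x) →
    (∀ j, B r δ (m j)) → δ ≤ 1 → ∀ j, B r (K * δ) (fun p x =>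
      Dj φ j p (fun j => z j p x + m j p x) - Dj φ j p (fun j => z j p x))
  l2 : ∀ (r : ℝ) (z m : J → P → ℝ × ℝ → ℝ) (δ : ℝ), 1 ≤ r → r ≤ 4 → nrz r ρ z0 z → nrz r ρ z0 (fun j p x => z j p x + m j p x) →
    (∀ j, B r δ (m j)) → δ ≤ 1 → B r (K * δ ^ 2) (fun p x =>
      φ p (fun j => z j p x + m j p x) - φ p (fun j => z j p x)
        - ∑ j, Dj φ j p (fun j => z j p x) * m j p x)

lemma nrz.pt {r ρ : ℝ} {z0 z : J → P → ℝ × ℝ → ℝ} (h : nrz r ρ z0 z) (hr : 1 ≤ r) (p : P)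
    (x : ℝ × ℝ) : ∀ j, |z j p x - z0 j p x| ≤ ρ := fun j => (h j).norm_le hr p x

lemma Tm.mono {ρ K K' : ℝ} {z0 : J → P → ℝ × ℝ → ℝ} {φ : P → (J → ℝ) → ℝ} (h : Tm ρ K z0 φ)
    (hK : K ≤ K') : Tm ρ K' z0 φ where
  K0 := h.K0.trans hK
  hd := h.hd
  b0 := fun r z h1 h2 h3 => (h.b0 r z h1 h2 h3).mono (by linarith) le_rfl hK
  b1 := fun r z h1 h2 h3 j => (h.b1 r z h1 h2 h3 j).mono (by linarith) le_rfl hK
  l1 := fun r z m δ h1 h2 h3 h4 h5 h6 j => by
    have hδ := (h5 j).nonneg (by linarith)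
    exact (h.l1 r z m δ h1 h2 h3 h4 h5 h6 j).mono (by linarith) le_rfl (by gcongr)
  l2 := fun r z m δ h1 h2 h3 h4 h5 h6 =>
    (h.l2 r z m δ h1 h2 h3 h4 h5 h6).mono (by linarith) le_rfl (by gcongr)

lemma Tm.const {ρ K : ℝ} {z0 : J → P → ℝ × ℝ → ℝ} (c : C(P, ℝ)) (hc : ‖c‖ ≤ K) :
    Tm ρ K z0 (fun p _ => c p) := by
  have hK : 0 ≤ K := (norm_nonneg _).trans hc
  have hD : ∀ j p z, Dj (fun p (_ : J → ℝ) => c p) j p z = 0 := by
    intro j p z
    unfold Dj
    simp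
  refine ⟨hK, fun p x z _ => differentiableAt_const _, ?_, ?_, ?_, ?_⟩
  · intro r z h1 h2 h3
    exact (B.const c).mono (by linarith) le_rfl hc
  · intro r z h1 h2 h3 j
    simp only [hD]
    exact B.zero.mono (by linarith) le_rfl hK
  · intro r z m δ h1 h2 h3 h4 h5 h6 j
    have hδ := (h5 j).nonneg (by linarith)
    simp only [hD, sub_zero]
    exact B.zero.mono (by linarith) le_rfl (by positivity)
  · intro r z m δ h1 h2 h3 h4 h5 h6
    simp only [hD, sub_self, zero_mul, Finset.sum_const_zero]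
    exact B.zero.mono (by linarith) le_rfl (by positivity)

lemma Tm.coord {ρ K : ℝ} {z0 : J → P → ℝ × ℝ → ℝ} (i : J) {k : ℝ} (hk : B 4 k (z0 i))
    (hK : k + ρ ≤ K) (hK1 : 1 ≤ K) : Tm ρ K z0 (fun _ z => z i) := by
  have hD : ∀ j p z, Dj (P := P) (fun _ (z : J → ℝ) => z i) j p z
      = (if i = j then 1 else 0 : ℝ) := by
    intro j p z
    unfold Dj
    have h1 : HasFDerivAt (fun z : J → ℝ => z i) (ContinuousLinearMap.proj (R := ℝ) i) z :=
      (ContinuousLinearMap.proj (R := ℝ) (φ := fun _ : J => ℝ) i).hasFDerivAt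
    rw [h1.fderiv]
    simp only [ContinuousLinearMap.proj_apply, Pi.single_apply]
  refine ⟨by linarith, fun p x z _ => differentiableAt_apply i z, ?_, ?_, ?_, ?_⟩
  · intro r z h1 h2 h3
    have h4 := (h3 i).add (hk.mono (r' := r) (by linarith) h2 le_rfl) (by linarith)
    refine (h4.congr (fun p x => by ring)).mono (by linarith) le_rfl (by linarith)
  · intro r z h1 h2 h3 j
    simp only [hD]
    split_ifs
    · refine (B.rconst 1).mono (by linarith) le_rfl (by simpa using hK1)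
    · exact B.zero.mono (by linarith) le_rfl (by linarith)
  · intro r z m δ h1 h2 h3 h4 h5 h6 j
    have hδ := (h5 j).nonneg (by linarith)
    simp only [hD, sub_self]
    exact B.zero.mono (by linarith) le_rfl (by positivity)
  · intro r z m δ h1 h2 h3 h4 h5 h6
    have e : ∀ p x, (z i p x + m i p x) - z i p x
        - ∑ j, Dj (P := P) (fun _ (z : J → ℝ) => z i) j p (fun j => z j p x) * m j p x = 0 := by
      intro p x
      simp only [hD, ite_mul, one_mul, zero_mul, Finset.sum_ite_eq, Finset.mem_univ, if_true]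
      ring
    refine (B.zero.congr (fun p x => (e p x).symm)).mono (by linarith) le_rfl (by positivity)

lemma B.sum_card {r M : ℝ} {f : J → P → ℝ × ℝ → ℝ} (h : ∀ j, B r M (f j)) (hr : 0 ≤ r) :
    B r (Fintype.card J * M) (fun p x => ∑ j, f j p x) := by
  refine (B.sum Finset.univ (fun j _ => h j) hr).mono hr le_rfl ?_
  rw [Finset.sum_const, Finset.card_univ, nsmul_eq_mul]

/-- Lipschitz bound -/
lemma Tm.lip {ρ K : ℝ} {z0 : J → P → ℝ × ℝ → ℝ} {φ : P → (J → ℝ) → ℝ} (h : Tm ρ K z0 φ)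
    {r δ : ℝ} {z m : J → P → ℝ × ℝ → ℝ} (h1 : 1 ≤ r) (h2 : r ≤ 4) (h3 : nrz r ρ z0 z)
    (h4 : nrz r ρ z0 (fun j p x => z j p x + m j p x)) (h5 : ∀ j, B r δ (m j)) (h6 : δ ≤ 1)
    (hδ : 0 ≤ δ) :
    B r ((Fintype.card J + 1) * K * δ) (fun p x =>
      φ p (fun j => z j p x + m j p x) - φ p (fun j => z j p x)) ∧
    B r (Fintype.card J * (K * δ)) (fun p x => ∑ j, Dj φ j p (fun j => z j p x) * m j p x) := by
  have a1 := h.l2 r z m δ h1 h2 h3 h4 h5 h6
  have a2 : B r (Fintype.card J * (K * δ))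
      (fun p x => ∑ j, Dj φ j p (fun j => z j p x) * m j p x) :=
    B.sum_card (fun j => (h.b1 r z h1 h2 h3 j).mul (h5 j) h1) (by linarith)
  refine ⟨((a1.add a2 (by linarith)).congr (fun p x => by ring)).mono (by linarith) le_rfl ?_, a2⟩
  have hK := h.K0
  have : K * δ ^ 2 ≤ K * δ := by
    have : δ ^ 2 ≤ δ := by nlinarith
    gcongr
  nlinarith

lemma Dj_add {φ ψ : P → (J → ℝ) → ℝ} {p : P} {z : J → ℝ} (h1 : DifferentiableAt ℝ (φ p) z)
    (h2 : DifferentiableAt ℝ (ψ p) z) (j : J) :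
    Dj (fun p z => φ p z + ψ p z) j p z = Dj φ j p z + Dj ψ j p z := by
  unfold Dj
  have := (h1.hasFDerivAt.add h2.hasFDerivAt).fderiv
  change fderiv ℝ (φ p + ψ p) z (Pi.single j 1) = _
  rw [this]; rfl

lemma Dj_mul {φ ψ : P → (J → ℝ) → ℝ} {p : P} {z : J → ℝ} (h1 : DifferentiableAt ℝ (φ p) z)
    (h2 : DifferentiableAt ℝ (ψ p) z) (j : J) :
    Dj (fun p z => φ p z * ψ p z) j p z = Dj φ j p z * ψ p z + φ p z * Dj ψ j p z := by
  unfold Dj
  have := (h1.hasFDerivAt.mul h2.hasFDerivAt).fderiv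
  change fderiv ℝ (φ p * ψ p) z (Pi.single j 1) = _
  rw [this]
  simp only [_root_.add_apply, _root_.smul_apply, smul_eq_mul]
  ring

lemma Tm.add {ρ K1 K2 : ℝ} {z0 : J → P → ℝ × ℝ → ℝ} {φ ψ : P → (J → ℝ) → ℝ} (h : Tm ρ K1 z0 φ)
    (g : Tm ρ K2 z0 ψ) : Tm ρ (K1 + K2) z0 (fun p z => φ p z + ψ p z) := by
  have hK := h.K0
  have gK := g.K0
  have hD : ∀ {r : ℝ} {z : J → P → ℝ × ℝ → ℝ}, nrz r ρ z0 z → 1 ≤ r → ∀ j p x,
      Dj (fun p z => φ p z + ψ p z) j p (fun j => z j p x)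
        = Dj φ j p (fun j => z j p x) + Dj ψ j p (fun j => z j p x) := by
    intro r z hz hr j p x
    exact Dj_add (h.hd p x _ (hz.pt hr p x)) (g.hd p x _ (hz.pt hr p x)) j
  refine ⟨by linarith, fun p x z hz => (h.hd p x z hz).add (g.hd p x z hz), ?_, ?_, ?_, ?_⟩
  · intro r z h1 h2 h3
    exact (h.b0 r z h1 h2 h3).add (g.b0 r z h1 h2 h3) (by linarith)
  · intro r z h1 h2 h3 j
    exact ((h.b1 r z h1 h2 h3 j).add (g.b1 r z h1 h2 h3 j) (by linarith)).congr
      (fun p x => (hD h3 h1 j p x).symm)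
  · intro r z m δ h1 h2 h3 h4 h5 h6 j
    have := (h.l1 r z m δ h1 h2 h3 h4 h5 h6 j).add (g.l1 r z m δ h1 h2 h3 h4 h5 h6 j) (by linarith)
    refine (this.congr (fun p x => ?_)).mono (by linarith) le_rfl (by rw [add_mul])
    rw [hD h3 h1 j p x, hD h4 h1 j p x]; ring
  · intro r z m δ h1 h2 h3 h4 h5 h6
    have := (h.l2 r z m δ h1 h2 h3 h4 h5 h6).add (g.l2 r z m δ h1 h2 h3 h4 h5 h6) (by linarith)
    refine (this.congr (fun p x => ?_)).mono (by linarith) le_rfl (by rw [add_mul])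
    have : ∑ j, Dj (fun p z => φ p z + ψ p z) j p (fun j => z j p x) * m j p x
        = ∑ j, Dj φ j p (fun j => z j p x) * m j p x + ∑ j, Dj ψ j p (fun j => z j p x) * m j p x := by
      rw [← Finset.sum_add_distrib]
      refine Finset.sum_congr rfl (fun j _ => ?_)
      rw [hD h3 h1 j p x]; ring
    rw [this]; ring

/-- the constant in the product rule -/
noncomputable def cJ (J : Type*) [Fintype J] : ℝ := 6 * ((Fintype.card J : ℝ) + 1) ^ 2

lemma cJ_pos : 6 ≤ cJ J := by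
  unfold cJ
  have : (0 : ℝ) ≤ Fintype.card J := by positivity
  nlinarith

lemma Tm.mul {ρ K1 K2 : ℝ} {z0 : J → P → ℝ × ℝ → ℝ} {φ ψ : P → (J → ℝ) → ℝ} [Nonempty J]
    (h : Tm ρ K1 z0 φ) (g : Tm ρ K2 z0 ψ) :
    Tm ρ (cJ J * (K1 * K2)) z0 (fun p z => φ p z * ψ p z) := by
  have hK := h.K0
  have gK := g.K0
  have hn : (0 : ℝ) ≤ Fintype.card J := by positivity
  have hKK : 0 ≤ K1 * K2 := by positivity
  have hc := cJ_pos (J := J)
  have hD : ∀ {r : ℝ} {z : J → P → ℝ × ℝ → ℝ}, nrz r ρ z0 z → 1 ≤ r → ∀ j p x,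
      Dj (fun p z => φ p z * ψ p z) j p (fun j => z j p x)
        = Dj φ j p (fun j => z j p x) * ψ p (fun j => z j p x)
          + φ p (fun j => z j p x) * Dj ψ j p (fun j => z j p x) := by
    intro r z hz hr j p x
    exact Dj_mul (h.hd p x _ (hz.pt hr p x)) (g.hd p x _ (hz.pt hr p x)) j
  refine ⟨by positivity, fun p x z hz => (h.hd p x z hz).mul (g.hd p x z hz), ?_, ?_, ?_, ?_⟩
  · intro r z h1 h2 h3
    exact ((h.b0 r z h1 h2 h3).mul (g.b0 r z h1 h2 h3) h1).mono (by linarith) le_rfl (by nlinarith)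
  · intro r z h1 h2 h3 j
    have := ((h.b1 r z h1 h2 h3 j).mul (g.b0 r z h1 h2 h3) h1).add
      ((h.b0 r z h1 h2 h3).mul (g.b1 r z h1 h2 h3 j) h1) (by linarith)
    exact (this.congr (fun p x => (hD h3 h1 j p x).symm)).mono (by linarith) le_rfl (by nlinarith)
  · intro r z m δ h1 h2 h3 h4 h5 h6 j
    have hδ := (h5 j).nonneg (by linarith)
    obtain ⟨lh, _⟩ := h.lip h1 h2 h3 h4 h5 h6 hδ
    obtain ⟨lg, _⟩ := g.lip h1 h2 h3 h4 h5 h6 hδ
    have e1 := (h.l1 r z m δ h1 h2 h3 h4 h5 h6 j).mul (g.b0 r _ h1 h2 h4) h1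
    have e2 := (h.b1 r z h1 h2 h3 j).mul lg h1
    have e3 := lh.mul (g.b1 r _ h1 h2 h4 j) h1
    have e4 := (h.b0 r z h1 h2 h3).mul (g.l1 r z m δ h1 h2 h3 h4 h5 h6 j) h1
    have e5 := ((e1.add e2 (by linarith)).add (e3.add e4 (by linarith)) (by linarith))
    refine (e5.congr (fun p x => ?_)).mono (by linarith) le_rfl ?_
    · rw [hD h3 h1 j p x, hD h4 h1 j p x]; ring
    · have hKδ : 0 ≤ K1 * K2 * δ := by positivity
      have e6 : K1 * δ * K2 + K1 * ((Fintype.card J + 1) * K2 * δ)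
          + ((Fintype.card J + 1) * K1 * δ * K2 + K1 * (K2 * δ))
          = (2 + 2 * (Fintype.card J + 1)) * (K1 * K2 * δ) := by ring
      rw [e6]
      have e7 : (2 + 2 * ((Fintype.card J : ℝ) + 1)) ≤ cJ J := by unfold cJ; nlinarith
      calc _ ≤ cJ J * (K1 * K2 * δ) := by gcongr
        _ = _ := by ring
  · intro r z m δ h1 h2 h3 h4 h5 h6
    obtain ⟨j0⟩ := (inferInstance : Nonempty J)
    have hδ := (h5 j0).nonneg (by linarith)
    obtain ⟨lh, dh⟩ := h.lip h1 h2 h3 h4 h5 h6 hδ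
    obtain ⟨lg, dg⟩ := g.lip h1 h2 h3 h4 h5 h6 hδ
    have e1 := (h.l2 r z m δ h1 h2 h3 h4 h5 h6).mul (g.b0 r _ h1 h2 h4) h1
    have e2 := dh.mul lg h1
    have e3 := (h.b0 r z h1 h2 h3).mul (g.l2 r z m δ h1 h2 h3 h4 h5 h6) h1
    have e5 := ((e1.add e2 (by linarith)).add e3 (by linarith))
    refine (e5.congr (fun p x => ?_)).mono (by linarith) le_rfl ?_
    · have : ∑ j, Dj (fun p z => φ p z * ψ p z) j p (fun j => z j p x) * m j p x
          = (∑ j, Dj φ j p (fun j => z j p x) * m j p x) * ψ p (fun j => z j p x)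
            + φ p (fun j => z j p x) * ∑ j, Dj ψ j p (fun j => z j p x) * m j p x := by
        rw [Finset.sum_mul, Finset.mul_sum, ← Finset.sum_add_distrib]
        refine Finset.sum_congr rfl (fun j _ => ?_)
        rw [hD h3 h1 j p x]; ring
      rw [this]; ring
    · have hKδ : 0 ≤ K1 * K2 * δ ^ 2 := by positivity
      have e6 : K1 * δ ^ 2 * K2 + Fintype.card J * (K1 * δ) * ((Fintype.card J + 1) * K2 * δ)
          + K1 * (K2 * δ ^ 2)
          = (2 + Fintype.card J * (Fintype.card J + 1)) * (K1 * K2 * δ ^ 2) := by ring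
      rw [e6]
      have e7 : (2 + (Fintype.card J : ℝ) * ((Fintype.card J : ℝ) + 1)) ≤ cJ J := by
        unfold cJ; nlinarith
      calc _ ≤ cJ J * (K1 * K2 * δ ^ 2) := by gcongr
        _ = _ := by ring

/-- a tame function with small bound is pointwise small near the base -/
lemma Tm.pt {ρ K q : ℝ} {z0 : J → P → ℝ × ℝ → ℝ} {φ : P → (J → ℝ) → ℝ} [Nonempty P]
    (h : Tm ρ K z0 φ)
    (hq : ∀ r z, 1 ≤ r → r ≤ 4 → nrz r ρ z0 z → B r q (fun p x => φ p (fun j => z j p x)))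
    {p : P} {x : ℝ × ℝ} {z : J → ℝ} (hz : ∀ j, |z j - z0 j p x| ≤ ρ) : |φ p z| ≤ q := by
  have h1 : nrz 1 ρ z0 (fun j p' x' => z0 j p' x' + (z j - z0 j p x)) := by
    intro j
    refine ((B.rconst (P := P) (r := 1) (z j - z0 j p x)).congr (fun p' x' => ?_)).mono zero_le_one
      le_rfl (hz j)
    ring
  have h2 := (hq 1 _ le_rfl (by norm_num) h1).norm_le le_rfl p x
  have e : (fun j => z0 j p x + (z j - z0 j p x)) = z := by funext j; ring
  rw [e] at h2
  exact h2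

lemma Dj_PS {a : ℕ → ℝ} (ha : Adm a) {φ : P → (J → ℝ) → ℝ} {p : P} {z : J → ℝ}
    (h1 : DifferentiableAt ℝ (φ p) z) (ht : |φ p z| < 1 / 4) (j : J) :
    Dj (fun p z => PS a (φ p z)) j p z = PSd a (φ p z) * Dj φ j p z := by
  unfold Dj
  have h2 := (PS_hasDerivAt ha ht).comp_hasFDerivAt z h1.hasFDerivAt
  have h3 : fderiv ℝ (fun z => PS a (φ p z)) z = PSd a (φ p z) • fderiv ℝ (φ p) z := h2.fderiv
  rw [h3]
  simp only [_root_.smul_apply, smul_eq_mul]

/-- composition with a power series -/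
lemma Tm.ps {ρ K : ℝ} {z0 : J → P → ℝ × ℝ → ℝ} {φ : P → (J → ℝ) → ℝ} [Nonempty P] [Nonempty J]
    (h : Tm ρ K z0 φ)
    (hq : ∀ r z, 1 ≤ r → r ≤ 4 → nrz r ρ z0 z → B r (1 / 8) (fun p x => φ p (fun j => z j p x)))
    {a : ℕ → ℝ} (ha : Adm a) :
    Tm ρ (GG * ((Fintype.card J + 1) * K + 1) ^ 2 + GG * K + GG) z0 (fun p z => PS a (φ p z)) := by
  have hK := h.K0
  have hG := GG_nonneg
  have hn : (0 : ℝ) ≤ Fintype.card J := by positivity
  have hq' : ∀ r z, 1 ≤ r → r ≤ 4 → nrz r ρ z0 z → B r (1 / 4) (fun p x => φ p (fun j => z j p x)) :=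
    fun r z h1 h2 h3 => (hq r z h1 h2 h3).mono (by linarith) le_rfl (by norm_num)
  have hD : ∀ {r : ℝ} {z : J → P → ℝ × ℝ → ℝ}, nrz r ρ z0 z → 1 ≤ r → ∀ j p x,
      Dj (fun p z => PS a (φ p z)) j p (fun j => z j p x)
        = PSd a (φ p (fun j => z j p x)) * Dj φ j p (fun j => z j p x) := by
    intro r z hz hr j p x
    refine Dj_PS ha (h.hd p x _ (hz.pt hr p x)) ?_ j
    have := h.pt hq (hz.pt hr p x)
    linarith
  have hX : 0 ≤ GG * ((Fintype.card J + 1) * K + 1) ^ 2 := by positivity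
  have hX2 : 0 ≤ GG * K := by positivity
  refine ⟨by positivity, ?_, ?_, ?_, ?_, ?_⟩
  · intro p x z hz
    have h1 := h.pt hq hz
    have h2 := (PS_hasDerivAt ha (t := φ p z) (by linarith)).differentiableAt
    exact h2.comp z (h.hd p x z hz)
  · intro r z h1 h2 h3
    exact (PS_bound h1 ha (hq' r z h1 h2 h3)).mono (by linarith) le_rfl (by linarith)
  · intro r z h1 h2 h3 j
    have := (PSd_bound h1 ha (hq' r z h1 h2 h3)).mul (h.b1 r z h1 h2 h3 j) h1
    exact (this.congr (fun p x => (hD h3 h1 j p x).symm)).mono (by linarith) le_rfl (by linarith)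
  · intro r z m δ h1 h2 h3 h4 h5 h6 j
    have hδ := (h5 j).nonneg (by linarith)
    obtain ⟨lh, _⟩ := h.lip h1 h2 h3 h4 h5 h6 hδ
    have f1 := hq' r z h1 h2 h3
    have f2 := hq' r _ h1 h2 h4
    have e1 := (PSd_diff (h := fun p x => φ p (fun j => z j p x + m j p x) - φ p (fun j => z j p x))
      h1 ha f1 (f2.congr (fun p x => by ring)) lh).mul (h.b1 r _ h1 h2 h4 j) h1
    have e2 := (PSd_bound h1 ha f1).mul (h.l1 r z m δ h1 h2 h3 h4 h5 h6 j) h1
    have e3 := e1.add e2 (by linarith)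
    refine (e3.congr (fun p x => ?_)).mono (by linarith) le_rfl ?_
    · rw [hD h3 h1 j p x, hD h4 h1 j p x]
      have : φ p (fun j => z j p x) + (φ p (fun j => z j p x + m j p x) - φ p (fun j => z j p x))
          = φ p (fun j => z j p x + m j p x) := by ring
      rw [this]; ring
    · have e4 : GG * ((Fintype.card J + 1) * K * δ) * K + GG * (K * δ)
          = (GG * (((Fintype.card J + 1) * K) * K) + GG * K) * δ := by ring
      rw [e4]
      have e5 : ((Fintype.card J + 1) * K) * K ≤ ((Fintype.card J + 1) * K + 1) ^ 2 := by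
        nlinarith [mul_nonneg hn hK, mul_nonneg hn (mul_nonneg hK hK),
          mul_nonneg (mul_nonneg hn hK) (mul_nonneg hn hK)]
      have e6 : GG * (((Fintype.card J + 1) * K) * K) ≤ GG * ((Fintype.card J + 1) * K + 1) ^ 2 := by
        gcongr
      apply mul_le_mul_of_nonneg_right _ hδ
      linarith
  · intro r z m δ h1 h2 h3 h4 h5 h6
    obtain ⟨j0⟩ := (inferInstance : Nonempty J)
    have hδ := (h5 j0).nonneg (by linarith)
    obtain ⟨lh, _⟩ := h.lip h1 h2 h3 h4 h5 h6 hδ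
    have f1 := hq' r z h1 h2 h3
    have f2 := hq' r _ h1 h2 h4
    have e1 := PS_rem (h := fun p x => φ p (fun j => z j p x + m j p x) - φ p (fun j => z j p x))
      h1 ha f1 (f2.congr (fun p x => by ring)) lh
    have e2 := (PSd_bound h1 ha f1).mul (h.l2 r z m δ h1 h2 h3 h4 h5 h6) h1
    have e3 := e1.add e2 (by linarith)
    refine (e3.congr (fun p x => ?_)).mono (by linarith) le_rfl ?_
    · have e4 : ∑ j, Dj (fun p z => PS a (φ p z)) j p (fun j => z j p x) * m j p x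
          = PSd a (φ p (fun j => z j p x)) * ∑ j, Dj φ j p (fun j => z j p x) * m j p x := by
        rw [Finset.mul_sum]
        refine Finset.sum_congr rfl (fun j _ => ?_)
        rw [hD h3 h1 j p x]; ring
      have : φ p (fun j => z j p x) + (φ p (fun j => z j p x + m j p x) - φ p (fun j => z j p x))
          = φ p (fun j => z j p x + m j p x) := by ring
      rw [e4, this]; ring
    · have e4 : GG * ((Fintype.card J + 1) * K * δ) ^ 2 + GG * (K * δ ^ 2)
          = (GG * ((Fintype.card J + 1) * K) ^ 2 + GG * K) * δ ^ 2 := by ring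
      rw [e4]
      have e5 : ((Fintype.card J + 1) * K) ^ 2 ≤ ((Fintype.card J + 1) * K + 1) ^ 2 := by
        apply pow_le_pow_left₀ (by positivity)
        linarith
      have e6 : GG * ((Fintype.card J + 1) * K) ^ 2 ≤ GG * ((Fintype.card J + 1) * K + 1) ^ 2 := by
        gcongr
      apply mul_le_mul_of_nonneg_right _ (by positivity)
      linarith


end ptame

end Run7.k800
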