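import Mathlib

set_option autoImplicit false
set_option linter.unusedSectionVars false

/-!
# Base file Wie
-/

namespace Run7.k800

section pwie


open Filter Topology

variable {P : Type*} [TopologicalSpace P] [CompactSpace P]

/-- The character of frequency `k`. -/
noncomputable def ch (k : ℤ × ℤ) (x : ℝ × ℝ) : ℂ :=
  Complex.exp (((k.1 * x.1 + k.2 * x.2 : ℝ) : ℂ) * Complex.I)

/-- The degree of a frequency. -/
def dg (k : ℤ × ℤ) : ℕ := k.1.natAbs + k.2.natAbs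

lemma norm_ch (k : ℤ × ℤ) (x : ℝ × ℝ) : ‖ch k x‖ = 1 := by
  unfold ch; exact Complex.norm_exp_ofReal_mul_I _

lemma ch_add (k : ℤ × ℤ) (x y : ℝ × ℝ) : ch k (x + y) = ch k x * ch k y := by
  unfold ch
  rw [← Complex.exp_add]
  congr 1
  simp only [Prod.fst_add, Prod.snd_add]
  push_cast; ring

lemma ch_add_int (j k : ℤ × ℤ) (x : ℝ × ℝ) : ch (j + k) x = ch j x * ch k x := by
  unfold ch
  rw [← Complex.exp_add]
  congr 1
  simp only [Prod.fst_add, Prod.snd_add]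
  push_cast; ring

lemma ch_neg (k : ℤ × ℤ) (x : ℝ × ℝ) : ch k (-x) = ch (-k) x := by
  unfold ch
  congr 1
  simp only [Prod.fst_neg, Prod.snd_neg]
  push_cast; ring

lemma ch_conj (k : ℤ × ℤ) (x : ℝ × ℝ) : (starRingEnd ℂ) (ch k x) = ch (-k) x := by
  unfold ch
  rw [← Complex.exp_conj]
  congr 1
  simp only [Prod.fst_neg, Prod.snd_neg, map_mul, Complex.conj_ofReal, Complex.conj_I]
  push_cast; ring

lemma ch_zero (x : ℝ × ℝ) : ch 0 x = 1 := by
  unfold ch; simp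

lemma dg_neg (k : ℤ × ℤ) : dg (-k) = dg k := by
  unfold dg; simp

lemma dg_add_le (j k : ℤ × ℤ) : dg (j + k) ≤ dg j + dg k := by
  unfold dg
  have h1 := Int.natAbs_add_le j.1 k.1
  have h2 := Int.natAbs_add_le j.2 k.2
  simp only [Prod.fst_add, Prod.snd_add]
  omega

/-- `f` has Fourier coefficients `a` with weighted absolute sum at most `M`. -/
structure BC (r M : ℝ) (a : ℤ × ℤ → C(P, ℂ)) (f : P → ℝ × ℝ → ℂ) : Prop where
  sum : Summable (fun k : ℤ × ℤ => ‖a k‖ * r ^ dg k)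
  le : (∑' k : ℤ × ℤ, ‖a k‖ * r ^ dg k) ≤ M
  rep : ∀ p x, HasSum (fun k : ℤ × ℤ => a k p * ch k x) (f p x)

lemma BC.nonneg {r M : ℝ} {a : ℤ × ℤ → C(P, ℂ)} {f : P → ℝ × ℝ → ℂ} (h : BC r M a f)
    (hr : 0 ≤ r) : 0 ≤ M :=
  le_trans (tsum_nonneg fun k => by positivity) h.le

lemma summable_of_norm_weight {r : ℝ} (hr : 1 ≤ r) {a : ℤ × ℤ → C(P, ℂ)}
    (h : Summable (fun k : ℤ × ℤ => ‖a k‖ * r ^ dg k)) : Summable (fun k : ℤ × ℤ => ‖a k‖) := by
  refine Summable.of_nonneg_of_le (fun k => norm_nonneg _) (fun k => ?_) h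
  exact le_mul_of_one_le_right (norm_nonneg _) (one_le_pow₀ hr)

lemma norm_coef_ch_le (a : C(P, ℂ)) (k : ℤ × ℤ) (p : P) (x : ℝ × ℝ) : ‖a p * ch k x‖ ≤ ‖a‖ := by
  rw [norm_mul, norm_ch, mul_one]
  exact a.norm_coe_le_norm p

lemma summable_ch {a : ℤ × ℤ → C(P, ℂ)} (h : Summable (fun k : ℤ × ℤ => ‖a k‖)) (p : P)
    (x : ℝ × ℝ) : Summable (fun k : ℤ × ℤ => a k p * ch k x) :=
  Summable.of_norm_bounded h (fun k => norm_coef_ch_le (a k) k p x)

lemma BC.norm_le {r M : ℝ} {a : ℤ × ℤ → C(P, ℂ)} {f : P → ℝ × ℝ → ℂ} (h : BC r M a f)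
    (hr : 1 ≤ r) (p : P) (x : ℝ × ℝ) : ‖f p x‖ ≤ M := by
  have hs := summable_of_norm_weight hr h.sum
  have hn : Summable (fun k : ℤ × ℤ => ‖a k p * ch k x‖) :=
    Summable.of_nonneg_of_le (fun k => norm_nonneg _) (fun k => norm_coef_ch_le (a k) k p x) hs
  rw [← (h.rep p x).tsum_eq]
  refine (norm_tsum_le_tsum_norm hn).trans (le_trans ?_ h.le)
  refine hn.tsum_le_tsum (fun k => ?_) h.sum
  exact (norm_coef_ch_le (a k) k p x).trans
    (le_mul_of_one_le_right (norm_nonneg _) (one_le_pow₀ hr))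

lemma BC.mono {r r' M M' : ℝ} {a : ℤ × ℤ → C(P, ℂ)} {f : P → ℝ × ℝ → ℂ} (h : BC r M a f)
    (hr' : 0 ≤ r') (hr : r' ≤ r) (hM : M ≤ M') : BC r' M' a f := by
  obtain ⟨h1, h2, h3⟩ := h
  have hle : ∀ k : ℤ × ℤ, ‖a k‖ * r' ^ dg k ≤ ‖a k‖ * r ^ dg k := fun k => by
    have := pow_le_pow_left₀ hr' hr (dg k)
    gcongr
  have hs : Summable (fun k : ℤ × ℤ => ‖a k‖ * r' ^ dg k) :=
    Summable.of_nonneg_of_le (fun k => by positivity) hle h1
  exact ⟨hs, (hs.tsum_le_tsum hle h1).trans (h2.trans hM), h3⟩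

/-- comparison of coefficients -/
lemma BC.of_coef {r r' M C : ℝ} {a b : ℤ × ℤ → C(P, ℂ)} {f : P → ℝ × ℝ → ℂ} (h : BC r M a f)
    (hC : 0 ≤ C) (hr' : 1 ≤ r') (hle : ∀ k : ℤ × ℤ, ‖b k‖ * r' ^ dg k ≤ C * (‖a k‖ * r ^ dg k)) :
    BC r' (C * M) b (fun p x => ∑' k : ℤ × ℤ, b k p * ch k x) := by
  obtain ⟨h1, h2, h3⟩ := h
  have hs1 : Summable (fun k : ℤ × ℤ => C * (‖a k‖ * r ^ dg k)) := h1.mul_left C
  have hs : Summable (fun k : ℤ × ℤ => ‖b k‖ * r' ^ dg k) :=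
    Summable.of_nonneg_of_le (fun k => by positivity) hle hs1
  refine ⟨hs, ?_, fun p x => (summable_ch (summable_of_norm_weight hr' hs) p x).hasSum⟩
  refine (hs.tsum_le_tsum hle hs1).trans ?_
  rw [tsum_mul_left]
  gcongr

lemma BC.add {r M N : ℝ} {a b : ℤ × ℤ → C(P, ℂ)} {f g : P → ℝ × ℝ → ℂ} (hr : 0 ≤ r)
    (hf : BC r M a f) (hg : BC r N b g) :
    BC r (M + N) (fun k => a k + b k) (fun p x => f p x + g p x) := by
  obtain ⟨f1, f2, f3⟩ := hf
  obtain ⟨g1, g2, g3⟩ := hg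
  have hle : ∀ k : ℤ × ℤ, ‖a k + b k‖ * r ^ dg k ≤ ‖a k‖ * r ^ dg k + ‖b k‖ * r ^ dg k := by
    intro k
    rw [← add_mul]
    have := norm_add_le (a k) (b k)
    gcongr
  have hs : Summable (fun k : ℤ × ℤ => ‖a k + b k‖ * r ^ dg k) :=
    Summable.of_nonneg_of_le (fun k => by positivity) hle (f1.add g1)
  refine ⟨hs, ?_, fun p x => ?_⟩
  · refine (hs.tsum_le_tsum hle (f1.add g1)).trans ?_
    rw [f1.tsum_add g1]
    gcongr
  · have := (f3 p x).add (g3 p x)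
    simpa [add_mul] using this

lemma BC.const_mul {r M : ℝ} {a : ℤ × ℤ → C(P, ℂ)} {f : P → ℝ × ℝ → ℂ} (hr : 0 ≤ r) (c : C(P, ℂ))
    (hf : BC r M a f) : BC r (‖c‖ * M) (fun k => c * a k) (fun p x => c p * f p x) := by
  obtain ⟨f1, f2, f3⟩ := hf
  have hle : ∀ k : ℤ × ℤ, ‖c * a k‖ * r ^ dg k ≤ ‖c‖ * (‖a k‖ * r ^ dg k) := by
    intro k
    rw [← mul_assoc]
    have := norm_mul_le c (a k)
    gcongr
  have hs : Summable (fun k : ℤ × ℤ => ‖c * a k‖ * r ^ dg k) :=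
    Summable.of_nonneg_of_le (fun k => by positivity) hle (f1.mul_left _)
  refine ⟨hs, ?_, fun p x => ?_⟩
  · refine (hs.tsum_le_tsum hle (f1.mul_left _)).trans ?_
    rw [tsum_mul_left]
    gcongr
  · have := (f3 p x).mul_left (c p)
    simpa [mul_assoc] using this

lemma BC.const {r : ℝ} (c : C(P, ℂ)) :
    BC r ‖c‖ (fun k => if k = 0 then c else 0) (fun p _ => c p) := by
  have h1 : HasSum (fun k : ℤ × ℤ => ‖(if k = 0 then c else 0 : C(P, ℂ))‖ * r ^ dg k) ‖c‖ := by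
    have := hasSum_single (f := fun k : ℤ × ℤ => ‖(if k = 0 then c else 0 : C(P, ℂ))‖ * r ^ dg k) 0
      (by intro k hk; simp [hk])
    simpa [dg] using this
  refine ⟨h1.summable, h1.tsum_eq.le, fun p x => ?_⟩
  have := hasSum_single (f := fun k : ℤ × ℤ => (if k = 0 then c else 0 : C(P, ℂ)) p * ch k x) 0
      (by intro k hk; simp [hk])
  simpa [ch_zero] using this

/-- a single character -/
lemma BC.char {r : ℝ} (c : C(P, ℂ)) (j : ℤ × ℤ) :
    BC r (‖c‖ * r ^ dg j) (fun k => if k = j then c else 0) (fun p x => c p * ch j x) := by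
  have h1 : HasSum (fun k : ℤ × ℤ => ‖(if k = j then c else 0 : C(P, ℂ))‖ * r ^ dg k)
      (‖c‖ * r ^ dg j) := by
    have := hasSum_single (f := fun k : ℤ × ℤ => ‖(if k = j then c else 0 : C(P, ℂ))‖ * r ^ dg k) j
      (by intro k hk; simp [hk])
    simpa using this
  refine ⟨h1.summable, h1.tsum_eq.le, fun p x => ?_⟩
  have := hasSum_single (f := fun k : ℤ × ℤ => (if k = j then c else 0 : C(P, ℂ)) p * ch k x) j
      (by intro k hk; simp [hk])
  simpa using this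

lemma BC.refl {r M : ℝ} {a : ℤ × ℤ → C(P, ℂ)} {f : P → ℝ × ℝ → ℂ} (hf : BC r M a f) :
    BC r M (fun k => a (-k)) (fun p x => f p (-x)) := by
  obtain ⟨f1, f2, f3⟩ := hf
  have e : (fun k : ℤ × ℤ => ‖a (-k)‖ * r ^ dg k)
      = (fun k => (‖a k‖ * r ^ dg k)) ∘ (Equiv.neg (ℤ × ℤ)) := by
    funext k; simp [dg_neg]
  refine ⟨?_, ?_, fun p x => ?_⟩
  · rw [e]; exact (Equiv.neg (ℤ × ℤ)).summable_iff.mpr f1
  · rw [e]
    have := (Equiv.neg (ℤ × ℤ)).tsum_eq (fun k : ℤ × ℤ => (‖a k‖ * r ^ dg k))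
    exact this.trans_le f2
  · have h := f3 p (-x)
    have h2 := (Equiv.neg (ℤ × ℤ)).hasSum_iff.mpr h
    convert h2 using 2 with k
    simp [ch_neg]

lemma BC.conj {r M : ℝ} {a : ℤ × ℤ → C(P, ℂ)} {f : P → ℝ × ℝ → ℂ} (hf : BC r M a f) :
    BC r M (fun k => star (a (-k))) (fun p x => (starRingEnd ℂ) (f p x)) := by
  obtain ⟨f1, f2, f3⟩ := hf
  have e : (fun k : ℤ × ℤ => ‖star (a (-k))‖ * r ^ dg k)
      = (fun k => (‖a k‖ * r ^ dg k)) ∘ (Equiv.neg (ℤ × ℤ)) := by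
    funext k; simp [dg_neg, norm_star]
  refine ⟨?_, ?_, fun p x => ?_⟩
  · rw [e]; exact (Equiv.neg (ℤ × ℤ)).summable_iff.mpr f1
  · rw [e]
    have := (Equiv.neg (ℤ × ℤ)).tsum_eq (fun k : ℤ × ℤ => (‖a k‖ * r ^ dg k))
    exact this.trans_le f2
  · have h := (f3 p x).map (starRingEnd ℂ) Complex.continuous_conj
    have h2 := (Equiv.neg (ℤ × ℤ)).hasSum_iff.mpr h
    convert h2 using 2 with k
    simp [ch_conj]

lemma BC.mul {r M N : ℝ} {a b : ℤ × ℤ → C(P, ℂ)} {f g : P → ℝ × ℝ → ℂ} (hr : 1 ≤ r)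
    (hf : BC r M a f) (hg : BC r N b g) :
    BC r (M * N) (fun n => ∑' j, a j * b (n - j)) (fun p x => f p x * g p x) := by
  have hr0 : (0 : ℝ) ≤ r := by linarith
  have hM := hf.nonneg hr0
  have hN := hg.nonneg hr0
  obtain ⟨f1, f2, f3⟩ := hf
  obtain ⟨g1, g2, g3⟩ := hg
  set F : ℤ × ℤ → ℝ := fun k => ‖a k‖ * r ^ dg k with hF
  set G : ℤ × ℤ → ℝ := fun k => ‖b k‖ * r ^ dg k with hG
  have hF0 : ∀ k, 0 ≤ F k := fun k => by simp only [hF]; positivity
  have hG0 : ∀ k, 0 ≤ G k := fun k => by simp only [hG]; positivity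
  let e : (ℤ × ℤ) × (ℤ × ℤ) ≃ (ℤ × ℤ) × (ℤ × ℤ) :=
    { toFun := fun x => (x.2, x.1 - x.2)
      invFun := fun x => (x.1 + x.2, x.1)
      left_inv := fun x => by ext <;> simp
      right_inv := fun x => by ext <;> simp }
  have hFG : Summable (fun x : (ℤ × ℤ) × (ℤ × ℤ) => F x.1 * G x.2) := f1.mul_of_nonneg g1 hF0 hG0
  have hFG' : Summable (fun x : (ℤ × ℤ) × (ℤ × ℤ) => F x.2 * G (x.1 - x.2)) := by
    have := e.summable_iff.mpr hFG
    exact this
  have hFGt : ∑' x : (ℤ × ℤ) × (ℤ × ℤ), F x.2 * G (x.1 - x.2) = (∑' k, F k) * ∑' k, G k := by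
    rw [f1.tsum_mul_tsum g1 hFG]
    exact e.tsum_eq (fun x : (ℤ × ℤ) × (ℤ × ℤ) => F x.1 * G x.2)
  have hle2 : ∀ x : (ℤ × ℤ) × (ℤ × ℤ), ‖a x.2 * b (x.1 - x.2)‖ * r ^ dg x.1
      ≤ F x.2 * G (x.1 - x.2) := by
    intro x
    simp only [hF, hG]
    have h1 : r ^ dg x.1 ≤ r ^ dg x.2 * r ^ dg (x.1 - x.2) := by
      rw [← pow_add]
      apply pow_le_pow_right₀ hr
      have := dg_add_le x.2 (x.1 - x.2)
      rwa [add_sub_cancel] at this
    have h2 := norm_mul_le (a x.2) (b (x.1 - x.2))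
    calc ‖a x.2 * b (x.1 - x.2)‖ * r ^ dg x.1
        ≤ ‖a x.2‖ * ‖b (x.1 - x.2)‖ * (r ^ dg x.2 * r ^ dg (x.1 - x.2)) := by gcongr
      _ = _ := by ring
  have hS : Summable (fun x : (ℤ × ℤ) × (ℤ × ℤ) => ‖a x.2 * b (x.1 - x.2)‖ * r ^ dg x.1) :=
    Summable.of_nonneg_of_le (fun x => by positivity) hle2 hFG'
  have hS1 : Summable (fun x : (ℤ × ℤ) × (ℤ × ℤ) => ‖a x.2 * b (x.1 - x.2)‖) := by
    refine Summable.of_nonneg_of_le (fun x => by positivity) (fun x => ?_) hS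
    exact le_mul_of_one_le_right (norm_nonneg _) (one_le_pow₀ hr)
  have hfib : ∀ n : ℤ × ℤ, Summable (fun j => ‖a j * b (n - j)‖) := fun n => hS1.prod_factor n
  have hle3 : ∀ n : ℤ × ℤ, ‖∑' j, a j * b (n - j)‖ * r ^ dg n
      ≤ ∑' j, ‖a j * b (n - j)‖ * r ^ dg n := by
    intro n
    rw [tsum_mul_right]
    have := norm_tsum_le_tsum_norm (hfib n)
    gcongr
  have hS2 : Summable (fun n : ℤ × ℤ => ∑' j, ‖a j * b (n - j)‖ * r ^ dg n) := hS.prod
  have hs : Summable (fun n : ℤ × ℤ => ‖∑' j, a j * b (n - j)‖ * r ^ dg n) :=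
    Summable.of_nonneg_of_le (fun n => by positivity) hle3 hS2
  refine ⟨hs, ?_, fun p t => ?_⟩
  · calc ∑' n : ℤ × ℤ, ‖∑' j, a j * b (n - j)‖ * r ^ dg n
        ≤ ∑' n : ℤ × ℤ, ∑' j, ‖a j * b (n - j)‖ * r ^ dg n := hs.tsum_le_tsum hle3 hS2
      _ = ∑' x : (ℤ × ℤ) × (ℤ × ℤ), ‖a x.2 * b (x.1 - x.2)‖ * r ^ dg x.1 := by
          rw [hS.tsum_prod]
      _ ≤ ∑' x : (ℤ × ℤ) × (ℤ × ℤ), F x.2 * G (x.1 - x.2) := hS.tsum_le_tsum hle2 hFG'
      _ = (∑' k, F k) * ∑' k, G k := hFGt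
      _ ≤ M * N := by
          have : 0 ≤ ∑' k, G k := tsum_nonneg hG0
          gcongr
  · have h0 : Summable (fun x : (ℤ × ℤ) × (ℤ × ℤ) => (a x.1 p * ch x.1 t) * (b x.2 p * ch x.2 t)) := by
      apply Summable.of_norm
      refine Summable.of_nonneg_of_le (fun x => norm_nonneg _) (fun x => ?_) hFG
      simp only [hF, hG]
      rw [norm_mul]
      have h1 : (1 : ℝ) ≤ r ^ dg x.1 := one_le_pow₀ hr
      have h2 : (1 : ℝ) ≤ r ^ dg x.2 := one_le_pow₀ hr
      have h3 := norm_nonneg (a x.1)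
      have h4 := norm_nonneg (b x.2)
      have h5 := norm_coef_ch_le (a x.1) x.1 p t
      have h6 := norm_coef_ch_le (b x.2) x.2 p t
      calc ‖a x.1 p * ch x.1 t‖ * ‖b x.2 p * ch x.2 t‖ ≤ (‖a x.1‖ * 1) * (‖b x.2‖ * 1) := by
            rw [mul_one, mul_one]; gcongr
        _ ≤ _ := by gcongr
    have h1 : HasSum (fun x : (ℤ × ℤ) × (ℤ × ℤ) => (a x.1 p * ch x.1 t) * (b x.2 p * ch x.2 t))
        (f p t * g p t) := by
      have h2 := HasSum.mul (f3 p t) (g3 p t) h0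
      exact h2
    have h2 : HasSum (fun x : (ℤ × ℤ) × (ℤ × ℤ) => (a x.2 * b (x.1 - x.2)) p * ch x.1 t)
        (f p t * g p t) := by
      have := e.hasSum_iff.mpr h1
      convert this using 2 with x
      have h3 : ch x.1 t = ch x.2 t * ch (x.1 - x.2) t := by
        rw [← ch_add_int]; congr 1; abel
      simp only [Function.comp, e, Equiv.coe_fn_mk]
      rw [h3, ContinuousMap.mul_apply]; ring
    have h5 : ∀ n : ℤ × ℤ, HasSum (fun j => (a j * b (n - j)) p * ch n t)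
        ((∑' j, a j * b (n - j)) p * ch n t) := by
      intro n
      have h4 : Summable (fun j => a j * b (n - j)) := (hfib n).of_norm
      have h7 : HasSum (fun j => (a j * b (n - j)) p) ((∑' j, a j * b (n - j)) p) :=
        h4.hasSum.map (ContinuousMap.evalCLM ℂ p) (ContinuousMap.evalCLM ℂ p).continuous
      exact h7.mul_right (ch n t)
    exact HasSum.prod_fiberwise (f := fun x : (ℤ × ℤ) × (ℤ × ℤ) => (a x.2 * b (x.1 - x.2)) p * ch x.1 t)
      (g := fun n : ℤ × ℤ => (∑' j, a j * b (n - j)) p * ch n t) h2 h5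

/-- series of functions -/
lemma BC.tsum {r : ℝ} (hr : 1 ≤ r) {M : ℕ → ℝ} {a : ℕ → ℤ × ℤ → C(P, ℂ)}
    {f : ℕ → P → ℝ × ℝ → ℂ} (hM : Summable M) (h : ∀ n, BC r (M n) (a n) (f n)) :
    BC r (∑' n, M n) (fun k => ∑' n, a n k) (fun p x => ∑' n, f n p x) := by
  have hr0 : (0 : ℝ) ≤ r := by linarith
  have hS : Summable (fun x : ℕ × (ℤ × ℤ) => ‖a x.1 x.2‖ * r ^ dg x.2) := by
    rw [summable_prod_of_nonneg (fun x => by positivity)]
    refine ⟨fun n => (h n).sum, ?_⟩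
    exact Summable.of_nonneg_of_le (fun n => tsum_nonneg fun k => by positivity)
      (fun n => (h n).le) hM
  have hS' : Summable (fun x : (ℤ × ℤ) × ℕ => ‖a x.2 x.1‖ * r ^ dg x.1) := by
    have := (Equiv.prodComm (ℤ × ℤ) ℕ).summable_iff.mpr hS
    exact this
  have hS1 : Summable (fun x : (ℤ × ℤ) × ℕ => ‖a x.2 x.1‖) := by
    refine Summable.of_nonneg_of_le (fun x => by positivity) (fun x => ?_) hS'
    exact le_mul_of_one_le_right (norm_nonneg _) (one_le_pow₀ hr)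
  have hfib : ∀ k : ℤ × ℤ, Summable (fun n => ‖a n k‖) := fun k => hS1.prod_factor k
  have hle3 : ∀ k : ℤ × ℤ, ‖∑' n, a n k‖ * r ^ dg k ≤ ∑' n, ‖a n k‖ * r ^ dg k := by
    intro k
    rw [tsum_mul_right]
    have := norm_tsum_le_tsum_norm (hfib k)
    gcongr
  have hS2 : Summable (fun k : ℤ × ℤ => ∑' n, ‖a n k‖ * r ^ dg k) := hS'.prod
  have hs : Summable (fun k : ℤ × ℤ => ‖∑' n, a n k‖ * r ^ dg k) :=
    Summable.of_nonneg_of_le (fun n => by positivity) hle3 hS2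
  refine ⟨hs, ?_, fun p t => ?_⟩
  · calc ∑' k : ℤ × ℤ, ‖∑' n, a n k‖ * r ^ dg k
        ≤ ∑' k : ℤ × ℤ, ∑' n, ‖a n k‖ * r ^ dg k := hs.tsum_le_tsum hle3 hS2
      _ = ∑' x : (ℤ × ℤ) × ℕ, ‖a x.2 x.1‖ * r ^ dg x.1 := (hS'.tsum_prod).symm
      _ = ∑' x : ℕ × (ℤ × ℤ), ‖a x.1 x.2‖ * r ^ dg x.2 :=
          (Equiv.prodComm (ℤ × ℤ) ℕ).tsum_eq (fun x : ℕ × (ℤ × ℤ) => ‖a x.1 x.2‖ * r ^ dg x.2)
      _ = ∑' n, ∑' k : ℤ × ℤ, ‖a n k‖ * r ^ dg k := hS.tsum_prod
      _ ≤ ∑' n, M n := by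
          refine Summable.tsum_le_tsum (fun n => (h n).le) ?_ hM
          exact hS.prod
  · have hSt : Summable (fun x : ℕ × (ℤ × ℤ) => ‖a x.1 x.2 p * ch x.2 t‖) := by
      have : Summable (fun x : ℕ × (ℤ × ℤ) => ‖a x.1 x.2‖) := by
        refine Summable.of_nonneg_of_le (fun x => by positivity) (fun x => ?_) hS
        exact le_mul_of_one_le_right (norm_nonneg _) (one_le_pow₀ hr)
      exact Summable.of_nonneg_of_le (fun x => norm_nonneg _)
        (fun x => norm_coef_ch_le (a x.1 x.2) x.2 p t) this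
    have h1 : Summable (fun x : ℕ × (ℤ × ℤ) => a x.1 x.2 p * ch x.2 t) := hSt.of_norm
    have h2 : HasSum (fun n => f n p t) (∑' x : ℕ × (ℤ × ℤ), a x.1 x.2 p * ch x.2 t) :=
      h1.hasSum.prod_fiberwise (fun n => (h n).rep p t)
    have h1' : HasSum (fun x : (ℤ × ℤ) × ℕ => a x.2 x.1 p * ch x.1 t)
        (∑' x : ℕ × (ℤ × ℤ), a x.1 x.2 p * ch x.2 t) := by
      have := (Equiv.prodComm (ℤ × ℤ) ℕ).hasSum_iff.mpr h1.hasSum
      exact this
    have h8 : ∀ k, HasSum (fun n => a n k p) ((∑' n, a n k) p) := fun k =>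
      ((hfib k).of_norm.hasSum).map (ContinuousMap.evalCLM ℂ p) (ContinuousMap.evalCLM ℂ p).continuous
    have h3 := h1'.prod_fiberwise (fun k => ((h8 k).mul_right (ch k t)))
    rw [← h2.tsum_eq] at h3
    exact h3

lemma nat_mul_pow_le {s : ℝ} (hs0 : 0 ≤ s) (hs1 : s < 1) (n : ℕ) :
    (n : ℝ) * s ^ n ≤ 1 / (1 - s) := by
  have h1 : (n : ℝ) * s ^ n ≤ ∑ j ∈ Finset.range n, s ^ j := by
    calc (n : ℝ) * s ^ n = ∑ j ∈ Finset.range n, s ^ n := by simp
      _ ≤ ∑ j ∈ Finset.range n, s ^ j := by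
          apply Finset.sum_le_sum
          intro j hj
          exact pow_le_pow_of_le_one hs0 hs1.le (Finset.mem_range.mp hj).le
  have h2 : (∑ j ∈ Finset.range n, s ^ j) * (1 - s) = 1 - s ^ n := geom_sum_mul_neg s n
  rw [le_div_iff₀ (by linarith)]
  have h3 : 0 ≤ s ^ n := pow_nonneg hs0 n
  calc (n : ℝ) * s ^ n * (1 - s) ≤ (∑ j ∈ Finset.range n, s ^ j) * (1 - s) := by
        have : 0 ≤ 1 - s := by linarith
        gcongr
    _ = 1 - s ^ n := h2
    _ ≤ 1 := by linarith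


end pwie

section pwied


open Filter Topology

variable {P : Type*} [TopologicalSpace P] [CompactSpace P]

/-- pairing of a frequency with a vector -/
def dot (k : ℤ × ℤ) (v : ℝ × ℝ) : ℝ := k.1 * v.1 + k.2 * v.2

lemma abs_dot_le (k : ℤ × ℤ) (v : ℝ × ℝ) : |dot k v| ≤ dg k * ‖v‖ := by
  unfold dot dg
  have h1 : |v.1| ≤ ‖v‖ := norm_fst_le v
  have h2 : |v.2| ≤ ‖v‖ := norm_snd_le v
  have e1 : |(k.1 : ℝ)| = (k.1.natAbs : ℝ) := by rw [Nat.cast_natAbs, Int.cast_abs]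
  have e2 : |(k.2 : ℝ)| = (k.2.natAbs : ℝ) := by rw [Nat.cast_natAbs, Int.cast_abs]
  calc |(k.1 : ℝ) * v.1 + k.2 * v.2| ≤ |(k.1 : ℝ)| * |v.1| + |(k.2 : ℝ)| * |v.2| := by
        rw [← abs_mul, ← abs_mul]; exact abs_add_le _ _
    _ ≤ (k.1.natAbs : ℝ) * ‖v‖ + (k.2.natAbs : ℝ) * ‖v‖ := by rw [e1, e2]; gcongr
    _ = _ := by push_cast; ring

/-- the linear form of a frequency -/
noncomputable def lk (k : ℤ × ℤ) : ℝ × ℝ →L[ℝ] ℝ :=
  (k.1 : ℝ) • ContinuousLinearMap.fst ℝ ℝ ℝ + (k.2 : ℝ) • ContinuousLinearMap.snd ℝ ℝ ℝ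

lemma lk_apply (k : ℤ × ℤ) (v : ℝ × ℝ) : lk k v = dot k v := by
  simp [lk, dot]

/-- the derivative of a character -/
noncomputable def dch (k : ℤ × ℤ) (x : ℝ × ℝ) : ℝ × ℝ →L[ℝ] ℂ :=
  (ch k x * Complex.I) • (Complex.ofRealCLM.comp (lk k))

lemma dch_apply (k : ℤ × ℤ) (x v : ℝ × ℝ) : dch k x v = ch k x * Complex.I * (dot k v : ℝ) := by
  simp [dch, lk_apply]

lemma hasFDerivAt_ch (k : ℤ × ℤ) (x : ℝ × ℝ) : HasFDerivAt (ch k) (dch k x) x := by
  have h1 : HasFDerivAt (fun x : ℝ × ℝ => (lk k x : ℂ)) (Complex.ofRealCLM.comp (lk k)) x :=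
    (Complex.ofRealCLM.comp (lk k)).hasFDerivAt
  have h2 := h1.mul_const Complex.I
  have h3 := h2.cexp
  have e : (fun x : ℝ × ℝ => Complex.exp ((lk k x : ℂ) * Complex.I)) = ch k := by
    funext y; rw [lk_apply]; rfl
  rw [e] at h3
  refine h3.congr_fderiv ?_
  unfold dch
  have : Complex.exp ((lk k x : ℂ) * Complex.I) = ch k x := by rw [lk_apply]; rfl
  rw [this, smul_smul]

lemma norm_dch_le (k : ℤ × ℤ) (x : ℝ × ℝ) : ‖dch k x‖ ≤ dg k := by
  refine ContinuousLinearMap.opNorm_le_bound _ (by positivity) (fun v => ?_)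
  rw [dch_apply, norm_mul, norm_mul, norm_ch, Complex.norm_I, Complex.norm_real, one_mul, one_mul]
  exact abs_dot_le k v

/-- derivative of the sum of a Fourier series -/
lemma BC.hasFDerivAt {r M : ℝ} {a : ℤ × ℤ → C(P, ℂ)} {f : P → ℝ × ℝ → ℂ} (hf : BC r M a f)
    (hr : 1 < r) (p : P) (x : ℝ × ℝ) :
    HasFDerivAt (f p) (∑' k, a k p • dch k x) x ∧
      Summable (fun k => a k p • dch k x) := by
  have hr0 : 0 < r := by linarith
  obtain ⟨s, hs⟩ : ∃ s : ℝ, s = 1 / r := ⟨_, rfl⟩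
  have hs0 : 0 < s := by rw [hs]; positivity
  have hs1 : s < 1 := by rw [hs, div_lt_one hr0]; exact hr
  have hrs : r * s = 1 := by rw [hs]; field_simp
  have hsum : Summable (fun k : ℤ × ℤ => ‖a k‖ * dg k) := by
    refine Summable.of_nonneg_of_le (fun k => by positivity) (fun k => ?_)
      (hf.sum.mul_left (1 / (1 - s)))
    have h2 := nat_mul_pow_le hs0.le hs1 (dg k)
    have h3 : (r * s) ^ dg k = 1 := by rw [hrs, one_pow]
    calc ‖a k‖ * dg k = (‖a k‖ * r ^ dg k) * (dg k * s ^ dg k) := by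
          rw [mul_pow] at h3
          calc ‖a k‖ * dg k = ‖a k‖ * dg k * (r ^ dg k * s ^ dg k) := by rw [h3, mul_one]
            _ = _ := by ring
      _ ≤ (‖a k‖ * r ^ dg k) * (1 / (1 - s)) := by gcongr
      _ = _ := by ring
  have hb : ∀ (k : ℤ × ℤ) (x : ℝ × ℝ), ‖a k p • dch k x‖ ≤ ‖a k‖ * dg k := by
    intro k x
    rw [norm_smul]
    have h1 := (a k).norm_coe_le_norm p
    have h2 := norm_dch_le k x
    gcongr
  have h2 := hasFDerivAt_tsum (u := fun k : ℤ × ℤ => ‖a k‖ * dg k)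
    (f := fun (k : ℤ × ℤ) (x : ℝ × ℝ) => a k p * ch k x)
    (f' := fun (k : ℤ × ℤ) (x : ℝ × ℝ) => a k p • dch k x) hsum
    (fun k y => (hasFDerivAt_ch k y).const_mul (a k p)) (fun k y => hb k y)
    (x₀ := x) (hf.rep p x).summable x
  have e1 : (fun y => ∑' k : ℤ × ℤ, a k p * ch k y) = f p := by
    funext z; exact (hf.rep p z).tsum_eq
  rw [e1] at h2
  exact ⟨h2, Summable.of_norm_bounded hsum (fun k => hb k x)⟩

/-- coefficients of the derivative -/
noncomputable def dcoef (v : ℝ × ℝ) (a : ℤ × ℤ → C(P, ℂ)) (k : ℤ × ℤ) : C(P, ℂ) :=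
  (Complex.I * (dot k v : ℝ)) • a k

lemma BC.fder {r M s : ℝ} {a : ℤ × ℤ → C(P, ℂ)} {f : P → ℝ × ℝ → ℂ} (hf : BC r M a f)
    (hs0 : 0 < s) (hs1 : s < 1) (hrs : 1 ≤ r * s) (v : ℝ × ℝ) :
    BC (r * s) (‖v‖ / (1 - s) * M) (dcoef v a) (fun p x => fderiv ℝ (f p) x v) := by
  have h1s : 0 < 1 - s := by linarith
  have hr : 1 < r := by
    by_contra h
    push Not at h
    nlinarith
  have hr0 : 0 < r := by linarith
  have hle : ∀ k : ℤ × ℤ, ‖dcoef v a k‖ * (r * s) ^ dg k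
      ≤ (‖v‖ / (1 - s)) * (‖a k‖ * r ^ dg k) := by
    intro k
    have e1 : ‖dcoef v a k‖ = |dot k v| * ‖a k‖ := by
      unfold dcoef
      rw [norm_smul, norm_mul, Complex.norm_I, one_mul, Complex.norm_real, Real.norm_eq_abs]
    have h2 := nat_mul_pow_le hs0.le hs1 (dg k)
    have h3 := abs_dot_le k v
    rw [e1, mul_pow]
    calc |dot k v| * ‖a k‖ * (r ^ dg k * s ^ dg k)
        ≤ (dg k * ‖v‖) * ‖a k‖ * (r ^ dg k * s ^ dg k) := by gcongr
      _ = ‖v‖ * (‖a k‖ * r ^ dg k) * (dg k * s ^ dg k) := by ring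
      _ ≤ ‖v‖ * (‖a k‖ * r ^ dg k) * (1 / (1 - s)) := by gcongr
      _ = _ := by ring
  have hb := hf.of_coef (b := dcoef v a) (r' := r * s) (by positivity) hrs hle
  refine ⟨hb.sum, hb.le, fun p x => ?_⟩
  obtain ⟨h1, h2⟩ := hf.hasFDerivAt hr p x
  rw [h1.fderiv]
  have h3 : HasSum (fun k => (a k p • dch k x) v) ((∑' k, a k p • dch k x) v) :=
    h2.hasSum.map (ContinuousLinearMap.apply ℝ ℂ v) (ContinuousLinearMap.apply ℝ ℂ v).continuous
  convert h3 using 2 with k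
  simp only [dcoef, ContinuousMap.smul_apply, smul_eq_mul, _root_.smul_apply,
    dch_apply]
  ring

/-- multiplication by a family of continuous functions -/
lemma BC.mult {r r' M C : ℝ} {a : ℤ × ℤ → C(P, ℂ)} {f : P → ℝ × ℝ → ℂ} (hf : BC r M a f)
    (m : ℤ × ℤ → C(P, ℂ)) (hC : 0 ≤ C) (hr' : 1 ≤ r')
    (hm : ∀ k, ‖m k‖ * r' ^ dg k ≤ C * r ^ dg k) :
    BC r' (C * M) (fun k => m k * a k) (fun p x => ∑' k : ℤ × ℤ, (m k * a k) p * ch k x) := by
  refine hf.of_coef hC hr' (fun k => ?_)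
  have h1 := norm_mul_le (m k) (a k)
  calc ‖m k * a k‖ * r' ^ dg k ≤ ‖m k‖ * ‖a k‖ * r' ^ dg k := by gcongr
    _ = (‖m k‖ * r' ^ dg k) * ‖a k‖ := by ring
    _ ≤ (C * r ^ dg k) * ‖a k‖ := by
        have := hm k
        gcongr
    _ = _ := by ring

/-- The cohomological equation with small divisors (complex version). -/
lemma BC.solve0 {r M G : ℝ} {ω : ℝ × ℝ} {a : ℤ × ℤ → C(P, ℂ)} {f : P → ℝ × ℝ → ℂ}
    (hf : BC r M a f) (hr : 1 < r) (hG : 0 ≤ G)
    (hdiv : ∀ k : ℤ × ℤ, k ≠ 0 → 1 ≤ G * dg k * |dot k ω|) :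
    ∃ (g : P → ℝ × ℝ → ℂ) (b : ℤ × ℤ → C(P, ℂ)),
      (∀ p x, fderiv ℝ (g p) x ω = f p x - a 0 p) ∧ (∀ p, Differentiable ℝ (g p)) ∧
      ∀ s, 0 < s → s < 1 → 1 ≤ r * s → BC (r * s) (G / (1 - s) * M) b g := by
  have hr0 : 0 < r := by linarith
  have hne : ∀ k : ℤ × ℤ, k ≠ 0 → dot k ω ≠ 0 := by
    intro k hk h0
    have := hdiv k hk
    rw [h0, abs_zero, mul_zero] at this
    linarith
  let m : ℤ × ℤ → C(P, ℂ) := fun k => if k = 0 then 0 else
    ContinuousMap.const P ((Complex.I * (dot k ω : ℝ))⁻¹)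
  have hmn : ∀ k, ‖m k‖ ≤ G * dg k := by
    intro k
    by_cases hk : k = 0
    · simp only [m, hk, if_true, norm_zero]
      simp [dg]
    · simp only [m, hk, if_false]
      rw [ContinuousMap.norm_le _ (by positivity)]
      intro p
      rw [ContinuousMap.const_apply, norm_inv, norm_mul, Complex.norm_I, one_mul,
        Complex.norm_real, Real.norm_eq_abs]
      have hpos : 0 < |dot k ω| := abs_pos.mpr (hne k hk)
      rw [inv_le_iff_one_le_mul₀ hpos]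
      exact hdiv k hk
  have key : ∀ s, 0 < s → s < 1 → 1 ≤ r * s → BC (r * s) (G / (1 - s) * M) (fun k => m k * a k)
      (fun p x => ∑' k : ℤ × ℤ, (m k * a k) p * ch k x) := by
    intro s hs0 hs1 hrs
    have h1s : 0 < 1 - s := by linarith
    refine hf.mult m (by positivity) hrs (fun k => ?_)
    have h2 := nat_mul_pow_le hs0.le hs1 (dg k)
    calc ‖m k‖ * (r * s) ^ dg k ≤ (G * dg k) * (r * s) ^ dg k := by
          have := hmn k
          gcongr
      _ = G * r ^ dg k * (dg k * s ^ dg k) := by rw [mul_pow]; ring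
      _ ≤ G * r ^ dg k * (1 / (1 - s)) := by gcongr
      _ = _ := by ring
  refine ⟨fun p x => ∑' k : ℤ × ℤ, (m k * a k) p * ch k x, fun k => m k * a k, ?_, ?_, key⟩
  · -- the equation
    intro p x
    obtain ⟨s, hs⟩ : ∃ s : ℝ, s = (1 + 1 / r) / 2 := ⟨_, rfl⟩
    have hx1 : 1 / r < 1 := by rw [div_lt_one hr0]; exact hr
    have hx0 : 0 < 1 / r := by positivity
    have hs0 : 0 < s := by rw [hs]; linarith
    have hs1 : s < 1 := by rw [hs]; linarith
    have hrs : 1 < r * s := by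
      have : r * s = (r + 1) / 2 := by rw [hs]; field_simp
      rw [this]; linarith
    have h1 := key s hs0 hs1 hrs.le
    have hs' : 0 < 1 / (r * s) := by positivity
    have h2 := h1.fder (s := 1 / (r * s)) hs' (by rw [div_lt_one (by linarith)]; exact hrs)
      (by rw [mul_one_div, div_self (by linarith : r * s ≠ 0)]) ω
    have h3 := h2.rep p x
    have h4 : HasSum (fun k : ℤ × ℤ => (if k = 0 then 0 else a k p * ch k x)) (f p x - a 0 p) := by
      have h5 := hf.rep p x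
      have h6 := hasSum_single (f := fun k : ℤ × ℤ => if k = 0 then a 0 p else 0) 0
        (by intro k hk; simp [hk])
      have h7 := h5.sub h6
      simp only [if_true] at h7
      have e : (fun k : ℤ × ℤ => (if k = 0 then 0 else a k p * ch k x))
          = fun b => a b p * ch b x - if b = 0 then a 0 p else 0 := by
        funext k
        by_cases hk : k = 0
        · subst hk; simp [ch_zero]
        · simp [hk]
      rw [e]; exact h7
    refine h3.unique ?_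
    convert h4 using 2 with k
    by_cases hk : k = 0
    · subst hk; simp [dcoef, dot]
    · have hne' : (Complex.I * (dot k ω : ℝ) : ℂ) ≠ 0 := by
        apply mul_ne_zero Complex.I_ne_zero
        exact_mod_cast hne k hk
      simp only [dcoef, m, hk, if_false, ContinuousMap.smul_apply, ContinuousMap.mul_apply,
        ContinuousMap.const_apply, smul_eq_mul]
      rw [← mul_assoc, mul_inv_cancel₀ hne', one_mul]
  · intro p x
    obtain ⟨s, hs⟩ : ∃ s : ℝ, s = (1 + 1 / r) / 2 := ⟨_, rfl⟩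
    have hx1 : 1 / r < 1 := by rw [div_lt_one hr0]; exact hr
    have hx0 : 0 < 1 / r := by positivity
    have hs0 : 0 < s := by rw [hs]; linarith
    have hs1 : s < 1 := by rw [hs]; linarith
    have hrs : 1 < r * s := by
      have : r * s = (r + 1) / 2 := by rw [hs]; field_simp
      rw [this]; linarith
    exact ((key s hs0 hs1 hrs.le).hasFDerivAt hrs p x).1.differentiableAt

/-- The cohomological equation without small divisors (complex version). -/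
lemma BC.solve1 {r M δ : ℝ} {ω : ℝ × ℝ} {a : ℤ × ℤ → C(P, ℂ)} {f : P → ℝ × ℝ → ℂ}
    (hf : BC r M a f) (hr : 1 < r) (d : C(P, ℝ)) (hδ : 0 < δ) (hd : ∀ p, δ ≤ |d p|) :
    ∃ (g : P → ℝ × ℝ → ℂ) (b : ℤ × ℤ → C(P, ℂ)),
      (∀ p x, fderiv ℝ (g p) x ω + d p * g p x = f p x) ∧ (∀ p, Differentiable ℝ (g p)) ∧
      BC r (1 / δ * M) b g := by
  have hr0 : 0 < r := by linarith
  have hz : ∀ k p, (Complex.I * (dot k ω : ℝ) + (d p : ℝ) : ℂ) ≠ 0 := by
    intro k p h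
    have h1 := congrArg Complex.re h
    simp at h1
    have h2 := hd p
    rw [h1, abs_zero] at h2
    linarith
  let m : ℤ × ℤ → C(P, ℂ) := fun k =>
    ⟨fun p => (Complex.I * (dot k ω : ℝ) + (d p : ℝ) : ℂ)⁻¹, by
      refine Continuous.inv₀ ?_ (hz k)
      exact continuous_const.add (Complex.continuous_ofReal.comp d.continuous)⟩
  have hm : ∀ k p, m k p = (Complex.I * (dot k ω : ℝ) + (d p : ℝ) : ℂ)⁻¹ := fun k p => rfl
  have hmn : ∀ k, ‖m k‖ ≤ 1 / δ := by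
    intro k
    rw [ContinuousMap.norm_le _ (by positivity)]
    intro p
    rw [hm, norm_inv]
    have h1 : δ ≤ ‖(Complex.I * (dot k ω : ℝ) + (d p : ℝ) : ℂ)‖ := by
      have h2 := Complex.abs_re_le_norm (Complex.I * (dot k ω : ℝ) + (d p : ℝ) : ℂ)
      simp at h2
      exact (hd p).trans h2
    rw [one_div]
    exact inv_anti₀ hδ h1
  have key : BC r (1 / δ * M) (fun k => m k * a k)
      (fun p x => ∑' k : ℤ × ℤ, (m k * a k) p * ch k x) := by
    refine hf.mult m (by positivity) hr.le (fun k => ?_)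
    have := hmn k
    gcongr
  refine ⟨fun p x => ∑' k : ℤ × ℤ, (m k * a k) p * ch k x, fun k => m k * a k, ?_, ?_, key⟩
  · intro p x
    have h2 := key.fder (s := 1 / r) (by positivity) (by rw [div_lt_one (by linarith)]; exact hr)
      (by rw [mul_one_div, div_self (by linarith : r ≠ 0)]) ω
    have h3 := (h2.rep p x).add ((key.rep p x).mul_left (d p : ℂ))
    refine h3.unique ?_
    convert hf.rep p x using 2 with k
    simp only [dcoef, ContinuousMap.smul_apply, ContinuousMap.mul_apply, smul_eq_mul, hm]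
    have := hz k p
    field_simp
  · intro p x
    exact (key.hasFDerivAt hr p x).1.differentiableAt


end pwied

section pwier


open Filter Topology

variable {P : Type*} [TopologicalSpace P] [CompactSpace P]

/-- A real function on the torus whose weighted Fourier norm at radius `r` is at most `M`. -/
def B (r M : ℝ) (f : P → ℝ × ℝ → ℝ) : Prop := ∃ a, BC r M a (fun p x => (f p x : ℂ))

/-- directional derivative -/
noncomputable def pd (v : ℝ × ℝ) (f : P → ℝ × ℝ → ℝ) : P → ℝ × ℝ → ℝ :=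
  fun p x => fderiv ℝ (f p) x v

/-- complexification of a real continuous function -/
noncomputable def cx (c : C(P, ℝ)) : C(P, ℂ) :=
  ⟨fun p => (c p : ℂ), Complex.continuous_ofReal.comp c.continuous⟩

lemma cx_apply (c : C(P, ℝ)) (p : P) : cx c p = (c p : ℂ) := rfl

lemma norm_cx_le (c : C(P, ℝ)) : ‖cx c‖ ≤ ‖c‖ := by
  rw [ContinuousMap.norm_le _ (norm_nonneg _)]
  intro p
  rw [cx_apply, Complex.norm_real]
  exact c.norm_coe_le_norm p

/-- real part of a continuous function -/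
noncomputable def rx (c : C(P, ℂ)) : C(P, ℝ) :=
  ⟨fun p => (c p).re, Complex.continuous_re.comp c.continuous⟩

lemma rx_apply (c : C(P, ℂ)) (p : P) : rx c p = (c p).re := rfl

lemma norm_rx_le (c : C(P, ℂ)) : ‖rx c‖ ≤ ‖c‖ := by
  rw [ContinuousMap.norm_le _ (norm_nonneg _)]
  intro p
  rw [rx_apply]
  exact (Complex.abs_re_le_norm _).trans (c.norm_coe_le_norm p)

lemma B.nonneg {r M : ℝ} {f : P → ℝ × ℝ → ℝ} (h : B r M f) (hr : 0 ≤ r) : 0 ≤ M := by
  obtain ⟨a, h⟩ := h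
  exact h.nonneg hr

lemma B.mono {r r' M M' : ℝ} {f : P → ℝ × ℝ → ℝ} (h : B r M f) (hr' : 0 ≤ r') (hr : r' ≤ r)
    (hM : M ≤ M') : B r' M' f := by
  obtain ⟨a, h⟩ := h
  exact ⟨a, h.mono hr' hr hM⟩

lemma B.norm_le {r M : ℝ} {f : P → ℝ × ℝ → ℝ} (h : B r M f) (hr : 1 ≤ r) (p : P) (x : ℝ × ℝ) :
    |f p x| ≤ M := by
  obtain ⟨a, h⟩ := h
  have := h.norm_le hr p x
  rwa [Complex.norm_real, Real.norm_eq_abs] at this

lemma B.congr {r M : ℝ} {f g : P → ℝ × ℝ → ℝ} (h : B r M f) (e : ∀ p x, f p x = g p x) :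
    B r M g := by
  have : f = g := by funext p x; exact e p x
  rwa [this] at h

lemma B.add {r M N : ℝ} {f g : P → ℝ × ℝ → ℝ} (hf : B r M f) (hg : B r N g) (hr : 0 ≤ r) :
    B r (M + N) (fun p x => f p x + g p x) := by
  obtain ⟨a, ha⟩ := hf
  obtain ⟨b, hb⟩ := hg
  refine ⟨fun k => a k + b k, ?_⟩
  have := ha.add hr hb
  simpa using this

lemma B.mul {r M N : ℝ} {f g : P → ℝ × ℝ → ℝ} (hf : B r M f) (hg : B r N g) (hr : 1 ≤ r) :
    B r (M * N) (fun p x => f p x * g p x) := by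
  obtain ⟨a, ha⟩ := hf
  obtain ⟨b, hb⟩ := hg
  refine ⟨fun n => ∑' j, a j * b (n - j), ?_⟩
  have := ha.mul hr hb
  simpa using this

lemma B.cmul {r M : ℝ} {f : P → ℝ × ℝ → ℝ} (c : C(P, ℝ)) (hf : B r M f) (hr : 0 ≤ r) :
    B r (‖c‖ * M) (fun p x => c p * f p x) := by
  have hM := hf.nonneg hr
  obtain ⟨a, ha⟩ := hf
  refine ⟨fun k => cx c * a k, ?_⟩
  have h1 := (ha.const_mul hr (cx c)).mono hr le_rfl (M' := ‖c‖ * M) (by
    have := norm_cx_le c
    gcongr)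
  simpa [cx_apply] using h1

lemma B.smul {r M : ℝ} {f : P → ℝ × ℝ → ℝ} (c : ℝ) (hf : B r M f) (hr : 0 ≤ r) :
    B r (|c| * M) (fun p x => c * f p x) := by
  have h1 := hf.cmul (ContinuousMap.const P c) hr
  have hM := hf.nonneg hr
  refine h1.mono hr le_rfl ?_
  have : ‖ContinuousMap.const P c‖ ≤ |c| := by
    rw [ContinuousMap.norm_le _ (abs_nonneg _)]
    intro p; simp
  gcongr

lemma B.const {r : ℝ} (c : C(P, ℝ)) : B r ‖c‖ (fun p _ => c p) := by
  refine ⟨fun k => if k = 0 then cx c else 0, ?_⟩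
  have h1 := BC.const (r := r) (cx c)
  refine ⟨h1.sum, h1.le.trans (norm_cx_le c), ?_⟩
  intro p x
  have := h1.rep p x
  simpa [cx_apply] using this

lemma B.rconst {r : ℝ} (c : ℝ) : B (P := P) r |c| (fun _ _ => c) := by
  have h1 := B.const (P := P) (r := r) (ContinuousMap.const P c)
  obtain ⟨a, ha⟩ := h1
  refine ⟨a, ha.sum, ha.le.trans ?_, ha.rep⟩
  rw [ContinuousMap.norm_le _ (abs_nonneg _)]
  intro p; simp

lemma B.zero {r : ℝ} : B (P := P) r 0 (fun _ _ => 0) := by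
  have := B.rconst (P := P) (r := r) 0
  simpa using this

lemma B.neg {r M : ℝ} {f : P → ℝ × ℝ → ℝ} (hf : B r M f) (hr : 0 ≤ r) :
    B r M (fun p x => -f p x) := by
  have := hf.smul (-1) hr
  simpa using this

lemma B.sub {r M N : ℝ} {f g : P → ℝ × ℝ → ℝ} (hf : B r M f) (hg : B r N g) (hr : 0 ≤ r) :
    B r (M + N) (fun p x => f p x - g p x) := by
  have := hf.add (hg.neg hr) hr
  simpa [sub_eq_add_neg] using this

lemma B.refl {r M : ℝ} {f : P → ℝ × ℝ → ℝ} (hf : B r M f) : B r M (fun p x => f p (-x)) := by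
  obtain ⟨a, ha⟩ := hf
  exact ⟨_, ha.refl⟩

lemma B.sum {ι : Type*} (s : Finset ι) {r : ℝ} {M : ι → ℝ} {f : ι → P → ℝ × ℝ → ℝ}
    (h : ∀ i ∈ s, B r (M i) (f i)) (hr : 0 ≤ r) :
    B r (∑ i ∈ s, M i) (fun p x => ∑ i ∈ s, f i p x) := by
  classical
  induction s using Finset.induction_on with
  | empty => simpa using B.zero
  | insert a s ha ih =>
    have h1 := (h a (Finset.mem_insert_self _ _)).add
      (ih (fun i hi => h i (Finset.mem_insert_of_mem hi))) hr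
    rw [Finset.sum_insert ha]
    refine h1.congr (fun p x => ?_)
    rw [Finset.sum_insert ha]

lemma B.tsum {r : ℝ} (hr : 1 ≤ r) {M : ℕ → ℝ} {f : ℕ → P → ℝ × ℝ → ℝ} (hM : Summable M)
    (h : ∀ n, B r (M n) (f n)) : B r (∑' n, M n) (fun p x => ∑' n, f n p x) := by
  choose a ha using h
  refine ⟨fun k => ∑' n, a n k, ?_⟩
  have := BC.tsum hr hM ha
  simpa [Complex.ofReal_tsum] using this

lemma B.diff {r M : ℝ} {f : P → ℝ × ℝ → ℝ} (hf : B r M f) (hr : 1 < r) (p : P) :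
    Differentiable ℝ (f p) := by
  obtain ⟨a, ha⟩ := hf
  intro x
  have h1 := (ha.hasFDerivAt hr p x).1.differentiableAt
  have h2 : f p = fun x => Complex.reCLM ((f p x : ℂ)) := by funext y; simp
  rw [h2]
  exact Complex.reCLM.differentiableAt.comp x h1

lemma ofReal_pd {f : P → ℝ × ℝ → ℝ} {p : P} {x : ℝ × ℝ} (h : DifferentiableAt ℝ (f p) x)
    (v : ℝ × ℝ) : fderiv ℝ (fun x => (f p x : ℂ)) x v = ((pd v f p x : ℝ) : ℂ) := by
  have h1 : HasFDerivAt (fun x => Complex.ofRealCLM (f p x)) (Complex.ofRealCLM.comp (fderiv ℝ (f p) x)) x :=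
    Complex.ofRealCLM.hasFDerivAt.comp x h.hasFDerivAt
  have h2 : HasFDerivAt (fun x => ((f p x : ℝ) : ℂ)) (Complex.ofRealCLM.comp (fderiv ℝ (f p) x)) x := h1
  rw [h2.fderiv]
  rfl

lemma B.pd {r M s : ℝ} {f : P → ℝ × ℝ → ℝ} (hf : B r M f) (hs0 : 0 < s) (hs1 : s < 1)
    (hrs : 1 ≤ r * s) (v : ℝ × ℝ) : B (r * s) (‖v‖ / (1 - s) * M) (pd v f) := by
  have hr : 1 < r := by
    by_contra h
    push Not at h
    have : r * s < 1 := by
      rcases le_or_gt r 0 with h0 | h0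
      · nlinarith
      · nlinarith
    linarith
  have hd := hf.diff hr
  obtain ⟨a, ha⟩ := hf
  refine ⟨dcoef v a, ?_⟩
  have h1 := ha.fder hs0 hs1 hrs v
  have e : (fun p x => fderiv ℝ (fun x => (f p x : ℂ)) x v) = fun p x => ((k800.pd v f p x : ℝ) : ℂ) := by
    funext p x
    exact ofReal_pd (hd p x) v
  rw [e] at h1
  exact h1

lemma pd_add {f g : P → ℝ × ℝ → ℝ} {p : P} {x : ℝ × ℝ} (hf : DifferentiableAt ℝ (f p) x)
    (hg : DifferentiableAt ℝ (g p) x) (v : ℝ × ℝ) :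
    pd v (fun p x => f p x + g p x) p x = pd v f p x + pd v g p x := by
  have := (hf.hasFDerivAt.add hg.hasFDerivAt).fderiv
  unfold pd
  change fderiv ℝ (f p + g p) x v = _
  rw [this]; rfl

lemma pd_sub {f g : P → ℝ × ℝ → ℝ} {p : P} {x : ℝ × ℝ} (hf : DifferentiableAt ℝ (f p) x)
    (hg : DifferentiableAt ℝ (g p) x) (v : ℝ × ℝ) :
    pd v (fun p x => f p x - g p x) p x = pd v f p x - pd v g p x := by
  have := (hf.hasFDerivAt.sub hg.hasFDerivAt).fderiv
  unfold pd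
  change fderiv ℝ (f p - g p) x v = _
  rw [this]; rfl

lemma pd_mul {f g : P → ℝ × ℝ → ℝ} {p : P} {x : ℝ × ℝ} (hf : DifferentiableAt ℝ (f p) x)
    (hg : DifferentiableAt ℝ (g p) x) (v : ℝ × ℝ) :
    pd v (fun p x => f p x * g p x) p x = pd v f p x * g p x + f p x * pd v g p x := by
  have := (hf.hasFDerivAt.mul hg.hasFDerivAt).fderiv
  unfold pd
  change fderiv ℝ (f p * g p) x v = _
  rw [this]
  simp only [_root_.add_apply, _root_.smul_apply, smul_eq_mul]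
  ring

lemma pd_const (c : P → ℝ) (v : ℝ × ℝ) (p : P) (x : ℝ × ℝ) : pd v (fun p _ => c p) p x = 0 := by
  unfold pd; simp

lemma pd_cmul {f : P → ℝ × ℝ → ℝ} {p : P} {x : ℝ × ℝ} (hf : DifferentiableAt ℝ (f p) x)
    (c : P → ℝ) (v : ℝ × ℝ) : pd v (fun p x => c p * f p x) p x = c p * pd v f p x := by
  rw [pd_mul (f := fun p _ => c p) (differentiableAt_const _) hf, pd_const]; ring

lemma pd_neg (f : P → ℝ × ℝ → ℝ) (v : ℝ × ℝ) (p : P) (x : ℝ × ℝ) :
    pd v (fun p x => -f p x) p x = -pd v f p x := by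
  unfold pd
  change fderiv ℝ (-(f p)) x v = _
  rw [fderiv_neg]; rfl

lemma pd_refl {f : P → ℝ × ℝ → ℝ} {p : P} {x : ℝ × ℝ} (hf : DifferentiableAt ℝ (f p) (-x))
    (v : ℝ × ℝ) : pd v (fun p x => f p (-x)) p x = -pd v f p (-x) := by
  have h1 : HasFDerivAt (fun x : ℝ × ℝ => -x) (-(ContinuousLinearMap.id ℝ (ℝ × ℝ))) x :=
    (hasFDerivAt_id x).neg
  have h2 := (hf.hasFDerivAt.comp x h1).fderiv
  unfold pd
  change fderiv ℝ (f p ∘ fun x => -x) x v = _
  rw [h2]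
  simp

lemma pd_sum {ι : Type*} (s : Finset ι) {f : ι → P → ℝ × ℝ → ℝ} {p : P} {x : ℝ × ℝ}
    (hf : ∀ i ∈ s, DifferentiableAt ℝ (f i p) x) (v : ℝ × ℝ) :
    pd v (fun p x => ∑ i ∈ s, f i p x) p x = ∑ i ∈ s, pd v (f i) p x := by
  unfold pd
  have := (HasFDerivAt.fun_sum (fun i hi => (hf i hi).hasFDerivAt)).fderiv
  rw [this]
  simp

/-- mixed derivatives commute -/
lemma pd_comm {r M : ℝ} {f : P → ℝ × ℝ → ℝ} (hf : B r M f) (hr : 1 < r) (v w : ℝ × ℝ) (p : P)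
    (x : ℝ × ℝ) : pd v (pd w f) p x = pd w (pd v f) p x := by
  have hr0 : 0 < r := by linarith
  obtain ⟨s, hs⟩ : ∃ s : ℝ, s = (1 + 1 / r) / 2 := ⟨_, rfl⟩
  have hx1 : 1 / r < 1 := by rw [div_lt_one hr0]; exact hr
  have hx0 : 0 < 1 / r := by positivity
  have hs0 : 0 < s := by rw [hs]; linarith
  have hs1 : s < 1 := by rw [hs]; linarith
  have hrs : 1 < r * s := by
    have : r * s = (r + 1) / 2 := by rw [hs]; field_simp
    rw [this]; linarith
  have hd := hf.diff hr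
  obtain ⟨a, ha⟩ := hf
  have key : ∀ v w : ℝ × ℝ, HasSum (fun k => (dcoef v (dcoef w a) k) p * ch k x)
      ((pd v (pd w f) p x : ℝ) : ℂ) := by
    intro v w
    have h1 := ha.fder hs0 hs1 hrs.le w
    have e : (fun p x => fderiv ℝ (fun x => (f p x : ℂ)) x w)
        = fun p x => ((k800.pd w f p x : ℝ) : ℂ) := by
      funext p x
      exact ofReal_pd (hd p x) w
    rw [e] at h1
    have hB : B (r * s) (‖w‖ / (1 - s) * M) (k800.pd w f) := ⟨_, h1⟩
    have hd2 := hB.diff hrs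
    have h2 := h1.fder (s := 1 / (r * s)) (by positivity)
      (by rw [div_lt_one (by linarith)]; exact hrs)
      (by rw [mul_one_div, div_self (by linarith : r * s ≠ 0)]) v
    have h3 := h2.rep p x
    have e3 := ofReal_pd (f := k800.pd w f) (hd2 p x) v
    exact e3 ▸ h3
  have h1 := key v w
  have h2 := key w v
  have e : (fun k => (dcoef v (dcoef w a) k) p * ch k x) = fun k => (dcoef w (dcoef v a) k) p * ch k x := by
    funext k
    simp only [dcoef, ContinuousMap.smul_apply, smul_eq_mul]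
    ring
  rw [e] at h1
  exact_mod_cast h1.unique h2

/-- Diophantine frequency vectors -/
structure Dio (G : ℝ) (ω : ℝ × ℝ) : Prop where
  nonneg : 0 ≤ G
  div : ∀ k : ℤ × ℤ, k ≠ 0 → 1 ≤ G * dg k * |dot k ω|

lemma re_part {r M : ℝ} {b : ℤ × ℤ → C(P, ℂ)} {g : P → ℝ × ℝ → ℂ} (h : BC r M b g) (hr : 0 ≤ r) :
    B r M (fun p x => (g p x).re) := by
  have h1 := (h.add hr h.conj).const_mul hr (ContinuousMap.const P (1 / 2 : ℂ))
  have hn : ‖ContinuousMap.const P (1 / 2 : ℂ)‖ ≤ 1 / 2 := by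
    rw [ContinuousMap.norm_le _ (by norm_num)]
    intro p; simp
  have hM := h.nonneg hr
  have h2 := h1.mono hr le_rfl (M' := M) (by nlinarith)
  refine ⟨_, h2.sum, h2.le, ?_⟩
  intro p x
  have h3 := h2.rep p x
  convert h3 using 1
  rw [ContinuousMap.const_apply, Complex.add_conj]
  push_cast; ring

/-- The cohomological equation, real version. -/
theorem solve {r M G δ H : ℝ} {ω : ℝ × ℝ} (hω : Dio G ω) (hr : 1 < r) {f : P → ℝ × ℝ → ℝ}
    (hf : B r M f) (d : C(P, ℝ)) (hδ : 0 < δ) (hd : d = 0 ∨ ∀ p, δ ≤ |d p|) (hH : G ≤ H)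
    (hH' : 1 / δ ≤ H) :
    ∃ (c : C(P, ℝ)) (g : P → ℝ × ℝ → ℝ), ‖c‖ ≤ M ∧ (d ≠ 0 → c = 0) ∧
      (∀ p x, pd ω g p x + d p * g p x = f p x + c p) ∧
      (∀ s, 0 < s → s < 1 → 1 ≤ r * s → B (r * s) (H / (1 - s) * M) g) := by
  have hr0 : 0 ≤ r := by linarith
  have hM := hf.nonneg hr0
  obtain ⟨a, ha⟩ := hf
  have hre : ∀ (g : P → ℝ × ℝ → ℂ) (p : P) (x : ℝ × ℝ), DifferentiableAt ℝ (g p) x →
      pd ω (fun p x => (g p x).re) p x = (fderiv ℝ (g p) x ω).re := by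
    intro g p x h
    have h1 : HasFDerivAt (fun x => Complex.reCLM (g p x)) (Complex.reCLM.comp (fderiv ℝ (g p) x)) x :=
      Complex.reCLM.hasFDerivAt.comp x h.hasFDerivAt
    have h2 : HasFDerivAt (fun x => (g p x).re) (Complex.reCLM.comp (fderiv ℝ (g p) x)) x := h1
    unfold pd
    rw [h2.fderiv]
    rfl
  have hM0 : ∀ s : ℝ, 0 < s → s < 1 → M ≤ 1 / (1 - s) * M := by
    intro s hs0 hs1
    have : 1 ≤ 1 / (1 - s) := by
      rw [le_div_iff₀ (by linarith)]; linarith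
    nlinarith
  by_cases hd0 : d = 0
  · obtain ⟨g, b, h1, h2, h3⟩ := ha.solve0 hr hω.nonneg hω.div
    have hc0 : ‖a 0‖ ≤ M := by
      have h5 := ha.sum.le_tsum (0 : ℤ × ℤ) (fun k _ => by positivity)
      have h6 : dg 0 = 0 := by simp [dg]
      rw [h6, pow_zero, mul_one] at h5
      exact h5.trans ha.le
    refine ⟨-rx (a 0), fun p x => (g p x).re, ?_, fun h => absurd hd0 h, ?_, ?_⟩
    · rw [norm_neg]
      exact (norm_rx_le _).trans hc0
    · intro p x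
      rw [hre g p x (h2 p x), h1 p x, hd0]
      simp [rx_apply]
      ring
    · intro s hs0 hs1 hrs
      have h5 := re_part (h3 s hs0 hs1 hrs) (by linarith)
      refine h5.mono (by linarith) le_rfl ?_
      have : 0 < 1 - s := by linarith
      gcongr
  · have hd' : ∀ p, δ ≤ |d p| := hd.resolve_left hd0
    obtain ⟨g, b, h1, h2, h3⟩ := ha.solve1 (ω := ω) hr d hδ hd'
    refine ⟨0, fun p x => (g p x).re, by simpa using hM, fun _ => rfl, ?_, ?_⟩
    · intro p x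
      rw [hre g p x (h2 p x)]
      have := congrArg Complex.re (h1 p x)
      simp at this
      simpa using this
    · intro s hs0 hs1 hrs
      have h5 := re_part h3 (by linarith)
      have hrs' : r * s ≤ r := by nlinarith
      refine h5.mono (by linarith) hrs' ?_
      have h6 := hM0 s hs0 hs1
      have h7 : 0 < 1 - s := by linarith
      have h8 : 0 ≤ 1 / δ := by positivity
      have h9 : 0 ≤ H := h8.trans hH'
      calc 1 / δ * M ≤ H * M := by gcongr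
        _ ≤ H * (1 / (1 - s) * M) := by gcongr
        _ = _ := by ring

/-- `f` has mean `c`: it is `c` plus the derivative along the flow of a bounded function -/
def Mn (ω : ℝ × ℝ) (f : P → ℝ × ℝ → ℝ) (c : P → ℝ) : Prop :=
  ∃ h : P → ℝ × ℝ → ℝ, (∀ p, Differentiable ℝ (h p)) ∧ (∃ C : ℝ, ∀ p x, |h p x| ≤ C) ∧
    ∀ p x, f p x = c p + pd ω h p x

lemma Mn.unique {ω : ℝ × ℝ} {f : P → ℝ × ℝ → ℝ} {c c' : P → ℝ} (h : Mn ω f c)
    (h' : Mn ω f c') (p : P) : c p = c' p := by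
  obtain ⟨g, g1, ⟨C, g2⟩, g3⟩ := h
  obtain ⟨g', g1', ⟨C', g2'⟩, g3'⟩ := h'
  by_contra hne
  -- the function along the line
  set F : ℝ → ℝ := fun t => g' p (t • ω) - g p (t • ω) - (c p - c' p) * t with hF
  have hline : ∀ t : ℝ, HasDerivAt (fun t : ℝ => t • ω) ω t := fun t => by
    simpa using (hasDerivAt_id t).smul_const ω
  have hder : ∀ t, HasDerivAt F 0 t := by
    intro t
    have a1 := ((g1' p) (t • ω)).hasFDerivAt.comp_hasDerivAt t (hline t)
    have a2 := ((g1 p) (t • ω)).hasFDerivAt.comp_hasDerivAt t (hline t)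
    have a3 := ((a1.sub a2).sub ((hasDerivAt_id t).const_mul (c p - c' p)))
    refine a3.congr_deriv ?_
    have e1 := g3 p (t • ω)
    have e2 := g3' p (t • ω)
    unfold pd at e1 e2
    linarith
  have hconst : ∀ t, F t = F 0 := fun t =>
    is_const_of_deriv_eq_zero (fun t => (hder t).differentiableAt) (fun t => (hder t).deriv) t 0
  have hb : ∀ t, |c p - c' p| * |t| ≤ 2 * (C + C') := by
    intro t
    have e := hconst t
    simp only [hF, mul_zero, sub_zero] at e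
    have e1 : (c p - c' p) * t = g' p (t • ω) - g p (t • ω) - (g' p ((0:ℝ) • ω) - g p ((0:ℝ) • ω)) := by
      linarith
    rw [← abs_mul, e1]
    have b1 := abs_le.mp (g2 p (t • ω))
    have b2 := abs_le.mp (g2' p (t • ω))
    have b3 := abs_le.mp (g2 p ((0:ℝ) • ω))
    have b4 := abs_le.mp (g2' p ((0:ℝ) • ω))
    rw [abs_le]
    constructor <;> linarith [b1.1, b1.2, b2.1, b2.2, b3.1, b3.2, b4.1, b4.2]
  have hpos : 0 < |c p - c' p| := abs_pos.mpr (sub_ne_zero.mpr hne)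
  have hCC : 0 ≤ 2 * (C + C') := by
    have := hb 0
    simpa using this
  have h5 := hb ((2 * (C + C') + 1) / |c p - c' p|)
  have h6 : 0 ≤ (2 * (C + C') + 1) / |c p - c' p| := by
    apply div_nonneg (by linarith) hpos.le
  rw [abs_of_nonneg h6] at h5
  have : |c p - c' p| * ((2 * (C + C') + 1) / |c p - c' p|) = 2 * (C + C') + 1 := by
    field_simp
  linarith

lemma Mn.add {ω : ℝ × ℝ} {f g : P → ℝ × ℝ → ℝ} {c d : P → ℝ} (hf : Mn ω f c) (hg : Mn ω g d) :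
    Mn ω (fun p x => f p x + g p x) (fun p => c p + d p) := by
  obtain ⟨h, h1, ⟨C, h2⟩, h3⟩ := hf
  obtain ⟨k, k1, ⟨D, k2⟩, k3⟩ := hg
  refine ⟨fun p x => h p x + k p x, fun p => (h1 p).add (k1 p), ⟨C + D, fun p x => ?_⟩, ?_⟩
  · exact (abs_add_le _ _).trans (add_le_add (h2 p x) (k2 p x))
  · intro p x
    have e : pd ω (fun p x => h p x + k p x) p x = pd ω h p x + pd ω k p x := by
      unfold pd
      have := fderiv_add ((h1 p) x) ((k1 p) x)
      change fderiv ℝ (h p + k p) x ω = _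
      rw [this]
      rfl
    have e3 := h3 p x
    have e4 := k3 p x
    change f p x + g p x = c p + d p + pd ω (fun p x => h p x + k p x) p x
    rw [e, e3, e4]; ring

lemma Mn.of_solve {r M : ℝ} {ω : ℝ × ℝ} {f g : P → ℝ × ℝ → ℝ} {c : C(P, ℝ)} (hr : 1 < r)
    (hg : B r M g) (h : ∀ p x, pd ω g p x = f p x + c p) : Mn ω f (fun p => -c p) :=
  ⟨g, fun p => hg.diff hr p, ⟨M, fun p x => hg.norm_le hr.le p x⟩, fun p x => by
    have := h p x
    linarith⟩


end pwier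

end Run7.k800
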